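import Pool.Agent.Lib.AbcZQ.AsyQ

/-!
# The exponent as a function of the radical, explicit
-/

namespace Pool.Agent.Lib.AbcZW

open Pool.Agent.Lib.AbcZQ

/-- `4 C log L ≤ L` for `L ≥ 10 ^ 15` and `C = 10 ^ 12` -/
theorem log_small_e (L : ℝ) (hL : 10 ^ 15 ≤ L) : 4 * 10 ^ 12 * Real.log L ≤ L := by
  have hL0 : 0 < L := lt_of_lt_of_le (by norm_num) hL
  set y : ℝ := L / 10 ^ 15 with hy
  have hy1 : 1 ≤ y := by rw [hy, le_div_iff₀ (by norm_num)]; linarith
  have hLy : L = 10 ^ 15 * y := by rw [hy]; ring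
  have hlogy : Real.log y ≤ y - 1 := Real.log_le_sub_one_of_pos (by linarith)
  have hl : Real.log ((10 : ℝ) ^ 15) ≤ 60 := by
    have h1 : Real.log ((10 : ℝ) ^ 15) ≤ Real.log ((2 : ℝ) ^ 60) :=
      Real.log_le_log (by norm_num) (by norm_num)
    have h2 : Real.log ((2 : ℝ) ^ 60) = 60 * Real.log 2 := by
      rw [Real.log_pow]
      push_cast
      ring
    have := Real.log_two_lt_d9
    linarith
  rw [hLy, Real.log_mul (by norm_num) (by linarith)]
  nlinarith

/-- the choice of `ε`, explicit -/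
theorem asyE (r h : ℝ) (hr : Real.exp (Real.exp (10 ^ 15)) ≤ r)
    (H : ∀ ε : ℝ, 0 < ε → ε ≤ 1 → h ≤ Real.exp (Real.exp (10 ^ 12 / ε *
      (1 + Real.log (1 / ε)))) * r ^ ε) :
    h ≤ Real.exp (10 ^ 13 * Real.log r * Real.log (Real.log (Real.log r)) /
      Real.log (Real.log r)) := by
  obtain ⟨C, hCdef⟩ : ∃ C : ℝ, C = 10 ^ 12 := ⟨_, rfl⟩
  have hC : 1 ≤ C := by rw [hCdef]; norm_num
  rw [← hCdef] at H
  have hC0 : 0 < C := by linarith
  obtain ⟨hr1, hR, hL⟩ := loglog_large _ r hr
  set R : ℝ := Real.log r with hRdef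
  set L : ℝ := Real.log R with hLdef
  have hL0 : 0 < L := lt_of_lt_of_le (by norm_num) hL
  set l : ℝ := Real.log L with hldef
  have hl1 : 1 ≤ l := by
    rw [hldef, ← Real.log_exp 1]
    refine Real.log_le_log (Real.exp_pos 1) (le_trans ?_ hL)
    have := Real.exp_one_lt_d9
    linarith
  have hl0 : 0 < l := by linarith
  have hK : 1 ≤ 4 * C * l := by nlinarith
  have hKL : 4 * C * l ≤ L := by
    rw [hCdef]
    exact log_small_e L hL
  have hε0 : 0 < 4 * C * l / L := by positivity
  have hε1 : 4 * C * l / L ≤ 1 := by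
    rw [div_le_one hL0]
    exact hKL
  have key := H _ hε0 hε1
  set ε : ℝ := 4 * C * l / L with hεdef
  have hinv : 1 / ε = L / (4 * C * l) := by
    rw [hεdef, one_div_div]
  have hinv1 : 1 / ε ≤ L := by
    rw [hinv]
    exact div_le_self hL0.le hK
  have hinv2 : 1 ≤ 1 / ε := by
    rw [le_div_iff₀ hε0, one_mul]
    exact hε1
  have hlog0 : 0 ≤ Real.log (1 / ε) := Real.log_nonneg hinv2
  have hlog1 : Real.log (1 / ε) ≤ l := Real.log_le_log (by linarith) hinv1
  have hexp : C / ε * (1 + Real.log (1 / ε)) ≤ L / 2 := by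
    calc C / ε * (1 + Real.log (1 / ε)) ≤ C / ε * (2 * l) :=
          mul_le_mul_of_nonneg_left (by linarith) (by positivity)
      _ = L / 2 := by
          rw [hεdef]
          field_simp
          ring
  have hRL : R = Real.exp L := by rw [hLdef, Real.exp_log hR]
  have hmain : Real.exp (C / ε * (1 + Real.log (1 / ε))) ≤ ε * R := by
    refine (Real.exp_le_exp.2 hexp).trans ?_
    have h1 : 1 + L / 2 ≤ Real.exp (L / 2) := by linarith [Real.add_one_le_exp (L / 2)]
    have h2 : Real.exp L = Real.exp (L / 2) * Real.exp (L / 2) := by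
      rw [← Real.exp_add]
      congr 1
      ring
    have h3 : L ≤ 4 * C * l * Real.exp (L / 2) := by
      have h4 : 4 ≤ 4 * C * l := by nlinarith
      calc L ≤ 4 * (1 + L / 2) := by linarith
        _ ≤ 4 * C * l * Real.exp (L / 2) := by
            apply mul_le_mul h4 h1 (by linarith) (by linarith)
    rw [hRL, h2, hεdef]
    have h5 : 4 * C * l / L * (Real.exp (L / 2) * Real.exp (L / 2)) =
        (4 * C * l * Real.exp (L / 2) / L) * Real.exp (L / 2) := by ring
    rw [h5]
    have h6 : 1 ≤ 4 * C * l * Real.exp (L / 2) / L := by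
      rw [le_div_iff₀ hL0, one_mul]
      exact h3
    nlinarith [Real.exp_pos (L / 2)]
  have hrε : r ^ ε = Real.exp (ε * R) := by
    rw [Real.rpow_def_of_pos (by linarith), mul_comm]
  calc h ≤ Real.exp (Real.exp (C / ε * (1 + Real.log (1 / ε)))) * r ^ ε := key
    _ ≤ Real.exp (ε * R) * Real.exp (ε * R) := by
        rw [hrε]
        exact mul_le_mul_of_nonneg_right (Real.exp_le_exp.2 hmain) (Real.exp_pos _).le
    _ = Real.exp (8 * C * R * l / L) := by
        rw [← Real.exp_add]
        congr 1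
        rw [hεdef]
        ring
    _ ≤ Real.exp (10 ^ 13 * R * l / L) := by
        apply Real.exp_le_exp.2
        apply div_le_div_of_nonneg_right _ hL0.le
        apply mul_le_mul_of_nonneg_right _ hl0.le
        apply mul_le_mul_of_nonneg_right _ hR.le
        rw [hCdef]
        norm_num

end Pool.Agent.Lib.AbcZW
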