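import Pool.Agent.Lib.AbcZQ.AsyQ

/-!
# The exponent as a function of the radical

If `h ≤ exp (exp (C / ε (1 + log (1 / ε)))) r ^ ε` for all `0 < ε ≤ 1`, then
`h ≤ exp (C' log r log log log r / log log r)` for all large `r`: take
`ε = 4 C log log log r / log log r`.
-/

namespace Pool.Agent.Lib.AbcZW

open Pool.Agent.Lib.AbcZQ

/-- the choice of `ε` -/
theorem asyW (C : ℝ) (hC : 1 ≤ C) : ∃ C' r0 : ℝ, 0 < C' ∧ ∀ r h : ℝ, r0 ≤ r →
    (∀ ε : ℝ, 0 < ε → ε ≤ 1 → h ≤ Real.exp (Real.exp (C / ε * (1 + Real.log (1 / ε)))) *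
      r ^ ε) →
    h ≤ Real.exp (C' * Real.log r * Real.log (Real.log (Real.log r)) /
      Real.log (Real.log r)) := by
  have hC0 : 0 < C := by linarith
  obtain ⟨L1, hL1⟩ := log_cube_le (4 * C) (by linarith)
  refine ⟨8 * C, Real.exp (Real.exp (max L1 (Real.exp 1))), by linarith, ?_⟩
  intro r h hr H
  obtain ⟨hr1, hR, hL⟩ := loglog_large _ r hr
  set R : ℝ := Real.log r with hRdef
  set L : ℝ := Real.log R with hLdef
  have hLL1 : L1 ≤ L := (le_max_left _ _).trans hL
  have hLe : Real.exp 1 ≤ L := (le_max_right _ _).trans hL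
  have hL0 : 0 < L := lt_of_lt_of_le (Real.exp_pos 1) hLe
  set l : ℝ := Real.log L with hldef
  have hl1 : 1 ≤ l := by
    rw [hldef, ← Real.log_exp 1]
    exact Real.log_le_log (Real.exp_pos 1) hLe
  have hl0 : 0 < l := by linarith
  have hl3 : l ≤ l ^ 3 := by
    have h1 : 1 ≤ l ^ 2 := one_le_pow₀ hl1
    calc l = l * 1 := (mul_one l).symm
      _ ≤ l * l ^ 2 := mul_le_mul_of_nonneg_left h1 hl0.le
      _ = l ^ 3 := by ring
  have hK : 1 ≤ 4 * C * l := by nlinarith
  have hKL : 4 * C * l ≤ L :=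
    (mul_le_mul_of_nonneg_left hl3 (by linarith)).trans (hL1 L hLL1)
  have hε0 : 0 < 4 * C * l / L := by positivity
  have hε1 : 4 * C * l / L ≤ 1 := by
    rw [div_le_one hL0]
    exact hKL
  have key := H _ hε0 hε1
  set ε : ℝ := 4 * C * l / L with hεdef
  have hinv : 1 / ε = L / (4 * C * l) := by
    rw [hεdef, one_div_div]
  have hinv1 : 1 / ε ≤ L := by
    rw [hinv]
    exact div_le_self hL0.le hK
  have hinv2 : 1 ≤ 1 / ε := by
    rw [le_div_iff₀ hε0, one_mul]
    exact hε1
  have hlog0 : 0 ≤ Real.log (1 / ε) := Real.log_nonneg hinv2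
  have hlog1 : Real.log (1 / ε) ≤ l := Real.log_le_log (by linarith) hinv1
  have hexp : C / ε * (1 + Real.log (1 / ε)) ≤ L / 2 := by
    calc C / ε * (1 + Real.log (1 / ε)) ≤ C / ε * (2 * l) :=
          mul_le_mul_of_nonneg_left (by linarith) (by positivity)
      _ = L / 2 := by
          rw [hεdef]
          field_simp
          ring
  have hRL : R = Real.exp L := by rw [hLdef, Real.exp_log hR]
  have hmain : Real.exp (C / ε * (1 + Real.log (1 / ε))) ≤ ε * R := by
    refine (Real.exp_le_exp.2 hexp).trans ?_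
    have h1 : 1 + L / 2 ≤ Real.exp (L / 2) := by linarith [Real.add_one_le_exp (L / 2)]
    have h2 : Real.exp L = Real.exp (L / 2) * Real.exp (L / 2) := by
      rw [← Real.exp_add]
      congr 1
      ring
    have h3 : L ≤ 4 * C * l * Real.exp (L / 2) := by
      have h4 : 4 ≤ 4 * C * l := by nlinarith
      calc L ≤ 4 * (1 + L / 2) := by linarith
        _ ≤ 4 * C * l * Real.exp (L / 2) := by
            apply mul_le_mul h4 h1 (by linarith) (by linarith)
    rw [hRL, h2, hεdef]
    have h5 : 4 * C * l / L * (Real.exp (L / 2) * Real.exp (L / 2)) =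
        (4 * C * l * Real.exp (L / 2) / L) * Real.exp (L / 2) := by ring
    rw [h5]
    have h6 : 1 ≤ 4 * C * l * Real.exp (L / 2) / L := by
      rw [le_div_iff₀ hL0, one_mul]
      exact h3
    nlinarith [Real.exp_pos (L / 2)]
  have hrε : r ^ ε = Real.exp (ε * R) := by
    rw [Real.rpow_def_of_pos (by linarith), mul_comm]
  calc h ≤ Real.exp (Real.exp (C / ε * (1 + Real.log (1 / ε)))) * r ^ ε := key
    _ ≤ Real.exp (ε * R) * Real.exp (ε * R) := by
        rw [hrε]
        exact mul_le_mul_of_nonneg_right (Real.exp_le_exp.2 hmain) (Real.exp_pos _).le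
    _ = Real.exp (8 * C * R * l / L) := by
        rw [← Real.exp_add]
        congr 1
        rw [hεdef]
        ring

end Pool.Agent.Lib.AbcZW
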