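import Mathlib

/-!
# From the Ridout form to all abc-triples, and the exponent as a function of the radical
-/

namespace Pool.Agent.Lib.AbcZW

open Filter

/-- `exp (exp ((C / ε) (1 + log (1 / η)) ^ m))` -/
noncomputable def KK (C : ℝ) (m : ℕ) (ε η : ℝ) : ℝ :=
  Real.exp (Real.exp (C / ε * (1 + Real.log (1 / η)) ^ m))

/-- The Ridout form with explicit constants. -/
def RidoutK (C : ℝ) (m : ℕ) : Prop := ∀ ε δ : ℝ, 0 < ε → ε ≤ 1 → 0 < δ → δ ≤ 1 →
  ∀ (a b D : ℕ) (s : ℤ), 0 < a → 0 < b → Nat.Coprime a b → (s = 1 ∨ s = -1) →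
  (a : ℤ) ≠ s * b → 0 < D → (D : ℤ) ∣ (a : ℤ) - s * b →
  Real.log D ≤ δ * Real.log (max a b : ℕ) +
    KK C m ε (ε * δ) * ((∏ p ∈ (a * b * D).primeFactors, p : ℕ) : ℝ) ^ ε

/-- The bound for all triples, with explicit constants. -/
def AllEpsK (C : ℝ) (m : ℕ) : Prop := ∀ ε : ℝ, 0 < ε → ε ≤ 1 → ∀ a b c : ℕ,
  0 < a → 0 < b → a + b = c → Nat.Coprime a b →
  Real.log c ≤ KK C m ε ε * ((∏ p ∈ (a * b * c).primeFactors, p : ℕ) : ℝ) ^ ε

theorem allEpsK_of (C : ℝ) (m : ℕ) (hC : 1 ≤ C) (h : RidoutK C m) :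
    ∃ C' : ℝ, 1 ≤ C' ∧ AllEpsK C' m := by
  refine ⟨2 ^ m * C + 1, ?_, ?_⟩
  · have : 0 ≤ (2 : ℝ) ^ m * C := by positivity
    linarith
  intro ε h0 h1 a b c ha hb hc hcop
  have hcpos : 0 < c := by omega
  have h2 := h ε (1 / 2) h0 h1 (by norm_num) (by norm_num) a b c (-1) ha hb hcop (Or.inr rfl)
    (by omega) hcpos (by
      have : ((a : ℤ) - -1 * (b : ℤ)) = (c : ℤ) := by rw [← hc]; push_cast; ring
      rw [this])
  set R : ℝ := ((∏ p ∈ (a * b * c).primeFactors, p : ℕ) : ℝ) ^ ε with hR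
  have hR0 : 0 < R := by
    apply Real.rpow_pos_of_pos
    have : 0 < ∏ p ∈ (a * b * c).primeFactors, p :=
      Finset.prod_pos fun _ hp => (Nat.prime_of_mem_primeFactors hp).pos
    exact_mod_cast this
  have hmax : Real.log (max a b : ℕ) ≤ Real.log c := by
    apply Real.log_le_log
    · have : 0 < max a b := lt_of_lt_of_le ha (le_max_left _ _)
      exact_mod_cast this
    · have : max a b ≤ c := max_le (by omega) (by omega)
      exact_mod_cast this
  have h3 : Real.log c ≤ 2 * KK C m ε (ε * (1 / 2)) * R := by linarith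
  have hinv : 1 ≤ 1 / ε := by
    rw [le_div_iff₀ h0, one_mul]
    exact h1
  have hlog : 0 ≤ Real.log (1 / ε) := Real.log_nonneg hinv
  have hlog2 : Real.log (1 / (ε * (1 / 2))) = Real.log 2 + Real.log (1 / ε) := by
    rw [← Real.log_mul (by norm_num) (by positivity)]
    congr 1
    field_simp
  have hl2 : Real.log 2 ≤ 1 := by
    have := Real.log_two_lt_d9
    linarith
  have hl20 : 0 ≤ Real.log 2 := Real.log_nonneg (by norm_num)
  set X : ℝ := C / ε * (1 + Real.log (1 / (ε * (1 / 2)))) ^ m with hX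
  set Y : ℝ := (2 ^ m * C + 1) / ε * (1 + Real.log (1 / ε)) ^ m with hY
  have hX0 : 0 ≤ X := by
    rw [hX, hlog2]
    positivity
  have hXY : X + 1 ≤ Y := by
    have e1 : (1 + Real.log (1 / (ε * (1 / 2)))) ^ m ≤ (2 * (1 + Real.log (1 / ε))) ^ m := by
      apply pow_le_pow_left₀
      · rw [hlog2]; positivity
      · rw [hlog2]; linarith
    have e2 : X ≤ C / ε * (2 ^ m * (1 + Real.log (1 / ε)) ^ m) := by
      rw [hX]
      refine mul_le_mul_of_nonneg_left ?_ (by positivity)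
      rwa [mul_pow] at e1
    have e3 : 1 ≤ (1 + Real.log (1 / ε)) ^ m := one_le_pow₀ (by linarith)
    have e4 : 1 ≤ 1 / ε * (1 + Real.log (1 / ε)) ^ m := by nlinarith
    have e5 : Y = C / ε * (2 ^ m * (1 + Real.log (1 / ε)) ^ m) +
        1 / ε * (1 + Real.log (1 / ε)) ^ m := by
      rw [hY]
      ring
    rw [e5]
    linarith
  have hexp1 : 1 ≤ Real.exp X := Real.one_le_exp hX0
  have hKK : 2 * KK C m ε (ε * (1 / 2)) ≤ KK (2 ^ m * C + 1) m ε ε := by
    unfold KK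
    rw [← hX, ← hY]
    have e1 : (2 : ℝ) ≤ Real.exp 1 := by
      have := Real.add_one_le_exp (1 : ℝ)
      linarith
    calc 2 * Real.exp (Real.exp X) ≤ Real.exp 1 * Real.exp (Real.exp X) := by
          gcongr
      _ = Real.exp (1 + Real.exp X) := (Real.exp_add _ _).symm
      _ ≤ Real.exp (Real.exp Y) := by
          apply Real.exp_le_exp.2
          calc 1 + Real.exp X ≤ Real.exp 1 * Real.exp X := by nlinarith
            _ = Real.exp (X + 1) := by rw [← Real.exp_add, add_comm]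
            _ ≤ Real.exp Y := Real.exp_le_exp.2 hXY
  calc Real.log c ≤ 2 * KK C m ε (ε * (1 / 2)) * R := h3
    _ ≤ _ := mul_le_mul_of_nonneg_right hKK hR0.le

/-- the plain form -/
theorem plain_of (C : ℝ) (m : ℕ) (hC : 1 ≤ C) (h : AllEpsK C m) :
    ∀ ε : ℝ, 0 < ε → ∃ K : ℝ, 0 < K ∧ ∀ a b c : ℕ, 0 < a → 0 < b → a + b = c →
      Nat.Coprime a b →
      Real.log c < K * ((∏ p ∈ (a * b * c).primeFactors, p : ℕ) : ℝ) ^ ε := by
  intro ε hε
  have hm0 : 0 < min ε 1 := lt_min hε one_pos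
  refine ⟨KK C m (min ε 1) (min ε 1) + 1, by unfold KK; positivity, ?_⟩
  intro a b c ha hb hc hcop
  have h1 := h (min ε 1) hm0 (min_le_right _ _) a b c ha hb hc hcop
  set P : ℝ := ((∏ p ∈ (a * b * c).primeFactors, p : ℕ) : ℝ) with hP
  have hP1 : 1 ≤ P := by
    have : 0 < ∏ p ∈ (a * b * c).primeFactors, p :=
      Finset.prod_pos fun _ hp => (Nat.prime_of_mem_primeFactors hp).pos
    rw [hP]
    exact_mod_cast this
  have h2 : P ^ min ε 1 ≤ P ^ ε := Real.rpow_le_rpow_of_exponent_le hP1 (min_le_left _ _)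
  have h3 : 0 < P ^ ε := Real.rpow_pos_of_pos (by linarith) _
  have h4 : 0 < KK C m (min ε 1) (min ε 1) := by unfold KK; positivity
  calc Real.log c ≤ KK C m (min ε 1) (min ε 1) * P ^ min ε 1 := h1
    _ ≤ KK C m (min ε 1) (min ε 1) * P ^ ε := mul_le_mul_of_nonneg_left h2 h4.le
    _ < (KK C m (min ε 1) (min ε 1) + 1) * P ^ ε := by
        rw [add_mul, one_mul]
        linarith

/-- `K (log L) ^ m ≤ L` for all large `L` -/
theorem log_pow_le (K : ℝ) (m : ℕ) (hK : 0 < K) : ∃ L0 : ℝ, ∀ L : ℝ, L0 ≤ L →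
    K * Real.log L ^ m ≤ L := by
  have h := (Real.isLittleO_pow_log_id_atTop (n := m)).bound (inv_pos.2 hK)
  obtain ⟨L0, hL0⟩ := eventually_atTop.1 (h.and (eventually_ge_atTop (0 : ℝ)))
  refine ⟨L0, fun L hL => ?_⟩
  obtain ⟨h1, h2⟩ := hL0 L hL
  rw [id, Real.norm_eq_abs, Real.norm_eq_abs, abs_of_nonneg h2] at h1
  have h3 : Real.log L ^ m ≤ K⁻¹ * L := (le_abs_self _).trans h1
  calc K * Real.log L ^ m ≤ K * (K⁻¹ * L) := mul_le_mul_of_nonneg_left h3 hK.le
    _ = L := by rw [← mul_assoc, mul_inv_cancel₀ hK.ne', one_mul]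

/-- `log log r` is large if `r` is large -/
theorem loglog_large (L0 r : ℝ) (hr : Real.exp (Real.exp L0) ≤ r) :
    1 < r ∧ 0 < Real.log r ∧ L0 ≤ Real.log (Real.log r) := by
  have h1 : 1 < Real.exp (Real.exp L0) := Real.one_lt_exp_iff.2 (Real.exp_pos _)
  have h2 : 1 < r := lt_of_lt_of_le h1 hr
  have h3 : Real.exp L0 ≤ Real.log r := by
    rw [← Real.log_exp (Real.exp L0)]
    exact Real.log_le_log (Real.exp_pos _) hr
  have h4 : 0 < Real.log r := Real.log_pos h2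
  refine ⟨h2, h4, ?_⟩
  rw [← Real.log_exp L0]
  exact Real.log_le_log (Real.exp_pos _) h3

/-- the choice of `ε` -/
theorem asyK (C : ℝ) (m : ℕ) (hC : 1 ≤ C) : ∃ C' r0 : ℝ, 0 < C' ∧ ∀ r h : ℝ, r0 ≤ r →
    (∀ ε : ℝ, 0 < ε → ε ≤ 1 → h ≤ KK C m ε ε * r ^ ε) →
    h ≤ Real.exp (C' * Real.log r * Real.log (Real.log (Real.log r)) ^ m /
      Real.log (Real.log r)) := by
  have hC0 : 0 < C := by linarith
  set K0 : ℝ := 16 * 2 ^ m * C with hK0def
  have h2m : (1 : ℝ) ≤ 2 ^ m := one_le_pow₀ (by norm_num)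
  have hK0 : 16 ≤ K0 := by
    rw [hK0def]
    nlinarith
  have hK00 : 0 < K0 := by linarith
  obtain ⟨L1, hL1⟩ := log_pow_le K0 m hK00
  refine ⟨2 * K0, Real.exp (Real.exp (max L1 (Real.exp 1))), by linarith, ?_⟩
  intro r h hr H
  obtain ⟨hr1, hR, hL⟩ := loglog_large _ r hr
  set R : ℝ := Real.log r with hRdef
  set L : ℝ := Real.log R with hLdef
  have hLL1 : L1 ≤ L := (le_max_left _ _).trans hL
  have hLe : Real.exp 1 ≤ L := (le_max_right _ _).trans hL
  have hL0 : 0 < L := lt_of_lt_of_le (Real.exp_pos 1) hLe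
  set l : ℝ := Real.log L with hldef
  have hl1 : 1 ≤ l := by
    rw [hldef, ← Real.log_exp 1]
    exact Real.log_le_log (Real.exp_pos 1) hLe
  have hl0 : 0 < l := by linarith
  have hlm : 1 ≤ l ^ m := one_le_pow₀ hl1
  have hKl : 16 ≤ K0 * l ^ m := by nlinarith
  have hKL : K0 * l ^ m ≤ L := hL1 L hLL1
  have hε0 : 0 < K0 * l ^ m / L := by positivity
  have hε1 : K0 * l ^ m / L ≤ 1 := by
    rw [div_le_one hL0]
    exact hKL
  have key := H _ hε0 hε1
  set ε : ℝ := K0 * l ^ m / L with hεdef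
  have hinv : 1 / ε = L / (K0 * l ^ m) := by
    rw [hεdef, one_div_div]
  have hinv1 : 1 / ε ≤ L := by
    rw [hinv]
    exact div_le_self hL0.le (by linarith)
  have hinv2 : 1 ≤ 1 / ε := by
    rw [le_div_iff₀ hε0, one_mul]
    exact hε1
  have hlog0 : 0 ≤ Real.log (1 / ε) := Real.log_nonneg hinv2
  have hlog1 : Real.log (1 / ε) ≤ l := Real.log_le_log (by linarith) hinv1
  have hpow : (1 + Real.log (1 / ε)) ^ m ≤ (2 * l) ^ m :=
    pow_le_pow_left₀ (by linarith) (by linarith) m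
  have hexp : C / ε * (1 + Real.log (1 / ε)) ^ m ≤ L / 2 := by
    calc C / ε * (1 + Real.log (1 / ε)) ^ m ≤ C / ε * (2 * l) ^ m :=
          mul_le_mul_of_nonneg_left hpow (by positivity)
      _ = L / 16 := by
          rw [hεdef, hK0def, mul_pow]
          field_simp
      _ ≤ L / 2 := by linarith
  have hRL : R = Real.exp L := by rw [hLdef, Real.exp_log hR]
  have hmain : Real.exp (C / ε * (1 + Real.log (1 / ε)) ^ m) ≤ ε * R := by
    refine (Real.exp_le_exp.2 hexp).trans ?_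
    have h1 : 1 + L / 2 ≤ Real.exp (L / 2) := by linarith [Real.add_one_le_exp (L / 2)]
    have h2 : Real.exp L = Real.exp (L / 2) * Real.exp (L / 2) := by
      rw [← Real.exp_add]
      congr 1
      ring
    have h3 : L ≤ K0 * l ^ m * Real.exp (L / 2) := by
      calc L ≤ 16 * (1 + L / 2) := by linarith
        _ ≤ K0 * l ^ m * Real.exp (L / 2) := by
            apply mul_le_mul hKl h1 (by linarith) (by linarith)
    rw [hRL, h2, hεdef]
    have h5 : K0 * l ^ m / L * (Real.exp (L / 2) * Real.exp (L / 2)) =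
        (K0 * l ^ m * Real.exp (L / 2) / L) * Real.exp (L / 2) := by ring
    rw [h5]
    have h6 : 1 ≤ K0 * l ^ m * Real.exp (L / 2) / L := by
      rw [le_div_iff₀ hL0, one_mul]
      exact h3
    nlinarith [Real.exp_pos (L / 2)]
  have hrε : r ^ ε = Real.exp (ε * R) := by
    rw [Real.rpow_def_of_pos (by linarith), mul_comm]
  calc h ≤ KK C m ε ε * r ^ ε := key
    _ = Real.exp (Real.exp (C / ε * (1 + Real.log (1 / ε)) ^ m)) * r ^ ε := rfl
    _ ≤ Real.exp (ε * R) * Real.exp (ε * R) := by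
        rw [hrε]
        exact mul_le_mul_of_nonneg_right (Real.exp_le_exp.2 hmain) (Real.exp_pos _).le
    _ = Real.exp (2 * K0 * R * l ^ m / L) := by
        rw [← Real.exp_add]
        congr 1
        rw [hεdef]
        ring

end Pool.Agent.Lib.AbcZW
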