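import Pool.Agent.Lib.AbcZW.DefsW
import Pool.Agent.Lib.AbcZ.Count

/-!
# Numbers of weighted rows
-/

namespace Pool.Agent.Lib.AbcZW

open Finset Pool.Agent.Lib.AbcZ

theorem ixW_subset_prod {K : Type*} [Fintype K] [DecidableEq K] (N n : ℕ) (hN : 0 < N) :
    ixW K N n ⊆ (ix K n) ×ˢ range (n / N + 1) := by
  intro p hp
  rw [mem_ixW hN] at hp
  rw [mem_product, mem_ix, mem_range]
  refine ⟨by omega, ?_⟩
  have h1 : p.2 * N ≤ n := by
    have := Nat.mul_comm N p.2
    omega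
  have h2 : p.2 ≤ n / N := (Nat.le_div_iff_mul_le hN).2 h1
  omega

theorem card_ixW_le_mul {K : Type*} [Fintype K] [DecidableEq K] (N n : ℕ) (hN : 0 < N) :
    (ixW K N n).card ≤ (n / N + 1) * (ix K n).card := by
  calc (ixW K N n).card ≤ ((ix K n) ×ˢ range (n / N + 1)).card :=
        Finset.card_le_card (ixW_subset_prod N n hN)
    _ = (n / N + 1) * (ix K n).card := by
        rw [Finset.card_product, Finset.card_range, Nat.mul_comm]

theorem card_ix_le_ixW {K : Type*} [Fintype K] [DecidableEq K] (N n : ℕ) (hN : 0 < N) :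
    (ix K n).card ≤ (ixW K N n).card := by
  refine Finset.card_le_card_of_injOn (fun β => (β, 0)) ?_ ?_
  · intro β hβ
    have h := mem_ix.1 (Finset.mem_coe.1 hβ)
    refine Finset.mem_coe.2 ((mem_ixW hN).2 ?_)
    simpa using h
  · intro a _ b _ hab
    exact congrArg Prod.fst hab

theorem card_ix_le_pow {K : Type*} [Fintype K] [DecidableEq K] (n : ℕ) :
    (ix K n).card ≤ n ^ Fintype.card K := by
  calc (ix K n).card ≤ (Fintype.piFinset fun _ : K => range n).card :=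
        Finset.card_le_card (Finset.filter_subset _ _)
    _ = n ^ Fintype.card K := by
        rw [Fintype.card_piFinset]
        simp

/-- ratio of the numbers of weighted rows -/
theorem card_ratioW {K : Type*} [Fintype K] [DecidableEq K] (N N1 N2 : ℕ) (hN : 0 < N)
    (h2 : 0 < N2) (h : N2 ≤ N1) : ((ixW K N N1).card : ℝ) ≤
      ((N1 : ℝ) / N + 1) * ((N1 : ℝ) / N2) ^ Fintype.card K * (ixW K N N2).card := by
  have e1 : ((ixW K N N1).card : ℝ) ≤ ((N1 / N : ℕ) + 1 : ℝ) * (ix K N1).card := by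
    exact_mod_cast card_ixW_le_mul (K := K) N N1 hN
  have e2 : (((N1 / N : ℕ) : ℝ)) ≤ (N1 : ℝ) / N := Nat.cast_div_le
  have e3 := card_ratio (K := K) N1 N2 h2 h
  have e4 : ((ix K N2).card : ℝ) ≤ (ixW K N N2).card := by
    exact_mod_cast card_ix_le_ixW (K := K) N N2 hN
  have p1 : (0 : ℝ) ≤ (N1 : ℝ) / N := by positivity
  have p2 : (0 : ℝ) ≤ ((N1 : ℝ) / N2) ^ Fintype.card K := by positivity
  calc ((ixW K N N1).card : ℝ) ≤ ((N1 / N : ℕ) + 1 : ℝ) * (ix K N1).card := e1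
    _ ≤ ((N1 : ℝ) / N + 1) * (ix K N1).card :=
        mul_le_mul_of_nonneg_right (by linarith) (Nat.cast_nonneg _)
    _ ≤ ((N1 : ℝ) / N + 1) * (((N1 : ℝ) / N2) ^ Fintype.card K * (ix K N2).card) :=
        mul_le_mul_of_nonneg_left e3 (by linarith)
    _ ≤ ((N1 : ℝ) / N + 1) * (((N1 : ℝ) / N2) ^ Fintype.card K * (ixW K N N2).card) :=
        mul_le_mul_of_nonneg_left (mul_le_mul_of_nonneg_left e4 p2) (by linarith)
    _ = _ := by ring

theorem card_ixW_le {K : Type*} [Fintype K] [DecidableEq K] (N n : ℕ) (hN : 0 < N) :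
    (ixW K N n).card ≤ (n / N + 1) * n ^ Fintype.card K :=
  (card_ixW_le_mul N n hN).trans (Nat.mul_le_mul_left _ (card_ix_le_pow n))

theorem binW_le {K : Type*} [Fintype K] (A : K → ℕ) (l Lam : ℕ) (p : (K → ℕ) × ℕ)
    (hA : tdeg A ≤ Lam) (hl : l ≤ Lam) : binW A l p ≤ 2 ^ (2 * Lam) := by
  unfold binW
  have h1 : bin A p.1 ≤ 2 ^ Lam :=
    (bin_le A p.1).trans (Nat.pow_le_pow_right (by norm_num) hA)
  have h2 : l.choose p.2 ≤ 2 ^ Lam :=
    (Nat.choose_le_two_pow _ _).trans (Nat.pow_le_pow_right (by norm_num) hl)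
  calc bin A p.1 * l.choose p.2 ≤ 2 ^ Lam * 2 ^ Lam := Nat.mul_le_mul h1 h2
    _ = 2 ^ (2 * Lam) := by rw [← pow_add, two_mul]

end Pool.Agent.Lib.AbcZW
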