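import Mathlib
import Pool.Agent.Lib.AbcZ.Defs

/-!
# Theorem W: definitions

The level `l` of a point is a further variable of weight `N`: the rows of the determinant are the
functions `bin A β * l.choose i` with `tdeg β + N * i < n`.
-/

namespace Pool.Agent.Lib.AbcZW

open Finset Pool.Agent.Lib.AbcZ

/-- `(a, b, c)` is an abc-triple. -/
def AbcTriple (a b c : ℕ) : Prop := 0 < a ∧ 0 < b ∧ a + b = c ∧ Nat.Coprime a b

/-- the radical -/
def rad (n : ℕ) : ℕ := ∏ p ∈ n.primeFactors, p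

/-- the weighted multi-indices `(β, i)`, `tdeg β + N * i < n` -/
def ixW (K : Type*) [Fintype K] [DecidableEq K] (N n : ℕ) : Finset ((K → ℕ) × ℕ) :=
  ((ix K n) ×ˢ range n).filter fun p => tdeg p.1 + N * p.2 < n

theorem mem_ixW {K : Type*} [Fintype K] [DecidableEq K] {N n : ℕ} (hN : 0 < N)
    {p : (K → ℕ) × ℕ} : p ∈ ixW K N n ↔ tdeg p.1 + N * p.2 < n := by
  unfold ixW
  rw [mem_filter, mem_product, mem_ix, mem_range]
  constructor
  · exact fun h => h.2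
  · intro h
    have h1 : p.2 ≤ N * p.2 := Nat.le_mul_of_pos_left _ hN
    exact ⟨⟨by omega, by omega⟩, h⟩

/-- the row function -/
def binW {K : Type*} [Fintype K] (A : K → ℕ) (l : ℕ) (p : (K → ℕ) × ℕ) : ℕ :=
  bin A p.1 * l.choose p.2

/-- functions of multisets of letters and an integer, of degree less than `m` -/
def DegZ {J R : Type*} [AddCommGroup R] : ℕ → (Multiset J → ℤ → R) → Prop
  | 0, f => ∀ B l, f B l = 0
  | m + 1, f => (∀ a b : J, DegZ m (fun B l => f (a ::ₘ B) l - f (b ::ₘ B) l)) ∧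
      DegZ m (fun B l => f B (l + 1) - f B l)

/-- a chain of letters whose phases go once around the circle `ℤ / N` in steps of length at
most `h` -/
structure Cyc {J : Type*} (N h : ℕ) (φ : J → ℕ) where
  /-- the number of steps -/
  q : ℕ
  /-- the letters -/
  a : ℕ → J
  /-- the steps -/
  inc : ℕ → ℕ
  /-- the change of the level -/
  w : ℕ → ℤ
  step : ∀ j, j < q → (φ (a (j + 1)) : ℤ) = φ (a j) + inc j + N * w j
  small : ∀ j, j < q → inc j ≤ h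
  close : a q = a 0
  total : ∑ j ∈ range q, inc j = N

/-- **Theorem W**, the statement: any modulus `E`. -/
def ThmW (C0 : ℕ) : Prop := ∀ (A ν T : ℝ) (Q E u Z1 Z2 : ℕ) (s : ℤ), 1 ≤ A → 0 < ν → ν ≤ 1 / 2 →
  2 ≤ E → 0 < Z1 → 0 < Z2 → Nat.Coprime Z1 Z2 → (s = 1 ∨ s = -1) → (Z1 : ℤ) ≠ s * Z2 →
  ((E ^ u : ℕ) : ℤ) ∣ (Z1 : ℤ) - s * Z2 → Real.log Z1 ≤ A * (u * Real.log E) →
  Real.log Z2 ≤ A * (u * Real.log E) → ∏ q ∈ (Z1 * Z2).primeFactors, (q : ℝ) ≤ T →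
  (E : ℝ) ≤ T → 200 * Real.log T ≤ Q * (ν * Real.log E) →
  C0 * A / ν * (1 + Real.log (A / ν)) ≤ Real.log (Real.log E) →
  (u : ℝ) ≤ ((C0 * A / ν) ^ C0 * (Q : ℝ) ^ ((Z1 * Z2).primeFactors.card + 1) * (E : ℝ) ^ ν) ^ 2

/-- The bound for all exponents, explicit. -/
def AllEpsW (C : ℝ) : Prop := ∀ ε : ℝ, 0 < ε → ε ≤ 1 → ∀ a b c : ℕ, AbcTriple a b c →
  Real.log c ≤ Real.exp (Real.exp (C / ε * (1 + Real.log (1 / ε)))) *
    (rad (a * b * c) : ℝ) ^ ε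

/-- The bound for all divisors of `Z1 - s Z2`, explicit. -/
def RidoutW (C : ℝ) : Prop := ∀ ε d : ℝ, 0 < ε → ε ≤ 1 → 0 < d → d ≤ 1 →
  ∀ (Z1 Z2 D : ℕ) (s : ℤ), 0 < Z1 → 0 < Z2 → Nat.Coprime Z1 Z2 → (s = 1 ∨ s = -1) →
    (Z1 : ℤ) ≠ s * Z2 → 0 < D → (D : ℤ) ∣ (Z1 : ℤ) - s * Z2 →
    Real.log D ≤ d * Real.log (max Z1 Z2 : ℕ) +
      Real.exp (Real.exp (C / (ε * d) * (1 + Real.log (1 / (ε * d))))) *
        (rad (Z1 * Z2 * D) : ℝ) ^ ε

end Pool.Agent.Lib.AbcZW
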