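import Mathlib
import Pool.Agent.Lib.AbcE.Pigeon
import Pool.Agent.Lib.AbcZ.Omq
import Pool.Agent.Lib.AbcZ.Expand

/-!
# Composite modulus: pigeonhole, `ω ≠ 1`, expansion

The steps of `AbcZ/Pigeon.lean`, `AbcZ/Omega.lean`, `AbcZ/Expand.lean` for a modulus `D ≥ 2` which
is only coprime to the primes `l i`.
-/

set_option autoImplicit false

namespace Pool.Agent.Lib.AbcZW

open Finset Pool.Agent.AbcE Pool.Agent.Lib.AbcZ

section Pigeon

variable {ι : Type*} [Fintype ι]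

/-- **Pigeonhole**: a large class, modulus `D ≥ 2`. -/
theorem pigeonD (p : ι → ℕ) (q : ℕ) (hq : 1 < q) (hcop : ∀ i, (p i).Coprime q)
    (e : ι → ℤ) (N Q H G R : ℕ) (hN : 0 < N) (hQ : 0 < Q) (hHq : H < q)
    (hG : Q ^ Fintype.card ι * q * R < (G + 1) * H) :
    ∃ (Γ : Finset ℕ) (b : ℕ → ℕ), R < Γ.card ∧ (∀ γ ∈ Γ, γ ≤ G) ∧
      (∀ γ ∈ Γ, 1 ≤ b γ ∧ b γ ≤ H) ∧
      (∀ γ ∈ Γ, ∀ γ' ∈ Γ, ∀ i,
        |((γ' : ℤ) * e i) % N - ((γ : ℤ) * e i) % N| * Q < N) ∧
      (∀ γ ∈ Γ, ∀ γ' ∈ Γ, (q : ℤ) ∣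
        (b γ' : ℤ) * posP p (fun i => (γ' : ℤ) * e i / N - (γ : ℤ) * e i / N) -
          b γ * negP p (fun i => (γ' : ℤ) * e i / N - (γ : ℤ) * e i / N)) := by
  classical
  have : NeZero q := ⟨by omega⟩
  let u : ι → (ZMod q)ˣ := fun i => ZMod.unitOfCoprime (p i) (hcop i)
  have hWz : (0 : ℤ) < N := by exact_mod_cast hN
  have hQz : (0 : ℤ) < Q := by exact_mod_cast hQ
  have hbox : ∀ (g : ℕ) (i : ι), ((Q : ℤ) * (((g : ℤ) * e i) % N) / N).toNat < Q := by
    intro g i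
    have h1 : 0 ≤ ((g : ℤ) * e i) % N := Int.emod_nonneg _ hWz.ne'
    have h2 : ((g : ℤ) * e i) % N < N := Int.emod_lt_of_pos _ hWz
    have h3 : (Q : ℤ) * (((g : ℤ) * e i) % N) / N < Q := by
      apply Int.ediv_lt_of_lt_mul hWz
      exact mul_lt_mul_of_pos_left h2 hQz
    have h4 : 0 ≤ (Q : ℤ) * (((g : ℤ) * e i) % N) / N :=
      Int.ediv_nonneg (by positivity) hWz.le
    omega
  let F : Fin (G + 1) × Fin H → ZMod q × (ι → Fin Q) := fun x =>
    ((((x.2 : ℕ) + 1 : ℕ) : ZMod q) *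
      ((∏ i, u i ^ (((x.1 : ℕ) : ℤ) * e i / N) : (ZMod q)ˣ) : ZMod q),
      fun i => ⟨((Q : ℤ) * ((((x.1 : ℕ) : ℤ) * e i) % N) / N).toNat, hbox _ i⟩)
  have hcard : Fintype.card (ZMod q × (ι → Fin Q)) * R <
      Fintype.card (Fin (G + 1) × Fin H) := by
    rw [Fintype.card_prod, Fintype.card_fun, Fintype.card_prod, Fintype.card_fin, Fintype.card_fin,
      Fintype.card_fin, ZMod.card, mul_comm q (Q ^ Fintype.card ι)]
    exact hG
  obtain ⟨y, hy⟩ := Fintype.exists_lt_card_fiber_of_mul_lt_card F hcard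
  set T : Finset (Fin (G + 1) × Fin H) := univ.filter fun x => F x = y with hT
  have hTmem : ∀ x, x ∈ T ↔ F x = y := by
    intro x
    rw [hT, mem_filter]
    exact ⟨fun h => h.2, fun h => ⟨mem_univ _, h⟩⟩
  -- injectivity of the first coordinate
  have hinj : ∀ x ∈ T, ∀ x' ∈ T, (x.1 : ℕ) = (x'.1 : ℕ) → x = x' := by
    intro x hx x' hx' h
    have h0 : x.1 = x'.1 := Fin.ext h
    have hF : F x = F x' := ((hTmem x).1 hx).trans ((hTmem x').1 hx').symm
    have hF1 := congrArg Prod.fst hF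
    have h1 : (((x.2 : ℕ) + 1 : ℕ) : ZMod q) *
        ((∏ i, u i ^ (((x.1 : ℕ) : ℤ) * e i / N) : (ZMod q)ˣ) : ZMod q) =
        (((x'.2 : ℕ) + 1 : ℕ) : ZMod q) *
        ((∏ i, u i ^ (((x'.1 : ℕ) : ℤ) * e i / N) : (ZMod q)ˣ) : ZMod q) := hF1
    rw [h0] at h1
    have h3 := (Units.isUnit _).mul_right_cancel h1
    rw [ZMod.natCast_eq_natCast_iff', Nat.mod_eq_of_lt, Nat.mod_eq_of_lt] at h3
    · refine Prod.ext h0 (Fin.ext ?_)
      omega
    · have := x'.2.2
      omega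
    · have := x.2.2
      omega
  set Γ : Finset ℕ := T.image fun x => (x.1 : ℕ) with hΓ
  have hcardΓ : Γ.card = T.card := by
    rw [hΓ]
    refine card_image_of_injOn ?_
    intro x hx x' hx' h
    exact hinj x hx x' hx' h
  have hex : ∀ γ : ℕ, ∃ b : ℕ, γ ∈ Γ → ∃ x ∈ T, (x.1 : ℕ) = γ ∧ (x.2 : ℕ) + 1 = b := by
    intro γ
    by_cases hγ : γ ∈ Γ
    · rw [hΓ, mem_image] at hγ
      obtain ⟨x, hx, hx1⟩ := hγ
      exact ⟨(x.2 : ℕ) + 1, fun _ => ⟨x, hx, hx1, rfl⟩⟩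
    · exact ⟨0, fun h => absurd h hγ⟩
  choose b hb using hex
  refine ⟨Γ, b, ?_, ?_, ?_, ?_, ?_⟩
  · rw [hcardΓ]
    exact hy
  · intro γ hγ
    obtain ⟨x, _, hx1, _⟩ := hb γ hγ
    have := x.1.2
    omega
  · intro γ hγ
    obtain ⟨x, _, _, hx2⟩ := hb γ hγ
    have := x.2.2
    omega
  · intro γ hγ γ' hγ' i
    obtain ⟨x, hx, hx1, _⟩ := hb γ hγ
    obtain ⟨x', hx', hx1', _⟩ := hb γ' hγ'
    have hF : F x = F x' := ((hTmem x).1 hx).trans ((hTmem x').1 hx').symm
    have hF2 := congrArg Prod.snd hF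
    have h1 : ((Q : ℤ) * ((((x.1 : ℕ) : ℤ) * e i) % N) / N).toNat
        = ((Q : ℤ) * ((((x'.1 : ℕ) : ℤ) * e i) % N) / N).toNat :=
      congrArg Fin.val (congrFun hF2 i)
    rw [hx1, hx1'] at h1
    have hn1 : 0 ≤ (((γ : ℕ) : ℤ) * e i) % N := Int.emod_nonneg _ hWz.ne'
    have hn2 : 0 ≤ (((γ' : ℕ) : ℤ) * e i) % N := Int.emod_nonneg _ hWz.ne'
    have hd1 : 0 ≤ (Q : ℤ) * ((((γ : ℕ) : ℤ) * e i) % N) / N :=
      Int.ediv_nonneg (by positivity) hWz.le
    have hd2 : 0 ≤ (Q : ℤ) * ((((γ' : ℕ) : ℤ) * e i) % N) / N :=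
      Int.ediv_nonneg (by positivity) hWz.le
    have h2 : (Q : ℤ) * ((((γ : ℕ) : ℤ) * e i) % N) / N
        = (Q : ℤ) * ((((γ' : ℕ) : ℤ) * e i) % N) / N := by omega
    set m1 := (((γ : ℕ) : ℤ) * e i) % N
    set m2 := (((γ' : ℕ) : ℤ) * e i) % N
    have e3 := Int.emod_add_mul_ediv ((Q : ℤ) * m1) N
    have e4 := Int.emod_add_mul_ediv ((Q : ℤ) * m2) N
    have e5 : 0 ≤ ((Q : ℤ) * m1) % N := Int.emod_nonneg _ hWz.ne'
    have e6 : ((Q : ℤ) * m1) % N < N := Int.emod_lt_of_pos _ hWz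
    have e7 : 0 ≤ ((Q : ℤ) * m2) % N := Int.emod_nonneg _ hWz.ne'
    have e8 : ((Q : ℤ) * m2) % N < N := Int.emod_lt_of_pos _ hWz
    rw [h2] at e3
    have e9 : |m2 - m1| * (Q : ℤ) = |(m2 - m1) * (Q : ℤ)| := by
      rw [abs_mul, abs_of_nonneg hQz.le]
    rw [e9, abs_lt]
    have e10 : (m2 - m1) * (Q : ℤ) = ((Q : ℤ) * m2) % N - ((Q : ℤ) * m1) % N := by
      linear_combination e3 - e4
    rw [e10]
    constructor <;> omega
  · intro γ hγ γ' hγ'
    obtain ⟨x, hx, hx1, hx2⟩ := hb γ hγ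
    obtain ⟨x', hx', hx1', hx2'⟩ := hb γ' hγ'
    have hF : F x = F x' := ((hTmem x).1 hx).trans ((hTmem x').1 hx').symm
    have hF1 := congrArg Prod.fst hF
    have h2 : (((x.2 : ℕ) + 1 : ℕ) : ZMod q) *
        ((∏ i, u i ^ (((x.1 : ℕ) : ℤ) * e i / N) : (ZMod q)ˣ) : ZMod q) =
        (((x'.2 : ℕ) + 1 : ℕ) : ZMod q) *
        ((∏ i, u i ^ (((x'.1 : ℕ) : ℤ) * e i / N) : (ZMod q)ˣ) : ZMod q) := hF1
    rw [hx1, hx1', hx2, hx2'] at h2
    set f : ι → ℤ := fun i => (γ' : ℤ) * e i / N - (γ : ℤ) * e i / N with hf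
    set U1 : (ZMod q)ˣ := ∏ i, u i ^ ((γ : ℤ) * e i / N) with hU1
    set U2 : (ZMod q)ˣ := ∏ i, u i ^ ((γ' : ℤ) * e i / N) with hU2
    have h4 : U2 * (∏ i, u i ^ (-f i).toNat) = U1 * ∏ i, u i ^ (f i).toNat := by
      rw [hU1, hU2, ← Finset.prod_mul_distrib, ← Finset.prod_mul_distrib]
      refine Finset.prod_congr rfl ?_
      intro i _
      rw [← zpow_natCast, ← zpow_natCast, ← zpow_add, ← zpow_add]
      congr 1
      have : f i = (γ' : ℤ) * e i / N - (γ : ℤ) * e i / N := rfl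
      omega
    have h5 := congrArg (fun v : (ZMod q)ˣ => (v : ZMod q)) h4
    simp only [Units.val_mul] at h5
    have hpos : ((∏ i, u i ^ (f i).toNat : (ZMod q)ˣ) : ZMod q) = (posP p f : ZMod q) := by
      unfold posP
      push_cast
      rfl
    have hneg : ((∏ i, u i ^ (-f i).toNat : (ZMod q)ˣ) : ZMod q) = (negP p f : ZMod q) := by
      unfold negP
      push_cast
      rfl
    rw [hpos, hneg] at h5
    rw [← ZMod.intCast_zmod_eq_zero_iff_dvd]
    push_cast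
    rw [sub_eq_zero]
    -- b' * pos * U1 = b' * neg * U2 = neg * b * U1
    apply (Units.isUnit U1).mul_right_cancel
    linear_combination (-(b γ' : ZMod q)) * h5 - (negP p f : ZMod q) * h2
end Pigeon

section Omega

namespace ModD

variable {ι : Type*} [Fintype ι]

theorem log_prod_pow (p : ι → ℕ) (hp : ∀ i, 0 < p i) (v : ι → ℕ) :
    Real.log ((∏ i, p i ^ v i : ℕ) : ℝ) = ∑ i, (v i : ℝ) * Real.log (p i) := by
  rw [Nat.cast_prod, Real.log_prod]
  · refine Finset.sum_congr rfl fun i _ => ?_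
    rw [Nat.cast_pow, Real.log_pow]
  · intro i _
    have := hp i
    positivity

theorem log_posP (p : ι → ℕ) (hp : ∀ i, 0 < p i) (f : ι → ℤ) :
    Real.log (posP p f) = ∑ i, ((f i).toNat : ℝ) * Real.log (p i) := by
  unfold posP
  exact log_prod_pow p hp _

theorem log_negP (p : ι → ℕ) (hp : ∀ i, 0 < p i) (f : ι → ℤ) :
    Real.log (negP p f) = ∑ i, ((-f i).toNat : ℝ) * Real.log (p i) := by
  unfold negP
  exact log_prod_pow p hp _

/-- comparison of the positive parts -/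
theorem toNat_cmp (x y : ℤ) (α β c : ℝ) (hα : 0 ≤ α) (hβ : 0 ≤ β) (hc : 0 ≤ c)
    (h : α * x ≤ β * y + c) : α * (x.toNat : ℝ) ≤ β * (y.toNat : ℝ) + c := by
  have h1 : ((x.toNat : ℕ) : ℝ) = max (x : ℝ) 0 := by
    have : ((x.toNat : ℕ) : ℤ) = max x 0 := by omega
    exact_mod_cast this
  have h2 : (y : ℝ) ≤ ((y.toNat : ℕ) : ℝ) := by
    have : y ≤ ((y.toNat : ℕ) : ℤ) := Int.self_le_toNat y
    exact_mod_cast this
  have h3 : (0 : ℝ) ≤ ((y.toNat : ℕ) : ℝ) := Nat.cast_nonneg _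
  rw [h1]
  rcases le_total (x : ℝ) 0 with h4 | h4
  · rw [max_eq_right h4, mul_zero]
    positivity
  · rw [max_eq_left h4]
    refine h.trans ?_
    gcongr

theorem sum_cmp (p : ι → ℕ) (hp : ∀ i, 0 < p i) (v w : ι → ℕ) (α β c : ℝ)
    (h : ∀ i, α * (v i : ℝ) ≤ β * (w i : ℝ) + c) :
    α * ∑ i, (v i : ℝ) * Real.log (p i) ≤
      β * ∑ i, (w i : ℝ) * Real.log (p i) + c * ∑ i, Real.log (p i) := by
  rw [Finset.mul_sum, Finset.mul_sum, Finset.mul_sum, ← Finset.sum_add_distrib]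
  refine Finset.sum_le_sum fun i _ => ?_
  have h1 : 0 ≤ Real.log (p i) := Real.log_natCast_nonneg _
  have h2 := mul_le_mul_of_nonneg_right (h i) h1
  linarith

theorem posP_coprime_negP {p : ι → ℕ} (hp : ∀ i, (p i).Prime) (hinj : Function.Injective p)
    (f : ι → ℤ) : Nat.Coprime (posP p f) (negP p f) := by
  unfold posP negP
  refine Nat.Coprime.prod_left fun i _ => Nat.Coprime.prod_right fun j _ => ?_
  by_cases hij : i = j
  · subst hij
    rcases le_total 0 (f i) with h | h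
    · have : (-f i).toNat = 0 := by omega
      rw [this, pow_zero]
      exact Nat.coprime_one_right _
    · have : (f i).toNat = 0 := by omega
      rw [this, pow_zero]
      exact Nat.coprime_one_left _
  · refine Nat.Coprime.pow _ _ ?_
    rw [Nat.coprime_primes (hp i) (hp j)]
    exact fun h => hij (hinj h)

end ModD

open ModD

variable {ι : Type*} [Fintype ι]

/-- **ω ≠ 1** -/
theorem omega_neD (p : ι → ℕ) (hp : ∀ i, (p i).Prime) (hinj : Function.Injective p)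
    (e : ι → ℤ) (q N : ℕ) (hq : 1 < q) (s : ℤ) (hs : s = 1 ∨ s = -1)
    (hne : (posP p e : ℤ) ≠ s * negP p e)
    (hdvd : ((q ^ N : ℕ) : ℤ) ∣ (posP p e : ℤ) - s * negP p e)
    (γ0 γ1 Q : ℕ) (hQ : 0 < Q) (hγ : γ0 + 3 ≤ γ1)
    (hbox : ∀ i, |((γ1 : ℤ) * e i) % N - ((γ0 : ℤ) * e i) % N| * Q < N)
    (b0 b1 H : ℕ) (hb0 : 1 ≤ b0) (hb1 : 1 ≤ b1) (hb0H : b0 ≤ H) (hb1H : b1 ≤ H)
    (hH : Real.log H ≤ Real.log q)
    (hLQ : ∑ i, Real.log (p i) ≤ Q * (1 / 8 * Real.log q)) (hN : 5 ≤ N) :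
    b1 * posP p (fun i => (γ1 : ℤ) * e i / N - (γ0 : ℤ) * e i / N) ≠
      b0 * negP p (fun i => (γ1 : ℤ) * e i / N - (γ0 : ℤ) * e i / N) := by
  set f : ι → ℤ := fun i => (γ1 : ℤ) * e i / N - (γ0 : ℤ) * e i / N with hfdef
  have hpos : ∀ i, 0 < p i := fun i => (hp i).pos
  set lam : ℝ := Real.log q with hlamdef
  have hlam0 : 0 < lam := Real.log_pos (by exact_mod_cast hq)
  have hN0 : 0 < N := by omega
  obtain ⟨γ, hγdef⟩ : ∃ γ : ℕ, γ1 = γ0 + γ := ⟨γ1 - γ0, by omega⟩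
  have hγ4 : 3 ≤ γ := by omega
  have hγR : (0 : ℝ) < γ := by
    have : 0 < γ := by omega
    exact_mod_cast this
  have hNR : (0 : ℝ) < N := by exact_mod_cast hN0
  have hQR : (0 : ℝ) < Q := by exact_mod_cast hQ
  have hf : ∀ i, |(γ : ℤ) * e i - N * f i| * Q < N := by
    intro i
    have e1 := Int.emod_add_mul_ediv ((γ1 : ℤ) * e i) N
    have e2 := Int.emod_add_mul_ediv ((γ0 : ℤ) * e i) N
    have e3 : (γ : ℤ) * e i - N * f i = ((γ1 : ℤ) * e i) % N - ((γ0 : ℤ) * e i) % N := by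
      have e4 : (γ1 : ℤ) = γ0 + γ := by exact_mod_cast hγdef
      have e5 : f i = (γ1 : ℤ) * e i / N - (γ0 : ℤ) * e i / N := rfl
      rw [e5]
      linear_combination e2 - e1 - e i * e4
    rw [e3]
    exact hbox i
  set L : ℝ := ∑ i, Real.log (p i) with hL
  have hL0 : 0 ≤ L := Finset.sum_nonneg fun i _ => Real.log_natCast_nonneg _
  set La : ℝ := 1 / 8 * lam with hLa
  have hLa0 : 0 ≤ La := by positivity
  have hkey1 : ∀ i, (γ : ℝ) * e i ≤ N * f i + N / Q := by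
    intro i
    have h1 : |(γ : ℝ) * e i - N * f i| * Q < N := by exact_mod_cast hf i
    have h2 : |(γ : ℝ) * e i - N * f i| < N / Q := by rwa [lt_div_iff₀ hQR]
    have h3 := (abs_lt.1 h2).2
    linarith
  have hkey2 : ∀ i, (N : ℝ) * f i ≤ γ * e i + N / Q := by
    intro i
    have h1 : |(γ : ℝ) * e i - N * f i| * Q < N := by exact_mod_cast hf i
    have h2 : |(γ : ℝ) * e i - N * f i| < N / Q := by rwa [lt_div_iff₀ hQR]
    have h3 := (abs_lt.1 h2).1
    linarith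
  have hNQ0 : (0 : ℝ) ≤ N / Q := by positivity
  have hNQL : (N : ℝ) / Q * L ≤ N * La := by
    rw [div_mul_eq_mul_div, div_le_iff₀ hQR]
    have : (N : ℝ) * L ≤ N * (Q * La) := mul_le_mul_of_nonneg_left hLQ hNR.le
    linarith
  have hlow1 : (γ : ℝ) * Real.log (posP p e) ≤ N * Real.log (posP p f) + N * La := by
    rw [log_posP p hpos f, log_posP p hpos e]
    have h1 := sum_cmp p hpos (fun i => (e i).toNat) (fun i => (f i).toNat) γ N (N / Q)
      (fun i => toNat_cmp _ _ _ _ _ hγR.le hNR.le hNQ0 (hkey1 i))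
    linarith
  have hlow2 : (γ : ℝ) * Real.log (negP p e) ≤ N * Real.log (negP p f) + N * La := by
    rw [log_negP p hpos f, log_negP p hpos e]
    have h1 := sum_cmp p hpos (fun i => (-e i).toNat) (fun i => (-f i).toNat) γ N (N / Q)
      (fun i => toNat_cmp _ _ _ _ _ hγR.le hNR.le hNQ0 (by
        push_cast
        have := hkey2 i
        linarith))
    linarith
  -- the modulus
  set M : ℕ := q ^ N with hM
  have hMpos : 0 < M := pow_pos (by omega) _
  have hMR : (0 : ℝ) < M := by exact_mod_cast hMpos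
  have hlogM : Real.log M = N * lam := by
    rw [hM]
    push_cast
    rw [Real.log_pow]
  have hq1 : (0.69 : ℝ) ≤ lam := by
    have h1 : Real.log 2 ≤ Real.log (q : ℝ) :=
      Real.log_le_log (by norm_num) (by exact_mod_cast hq)
    have := Real.log_two_gt_d9
    linarith
  have hzlow : (N : ℝ) * lam - 0.7 ≤ Real.log (posP p e) + Real.log (negP p e) := by
    have hpp : 0 < posP p e := posP_pos hpos e
    have hnp : 0 < negP p e := negP_pos hpos e
    have h1 : (posP p e : ℤ) - s * negP p e ≠ 0 := sub_ne_zero.2 hne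
    have h2 : M ≤ ((posP p e : ℤ) - s * negP p e).natAbs := by
      refine Nat.le_of_dvd (Int.natAbs_pos.2 h1) ?_
      have h20 := Int.natAbs_dvd_natAbs.2 hdvd
      rw [Int.natAbs_natCast] at h20
      exact h20
    have h3 : ((posP p e : ℤ) - s * negP p e).natAbs ≤ posP p e + negP p e := by
      rcases hs with h | h <;> rw [h] <;> omega
    have h4 : posP p e + negP p e ≤ 2 * (posP p e * negP p e) := by
      nlinarith only [hpp, hnp]
    have h5 : M ≤ 2 * (posP p e * negP p e) := h2.trans (h3.trans h4)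
    have h6 : (M : ℝ) ≤ 2 * (posP p e * negP p e) := by exact_mod_cast h5
    have h7 := Real.log_le_log hMR h6
    have hppR : (0 : ℝ) < posP p e := by exact_mod_cast hpp
    have hnpR : (0 : ℝ) < negP p e := by exact_mod_cast hnp
    rw [Real.log_mul (by norm_num) (by positivity), Real.log_mul hppR.ne' hnpR.ne', hlogM] at h7
    have := Real.log_two_lt_d9
    linarith
  set Bp := posP p f with hBpdef
  set Bn := negP p f with hBndef
  have hBppos : 0 < Bp := posP_pos hpos f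
  have hBnpos : 0 < Bn := negP_pos hpos f
  have hlogb1 : Real.log b1 ≤ lam :=
    (Real.log_le_log (by exact_mod_cast hb1) (by exact_mod_cast hb1H)).trans hH
  have hlogb0 : Real.log b0 ≤ lam :=
    (Real.log_le_log (by exact_mod_cast hb0) (by exact_mod_cast hb0H)).trans hH
  intro heq
  have hc := posP_coprime_negP hp hinj f
  have h1 : Bp ∣ b0 := by
    have : Bp ∣ b0 * Bn := by
      rw [← heq]
      exact Dvd.intro_left _ rfl
    exact Nat.Coprime.dvd_of_dvd_mul_right hc this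
  have h2 : Bn ∣ b1 := by
    have : Bn ∣ b1 * Bp := by
      rw [heq]
      exact Dvd.intro_left _ rfl
    exact Nat.Coprime.dvd_of_dvd_mul_right hc.symm this
  have h3 : Real.log Bp ≤ lam := by
    refine (Real.log_le_log (by exact_mod_cast hBppos) ?_).trans hlogb0
    exact_mod_cast Nat.le_of_dvd hb0 h1
  have h4 : Real.log Bn ≤ lam := by
    refine (Real.log_le_log (by exact_mod_cast hBnpos) ?_).trans hlogb1
    exact_mod_cast Nat.le_of_dvd hb1 h2
  have h5 : (γ : ℝ) * (N * lam - 0.7) ≤ N * (2 * lam + 2 * La) := by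
    have e1 := mul_le_mul_of_nonneg_left hzlow hγR.le
    have e2 := mul_le_mul_of_nonneg_left h3 hNR.le
    have e3 := mul_le_mul_of_nonneg_left h4 hNR.le
    linarith
  have h6 : (3 : ℝ) ≤ γ := by exact_mod_cast hγ4
  have hNlam : (5 : ℝ) * 0.69 ≤ N * lam := by
    have e1 : (5 : ℝ) ≤ N := by exact_mod_cast hN
    exact mul_le_mul e1 hq1 (by norm_num) hNR.le
  have h7 : 3 * (N * lam - 0.7) ≤ (γ : ℝ) * (N * lam - 0.7) :=
    mul_le_mul_of_nonneg_right h6 (by linarith)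
  have h8 : (N : ℝ) * (2 * lam + 2 * La) = 2.25 * (N * lam) := by
    rw [hLa]
    ring
  linarith

/-- **ω ≠ 1**, in terms of the quotient -/
theorem om_ne_oneD {ι : Type*} [Fintype ι] (l : ι → ℕ) (hl : ∀ i, (l i).Prime)
    (hinj : Function.Injective l) (p : ℕ) (hp : 1 < p) (e : ι → ℤ) (N Q H : ℕ) (hN : 5 ≤ N)
    (hQ : 0 < Q) (s : ℤ) (hs : s = 1 ∨ s = -1) (hne : (posP l e : ℤ) ≠ s * negP l e)
    (hdvd : ((p ^ N : ℕ) : ℤ) ∣ (posP l e : ℤ) - s * negP l e) (g1 g0 b1 b0 : ℕ)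
    (hg : g0 + 3 ≤ g1) (hb1 : 1 ≤ b1) (hb1H : b1 ≤ H) (hb0 : 1 ≤ b0) (hb0H : b0 ≤ H)
    (hH : Real.log H ≤ Real.log p) (hLQ : ∑ i, Real.log (l i) ≤ Q * (1 / 8 * Real.log p))
    (hbox : ∀ i, |((g1 : ℤ) * e i) % N - ((g0 : ℤ) * e i) % N| * Q < N) :
    omq l e N g1 g0 b1 b0 ≠ 1 := by
  intro h
  have h1 := omq_mul l (fun i => (hl i).pos) e N g1 g0 b1 b0 hb0
  rw [h, one_mul] at h1
  have h2 := omega_neD l hl hinj e p N hp s hs hne hdvd g0 g1 Q hQ hg hbox b0 b1 H hb0 hb1 hb0H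
    hb1H hH hLQ hN
  apply h2
  exact_mod_cast h1.symm


end Omega

section Expand

variable {K : Type*} [Fintype K] [DecidableEq K]

/-- multinomial expansion, homogeneous -/
theorem prod_add_pow_hom {R : Type*} [CommRing R] (z : R) (s : K → R) (n : ℕ)
    (hs : ∀ β : K → ℕ, n ≤ tdeg β → ∏ x, s x ^ β x = 0) (Lam : ℕ) (A : K → ℕ)
    (hA : tdeg A ≤ Lam) :
    z ^ (Lam - tdeg A) * ∏ x, (z + s x) ^ A x =
      ∑ β ∈ ix K n, (bin A β : R) * (z ^ (Lam - tdeg β) * ∏ x, s x ^ β x) := by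
  have h1 : z ^ (Lam - tdeg A) * ∏ x, (z + s x) ^ A x =
      ∑ β ∈ Fintype.piFinset fun x => range (A x + 1),
        (bin A β : R) * (z ^ (Lam - tdeg β) * ∏ x, s x ^ β x) := by
    have h2 : ∀ x, (z + s x) ^ A x =
        ∑ j ∈ range (A x + 1), ((A x).choose j : R) * (z ^ (A x - j) * s x ^ j) := by
      intro x
      rw [add_comm, add_pow]
      refine Finset.sum_congr rfl fun j _ => ?_
      ring
    have h3 : ∏ x, (z + s x) ^ A x = ∑ β ∈ Fintype.piFinset fun x => range (A x + 1),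
        ∏ x, (((A x).choose (β x) : R) * (z ^ (A x - β x) * s x ^ β x)) := by
      rw [Finset.prod_congr rfl fun x _ => h2 x]
      exact Finset.prod_univ_sum _ _
    rw [h3, Finset.mul_sum]
    refine Finset.sum_congr rfl fun β hβ => ?_
    rw [Fintype.mem_piFinset] at hβ
    have hle : ∀ x, β x ≤ A x := fun x => by have := mem_range.1 (hβ x); omega
    rw [Finset.prod_mul_distrib, Finset.prod_mul_distrib, Finset.prod_pow_eq_pow_sum]
    have h4 : Lam - tdeg A + ∑ x, (A x - β x) = Lam - tdeg β := by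
      have h5 : ∑ x, (A x - β x) + tdeg β = tdeg A := by
        unfold tdeg
        rw [← Finset.sum_add_distrib]
        exact Finset.sum_congr rfl fun x _ => Nat.sub_add_cancel (hle x)
      omega
    have h6 : (∏ x, ((A x).choose (β x) : R)) = (bin A β : R) := by
      unfold bin
      push_cast
      rfl
    rw [h6, ← h4, pow_add]
    ring
  rw [h1]
  have hA : ∀ β : K → ℕ, β ∉ (Fintype.piFinset fun x => range (A x + 1)) → (bin A β : R) = 0 := by
    intro β hβ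
    rw [Fintype.mem_piFinset] at hβ
    push Not at hβ
    obtain ⟨x, hx⟩ := hβ
    rw [mem_range] at hx
    rw [Ex.bin_eq_zero (x := x) (by omega), Nat.cast_zero]
  calc ∑ β ∈ Fintype.piFinset fun x => range (A x + 1),
        (bin A β : R) * (z ^ (Lam - tdeg β) * ∏ x, s x ^ β x)
      = ∑ β ∈ (Fintype.piFinset fun x => range (A x + 1)) ∪ ix K n,
          (bin A β : R) * (z ^ (Lam - tdeg β) * ∏ x, s x ^ β x) :=
        Finset.sum_subset subset_union_left fun β _ hβ => by rw [hA β hβ, zero_mul]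
    _ = _ := by
        symm
        refine Finset.sum_subset subset_union_right fun β _ hβ => ?_
        rw [mem_ix] at hβ
        rw [hs β (by omega), mul_zero, mul_zero]

/-- for `y (some x) = y none + D * t x` (no unit needed) the products `∏ y ^ A`, multiplied by a
binomial function, are modulo `D ^ N` integer combinations of the binomial functions of small
degree -/
theorem expandD (p N Lam N2 : ℕ) (y : Option K → ZMod (p ^ N))
    (t : K → ZMod (p ^ N)) (ht : ∀ x, y (some x) = y none + p * t x) (V : ZMod (p ^ N))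
    (α : K → ℕ) (hα : tdeg α < N2) :
    ∃ lam : (K → ℕ) → ℤ, ∀ A : K → ℕ, tdeg A ≤ Lam →
      (bin A α : ZMod (p ^ N)) * (V * (y none ^ (Lam - tdeg A) * ∏ x, y (some x) ^ A x)) =
        ∑ β ∈ ix K (N + N2), (lam β : ZMod (p ^ N)) * bin A β := by
  classical
  -- vanishing of the high terms
  have hs : ∀ β : K → ℕ, N ≤ tdeg β → ∏ x, ((p : ZMod (p ^ N)) * t x) ^ β x = 0 := by
    intro β hβ
    have h1 : ∏ x, ((p : ZMod (p ^ N)) * t x) ^ β x = (p : ZMod (p ^ N)) ^ tdeg β * ∏ x, t x ^ β x := by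
      unfold tdeg
      rw [← Finset.prod_pow_eq_pow_sum, ← Finset.prod_mul_distrib]
      exact Finset.prod_congr rfl fun x _ => mul_pow _ _ _
    have h2 : (p : ZMod (p ^ N)) ^ N = 0 := by
      have := ZMod.natCast_self (p ^ N)
      rwa [Nat.cast_pow] at this
    obtain ⟨d, hd⟩ := Nat.exists_eq_add_of_le hβ
    rw [h1, hd, pow_add, h2, zero_mul, zero_mul]
  -- the coefficients
  let c : (K → ℕ) → ZMod (p ^ N) := fun γ =>
    ∑ β ∈ ix K N, (V * (y none ^ (Lam - tdeg β) * ∏ x, ((p : ZMod (p ^ N)) * t x) ^ β x)) *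
      (if tdeg γ < tdeg α + tdeg β + 1 then
        ((∏ x, if γ x ≤ α x + β x then Ex.cmul (α x) (β x) (γ x) else 0 : ℕ) :
          ZMod (p ^ N)) else 0)
  have hlift : ∀ z : ZMod (p ^ N), ∃ m : ℤ, (m : ZMod (p ^ N)) = z := ZMod.intCast_surjective
  choose m hm using hlift
  refine ⟨fun γ => m (c γ), fun A hA => ?_⟩
  have hprod : y none ^ (Lam - tdeg A) * ∏ x, y (some x) ^ A x =
      ∑ β ∈ ix K N, (bin A β : ZMod (p ^ N)) *
        (y none ^ (Lam - tdeg β) * ∏ x, ((p : ZMod (p ^ N)) * t x) ^ β x) := by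
    have h1 : ∏ x, y (some x) ^ A x = ∏ x, (y none + (p : ZMod (p ^ N)) * t x) ^ A x :=
      Finset.prod_congr rfl fun x _ => by rw [ht]
    rw [h1]
    exact prod_add_pow_hom (y none) (fun x => (p : ZMod (p ^ N)) * t x) N hs Lam A hA
  rw [hprod]
  simp only [hm]
  calc (bin A α : ZMod (p ^ N)) * (V * ∑ β ∈ ix K N, (bin A β : ZMod (p ^ N)) *
        (y none ^ (Lam - tdeg β) * ∏ x, ((p : ZMod (p ^ N)) * t x) ^ β x))
      = ∑ β ∈ ix K N, (V * (y none ^ (Lam - tdeg β) * ∏ x, ((p : ZMod (p ^ N)) * t x) ^ β x)) *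
          ((bin A α : ZMod (p ^ N)) * bin A β) := by
        rw [Finset.mul_sum, Finset.mul_sum]
        exact Finset.sum_congr rfl fun β _ => by ring
    _ = ∑ β ∈ ix K N, ∑ γ ∈ ix K (N + N2),
          (V * (y none ^ (Lam - tdeg β) * ∏ x, ((p : ZMod (p ^ N)) * t x) ^ β x)) *
          (if tdeg γ < tdeg α + tdeg β + 1 then
            ((∏ x, if γ x ≤ α x + β x then Ex.cmul (α x) (β x) (γ x) else 0 : ℕ) :
              ZMod (p ^ N)) else 0) * bin A γ := by
        refine Finset.sum_congr rfl fun β hβ => ?_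
        rw [mem_ix] at hβ
        have h1 : (bin A α : ZMod (p ^ N)) * bin A β =
            ∑ γ ∈ ix K (tdeg α + tdeg β + 1),
              ((∏ x, if γ x ≤ α x + β x then Ex.cmul (α x) (β x) (γ x) else 0 : ℕ) :
                ZMod (p ^ N)) * bin A γ := by
          have := congrArg (fun n : ℕ => (n : ZMod (p ^ N))) (Ex.bin_mul α β A)
          push_cast at this ⊢
          exact this
        rw [h1, Finset.mul_sum]
        have hsub : ix K (tdeg α + tdeg β + 1) ⊆ ix K (N + N2) := by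
          intro γ hγ
          rw [mem_ix] at hγ ⊢
          omega
        rw [← Finset.sum_subset hsub]
        · refine Finset.sum_congr rfl fun γ hγ => ?_
          rw [mem_ix] at hγ
          rw [if_pos hγ]
          ring
        · intro γ _ hγ
          rw [mem_ix] at hγ
          rw [if_neg hγ, mul_zero, zero_mul]
    _ = _ := by
        rw [Finset.sum_comm]
        refine Finset.sum_congr rfl fun γ _ => ?_
        rw [← Finset.sum_mul]

end Expand

end Pool.Agent.Lib.AbcZW
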