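import Pool.Agent.Lib.AbcZ.Expand
import Pool.Agent.Lib.AbcZW.DefsW
import Pool.Agent.Lib.AbcZW.ModD34

/-!
# Theorem W: expansion

The products `∏ y ^ A`, times `z ^ l` with `z ≡ 1` modulo `E ^ N`, multiplied by a function
`binW`, are modulo `E ^ (N * J)` integer combinations of the functions `binW` of small weighted
degree.
-/

set_option autoImplicit false

namespace Pool.Agent.Lib.AbcZW

open Finset Pool.Agent.Lib.AbcZ

section

variable {K : Type*} [Fintype K] [DecidableEq K]

/-- the product of two row functions, natural coefficients, uniformly in `A` and `l` -/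
theorem binW_mul {N : ℕ} (hN : 0 < N) (α β : (K → ℕ) × ℕ) (n : ℕ)
    (h : tdeg α.1 + N * α.2 + (tdeg β.1 + N * β.2) < n) :
    ∃ c : (K → ℕ) × ℕ → ℕ, ∀ (A : K → ℕ) (l : ℕ),
      binW A l α * binW A l β = ∑ γ ∈ ixW K N n, c γ * binW A l γ := by
  classical
  let c1 : (K → ℕ) → ℕ := fun γ =>
    ∏ x, if γ x ≤ α.1 x + β.1 x then Ex.cmul (α.1 x) (β.1 x) (γ x) else 0
  let c2 : ℕ → ℕ := fun k => Ex.cmul α.2 β.2 k
  let S : Finset ((K → ℕ) × ℕ) := (ix K (tdeg α.1 + tdeg β.1 + 1)) ×ˢ range (α.2 + β.2 + 1)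
  refine ⟨fun γ => if γ ∈ S then c1 γ.1 * c2 γ.2 else 0, fun A l => ?_⟩
  have hsub : S ⊆ ixW K N n := by
    intro γ hγ
    rw [mem_product, mem_ix, mem_range] at hγ
    rw [mem_ixW hN]
    have h1 : N * γ.2 ≤ N * (α.2 + β.2) := Nat.mul_le_mul_left N (by omega)
    rw [Nat.mul_add] at h1
    omega
  have h1 : binW A l α * binW A l β = ∑ γ ∈ S, c1 γ.1 * c2 γ.2 * binW A l γ := by
    calc binW A l α * binW A l β
        = (bin A α.1 * bin A β.1) * (l.choose α.2 * l.choose β.2) := by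
          unfold binW
          ring
      _ = (∑ γ ∈ ix K (tdeg α.1 + tdeg β.1 + 1), c1 γ * bin A γ) *
            ∑ k ∈ range (α.2 + β.2 + 1), c2 k * l.choose k := by
          rw [Ex.bin_mul, Ex.choose_mul_choose]
      _ = _ := by
          rw [Finset.sum_mul_sum, Finset.sum_product]
          refine Finset.sum_congr rfl fun γ _ => Finset.sum_congr rfl fun k _ => ?_
          unfold binW
          ring
  rw [h1, ← Finset.sum_subset hsub]
  · refine Finset.sum_congr rfl fun γ hγ => ?_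
    beta_reduce
    rw [if_pos hγ]
  · intro γ _ hγ
    beta_reduce
    rw [if_neg hγ, zero_mul]

end

/-- expansion of `z ^ l`, `z = 1 + v`, `v ^ n = 0` -/
theorem one_add_pow_trunc {R : Type*} [CommRing R] (v : R) (n : ℕ) (hv : ∀ i, n ≤ i → v ^ i = 0)
    (l : ℕ) : (1 + v) ^ l = ∑ i ∈ range n, (l.choose i : R) * v ^ i := by
  have h1 : (1 + v) ^ l = ∑ i ∈ range (l + 1), (l.choose i : R) * v ^ i := by
    rw [add_comm, add_pow]
    refine Finset.sum_congr rfl fun i _ => ?_
    rw [one_pow, mul_one, mul_comm]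
  rw [h1]
  calc ∑ i ∈ range (l + 1), (l.choose i : R) * v ^ i
      = ∑ i ∈ range (l + 1) ∪ range n, (l.choose i : R) * v ^ i := by
        refine Finset.sum_subset subset_union_left fun i _ hi => ?_
        rw [mem_range] at hi
        rw [Nat.choose_eq_zero_of_lt (by omega), Nat.cast_zero, zero_mul]
    _ = _ := by
        symm
        refine Finset.sum_subset subset_union_right fun i _ hi => ?_
        rw [mem_range] at hi
        rw [hv i (by omega), mul_zero]

/-- **Expansion**, with the level as a further variable of weight `N`. -/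
theorem expandW {K : Type*} [Fintype K] [DecidableEq K] (E N J Lam N2 : ℕ) (hN : 0 < N)
    (y : Option K → ZMod (E ^ (N * J))) (t : K → ZMod (E ^ (N * J)))
    (ht : ∀ x, y (some x) = y none + E * t x) (z w : ZMod (E ^ (N * J))) (hz : z = 1 + E ^ N * w)
    (V : ZMod (E ^ (N * J))) (α : (K → ℕ) × ℕ) (hα : tdeg α.1 + N * α.2 < N2) :
    ∃ lam : (K → ℕ) × ℕ → ℤ, ∀ (A : K → ℕ) (l : ℕ), tdeg A ≤ Lam →
      (binW A l α : ZMod (E ^ (N * J))) *
        (V * z ^ l * (y none ^ (Lam - tdeg A) * ∏ x, y (some x) ^ A x)) =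
        ∑ β ∈ ixW K N (N * J + N2), (lam β : ZMod (E ^ (N * J))) * (binW A l β : ZMod _) := by
  classical
  -- a power of `E`
  have hE0 : ∀ k, N * J ≤ k → (E : ZMod (E ^ (N * J))) ^ k = 0 := by
    intro k hk
    have h2 : (E : ZMod (E ^ (N * J))) ^ (N * J) = 0 := by
      have := ZMod.natCast_self (E ^ (N * J))
      rwa [Nat.cast_pow] at this
    obtain ⟨d, hd⟩ := Nat.exists_eq_add_of_le hk
    rw [hd, pow_add, h2, zero_mul]
  have hpr : ∀ β : K → ℕ, ∏ x, ((E : ZMod (E ^ (N * J))) * t x) ^ β x =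
      (E : ZMod (E ^ (N * J))) ^ tdeg β * ∏ x, t x ^ β x := by
    intro β
    unfold tdeg
    rw [← Finset.prod_pow_eq_pow_sum, ← Finset.prod_mul_distrib]
    exact Finset.prod_congr rfl fun x _ => mul_pow _ _ _
  -- vanishing of the high terms
  have hs : ∀ β : K → ℕ, N * J ≤ tdeg β → ∏ x, ((E : ZMod (E ^ (N * J))) * t x) ^ β x = 0 := by
    intro β hβ
    rw [hpr, hE0 _ hβ, zero_mul]
  have hv : ∀ i, N * J ≤ i → ((E : ZMod (E ^ (N * J))) ^ N * w) ^ i = 0 := by
    intro i hi
    rw [mul_pow, ← pow_mul, hE0 (N * i) (le_trans hi (Nat.le_mul_of_pos_left _ hN)), zero_mul]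
  have hboth : ∀ β : (K → ℕ) × ℕ, N * J ≤ tdeg β.1 + N * β.2 →
      (∏ x, ((E : ZMod (E ^ (N * J))) * t x) ^ β.1 x) *
        ((E : ZMod (E ^ (N * J))) ^ N * w) ^ β.2 = 0 := by
    intro β hβ
    rw [hpr, mul_pow, ← pow_mul]
    calc (E : ZMod (E ^ (N * J))) ^ tdeg β.1 * (∏ x, t x ^ β.1 x) *
          ((E : ZMod (E ^ (N * J))) ^ (N * β.2) * w ^ β.2)
        = (E : ZMod (E ^ (N * J))) ^ (tdeg β.1 + N * β.2) *
            ((∏ x, t x ^ β.1 x) * w ^ β.2) := by
          rw [pow_add]
          ring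
      _ = 0 := by rw [hE0 _ hβ, zero_mul]
  -- the products of two row functions
  have hmul : ∀ β : (K → ℕ) × ℕ, ∃ c : (K → ℕ) × ℕ → ℕ, β ∈ ixW K N (N * J) →
      ∀ (A : K → ℕ) (l : ℕ),
        binW A l α * binW A l β = ∑ γ ∈ ixW K N (N * J + N2), c γ * binW A l γ := by
    intro β
    by_cases hβ : β ∈ ixW K N (N * J)
    · rw [mem_ixW hN] at hβ
      obtain ⟨c, hc⟩ := binW_mul hN α β (N * J + N2) (by omega)
      exact ⟨c, fun _ => hc⟩
    · exact ⟨fun _ => 0, fun h => absurd h hβ⟩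
  choose c hc using hmul
  let D : (K → ℕ) × ℕ → ZMod (E ^ (N * J)) := fun β =>
    V * (y none ^ (Lam - tdeg β.1) * ((∏ x, ((E : ZMod (E ^ (N * J))) * t x) ^ β.1 x) *
      ((E : ZMod (E ^ (N * J))) ^ N * w) ^ β.2))
  have hlift : ∀ z : ZMod (E ^ (N * J)), ∃ m : ℤ, (m : ZMod (E ^ (N * J))) = z :=
    ZMod.intCast_surjective
  choose m hm using hlift
  refine ⟨fun γ => m (∑ β ∈ ixW K N (N * J), D β * (c β γ : ZMod (E ^ (N * J)))),
    fun A l hA => ?_⟩
  simp only [hm]
  -- the expansion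
  have hexp : V * z ^ l * (y none ^ (Lam - tdeg A) * ∏ x, y (some x) ^ A x) =
      ∑ β ∈ ixW K N (N * J), D β * (binW A l β : ZMod (E ^ (N * J))) := by
    have h1 : ∏ x, y (some x) ^ A x = ∏ x, (y none + (E : ZMod (E ^ (N * J))) * t x) ^ A x :=
      Finset.prod_congr rfl fun x _ => by rw [ht]
    have h2 := prod_add_pow_hom (y none) (fun x => (E : ZMod (E ^ (N * J))) * t x) (N * J) hs
      Lam A hA
    have h3 := one_add_pow_trunc ((E : ZMod (E ^ (N * J))) ^ N * w) (N * J) hv l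
    rw [h1, h2, hz, h3]
    have h4 : V * (∑ i ∈ range (N * J), (l.choose i : ZMod (E ^ (N * J))) *
          ((E : ZMod (E ^ (N * J))) ^ N * w) ^ i) *
        (∑ β ∈ ix K (N * J), (bin A β : ZMod (E ^ (N * J))) *
          (y none ^ (Lam - tdeg β) * ∏ x, ((E : ZMod (E ^ (N * J))) * t x) ^ β x)) =
        ∑ β ∈ (ix K (N * J)) ×ˢ range (N * J), D β * (binW A l β : ZMod (E ^ (N * J))) := by
      rw [mul_assoc, mul_comm (∑ i ∈ range (N * J), _), Finset.sum_mul_sum, Finset.mul_sum,
        Finset.sum_product]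
      refine Finset.sum_congr rfl fun β _ => ?_
      rw [Finset.mul_sum]
      refine Finset.sum_congr rfl fun i _ => ?_
      simp only [D, binW]
      push_cast
      ring
    rw [h4]
    symm
    unfold ixW
    refine Finset.sum_subset (Finset.filter_subset _ _) fun β hβ hβ' => ?_
    rw [mem_filter] at hβ'
    have h5 : N * J ≤ tdeg β.1 + N * β.2 := by
      by_contra h6
      exact hβ' ⟨hβ, by omega⟩
    simp only [D]
    rw [hboth β h5, mul_zero, mul_zero, zero_mul]
  rw [hexp, Finset.mul_sum]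
  calc ∑ β ∈ ixW K N (N * J), (binW A l α : ZMod (E ^ (N * J))) *
        (D β * (binW A l β : ZMod (E ^ (N * J))))
      = ∑ β ∈ ixW K N (N * J), ∑ γ ∈ ixW K N (N * J + N2),
          D β * (c β γ : ZMod (E ^ (N * J))) * (binW A l γ : ZMod (E ^ (N * J))) := by
        refine Finset.sum_congr rfl fun β hβ => ?_
        have h1 := congrArg (fun n : ℕ => (n : ZMod (E ^ (N * J)))) (hc β hβ A l)
        push_cast at h1
        calc (binW A l α : ZMod (E ^ (N * J))) * (D β * (binW A l β : ZMod (E ^ (N * J))))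
            = D β * ((binW A l α : ZMod (E ^ (N * J))) *
                (binW A l β : ZMod (E ^ (N * J)))) := by ring
          _ = _ := by
              rw [h1, Finset.mul_sum]
              exact Finset.sum_congr rfl fun γ _ => by ring
    _ = _ := by
        rw [Finset.sum_comm]
        refine Finset.sum_congr rfl fun γ _ => ?_
        rw [← Finset.sum_mul]

end Pool.Agent.Lib.AbcZW
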