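import Mathlib
import Pool.Agent.Lib.AbcZW.DefsW

/-!
# Once around the circle
-/

namespace Pool.Agent.Lib.AbcZW

open Finset Pool.Agent.Lib.AbcZ

section DegZ

variable {J R : Type*} [AddCommGroup R]

theorem DegZ.congr {m : ℕ} {f g : Multiset J → ℤ → R} (hf : DegZ m f)
    (h : ∀ B l, f B l = g B l) : DegZ m g := by
  have : f = g := funext fun B => funext fun l => h B l
  rwa [← this]

theorem DegZ.zero_fun (m : ℕ) : DegZ m (fun (_ : Multiset J) (_ : ℤ) => (0 : R)) := by
  induction m with
  | zero => exact fun _ _ => rfl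
  | succ m ih =>
    exact ⟨fun a b => ih.congr fun _ _ => (sub_self _).symm,
      ih.congr fun _ _ => (sub_self _).symm⟩

theorem DegZ.add {m : ℕ} {f g : Multiset J → ℤ → R} (hf : DegZ m f) (hg : DegZ m g) :
    DegZ m (fun B l => f B l + g B l) := by
  induction m generalizing f g with
  | zero =>
    intro B l
    show f B l + g B l = 0
    rw [hf B l, hg B l, add_zero]
  | succ m ih =>
    exact ⟨fun a b => (ih (hf.1 a b) (hg.1 a b)).congr fun _ _ => (add_sub_add_comm _ _ _ _).symm,
      (ih hf.2 hg.2).congr fun _ _ => (add_sub_add_comm _ _ _ _).symm⟩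

theorem DegZ.neg {m : ℕ} {f : Multiset J → ℤ → R} (hf : DegZ m f) :
    DegZ m (fun B l => -f B l) := by
  induction m generalizing f with
  | zero =>
    intro B l
    show -f B l = 0
    rw [hf B l, neg_zero]
  | succ m ih =>
    exact ⟨fun a b => (ih (hf.1 a b)).congr fun _ _ => (neg_sub _ _).trans (neg_sub_neg _ _).symm,
      (ih hf.2).congr fun _ _ => (neg_sub _ _).trans (neg_sub_neg _ _).symm⟩

theorem DegZ.cons {m : ℕ} {f : Multiset J → ℤ → R} (hf : DegZ m f) (x : J) :
    DegZ m (fun B l => f (x ::ₘ B) l) := by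
  induction m generalizing f with
  | zero => exact fun B l => hf _ _
  | succ m ih =>
    exact ⟨fun a b => (ih (hf.1 a b)).congr fun B l => by
      rw [Multiset.cons_swap a x, Multiset.cons_swap b x], ih hf.2⟩

theorem DegZ.shift {m : ℕ} {f : Multiset J → ℤ → R} (hf : DegZ m f) (w : ℤ) :
    DegZ m (fun B l => f B (l + w)) := by
  induction m generalizing f with
  | zero => exact fun B l => hf _ _
  | succ m ih =>
    exact ⟨fun a b => ih (hf.1 a b), (ih hf.2).congr fun B l => by
      rw [add_right_comm l w 1]⟩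

theorem DegZ.diff {m : ℕ} {f : Multiset J → ℤ → R} (hf : DegZ (m + 1) f) (w : ℤ) :
    DegZ m (fun B l => f B (l + w) - f B l) := by
  induction w using Int.induction_on with
  | zero => exact (DegZ.zero_fun m).congr fun B l => by rw [add_zero, sub_self]
  | succ i ih =>
    refine ((hf.2.shift (i : ℤ)).add ih).congr fun B l => ?_
    rw [← add_assoc l (i : ℤ) 1]
    abel
  | pred i ih =>
    refine ((hf.2.shift (-(i : ℤ) - 1)).neg.add ih).congr fun B l => ?_
    have e : l + (-(i : ℤ) - 1) + 1 = l + -(i : ℤ) := by ring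
    rw [e]
    abel

/-- a function of degree less than `m` which vanishes on the multisets containing `a` -/
theorem DegZ.of_mem (a : J) {m : ℕ} {f : Multiset J → ℤ → R} (hf : DegZ m f) {n : ℕ}
    (hmn : m ≤ n) (h : ∀ B, Multiset.card B = n → a ∈ B → ∀ l, f B l = 0) :
    ∀ B, Multiset.card B = n → ∀ l, f B l = 0 := by
  induction m generalizing f n with
  | zero => exact fun B _ l => hf B l
  | succ m ih =>
    intro B hB l
    obtain ⟨x, hx⟩ : ∃ x, x ∈ B := by
      refine Multiset.card_pos_iff_exists_mem.1 ?_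
      omega
    obtain ⟨B', rfl⟩ := Multiset.exists_cons_of_mem hx
    rw [Multiset.card_cons] at hB
    have h1 := ih (hf.1 x a) (n := n - 1) (by omega) (fun B'' hB'' ha l => by
      rw [h _ (by rw [Multiset.card_cons]; omega) (Multiset.mem_cons_of_mem ha),
        h _ (by rw [Multiset.card_cons]; omega) (Multiset.mem_cons_self _ _), sub_self]) B'
      (by omega) l
    have h2 := h (a ::ₘ B') (by rw [Multiset.card_cons]; omega) (Multiset.mem_cons_self _ _) l
    rw [h2, sub_zero] at h1
    exact h1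

end DegZ

theorem Cyc.sum_w {J : Type*} {N h : ℕ} (hN : 0 < N) {φ : J → ℕ} (C : Cyc N h φ) :
    ∑ j ∈ range C.q, C.w j = -1 := by
  have h1 : ∑ j ∈ range C.q, ((φ (C.a (j + 1)) : ℤ) - φ (C.a j)) =
      (φ (C.a C.q) : ℤ) - φ (C.a 0) := Finset.sum_range_sub (fun j => (φ (C.a j) : ℤ)) C.q
  have h2 : ∑ j ∈ range C.q, ((φ (C.a (j + 1)) : ℤ) - φ (C.a j)) =
      ∑ j ∈ range C.q, ((C.inc j : ℤ) + N * C.w j) := by
    refine Finset.sum_congr rfl fun j hj => ?_
    have := C.step j (Finset.mem_range.1 hj)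
    linarith
  have h3 : ((∑ j ∈ range C.q, C.inc j : ℕ) : ℤ) = N := by rw [C.total]
  push_cast at h3
  rw [h1, C.close, sub_self, Finset.sum_add_distrib, h3, ← Finset.mul_sum] at h2
  have hN' : (N : ℤ) ≠ 0 := by exact_mod_cast hN.ne'
  have h4 : (N : ℤ) * (1 + ∑ j ∈ range C.q, C.w j) = 0 := by linarith
  rcases mul_eq_zero.1 h4 with h5 | h5
  · exact absurd h5 hN'
  · linarith

/-- the phases along the chain -/
theorem Cyc.phase {J : Type*} {N h : ℕ} {φ : J → ℕ} (C : Cyc N h φ) {j : ℕ} (hj : j ≤ C.q) :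
    (φ (C.a j) : ℤ) = φ (C.a 0) + ((∑ i ∈ range j, C.inc i : ℕ) : ℤ) +
      N * ∑ i ∈ range j, C.w i := by
  induction j with
  | zero => simp
  | succ j ih =>
    rw [C.step j (by omega), ih (by omega), Finset.sum_range_succ, Finset.sum_range_succ]
    push_cast
    ring

/-- somewhere on the way a multiple of `N` is crossed -/
theorem Cyc.cross {J : Type*} {N h : ℕ} (hN : 0 < N) {φ : J → ℕ} (C : Cyc N h φ) (u : ℕ) :
    ∃ j ≤ C.q, N * (u / N + 1) ≤ u + ∑ i ∈ range j, C.inc i ∧
      u + ∑ i ∈ range j, C.inc i < N * (u / N + 1) + h := by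
  classical
  have hex : ∃ j, N * (u / N + 1) ≤ u + ∑ i ∈ range j, C.inc i := by
    refine ⟨C.q, ?_⟩
    rw [C.total]
    have := Nat.mul_div_le u N
    nlinarith
  obtain ⟨j, hj, hmin⟩ : ∃ j, N * (u / N + 1) ≤ u + ∑ i ∈ range j, C.inc i ∧
      ∀ k < j, ¬ N * (u / N + 1) ≤ u + ∑ i ∈ range k, C.inc i :=
    ⟨Nat.find hex, Nat.find_spec hex, fun i hi => Nat.find_min hex hi⟩
  have hjq : j ≤ C.q := by
    by_contra hlt
    push Not at hlt
    have h1 := hmin C.q hlt
    rw [C.total] at h1
    have := Nat.mul_div_le u N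
    nlinarith
  refine ⟨j, hjq, hj, ?_⟩
  rcases Nat.eq_zero_or_pos j with rfl | hpos
  · exfalso
    rw [Finset.range_zero, Finset.sum_empty, add_zero] at hj
    have h1 := Nat.div_add_mod u N
    have h2 := Nat.mod_lt u hN
    nlinarith
  · obtain ⟨i, rfl⟩ : ∃ i, j = i + 1 := ⟨j - 1, by omega⟩
    have h1 := hmin i (by omega)
    rw [Finset.sum_range_succ]
    have h2 := C.small i (by omega)
    omega

theorem div_mod_of {N V : ℕ} {r k : ℤ} (hN : 0 < N) (h : (V : ℤ) = r + N * k) (h0 : 0 ≤ r)
    (h1 : r < N) : ((V / N : ℕ) : ℤ) = k ∧ ((V % N : ℕ) : ℤ) = r := by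
  have h2 := (Int.ediv_emod_unique (a := (V : ℤ)) (b := (N : ℤ)) (r := r) (q := k)
    (by exact_mod_cast hN)).2 ⟨h.symm, h0, h1⟩
  push_cast
  exact h2

/-- **once around the circle** -/
theorem cycW {J R : Type*} [AddCommGroup R] {N h : ℕ} (hN : 0 < N) (φ : J → ℕ) (C : Cyc N h φ) :
    ∀ (m : ℕ) (f : Multiset J → ℤ → R), DegZ m f → ∀ (c om n : ℕ), m ≤ n → (m + 1) * h ≤ om →
      om ≤ N → (∀ B, Multiset.card B = n → (c + (B.map φ).sum) % N < om →
        f B (((c + (B.map φ).sum) / N : ℕ) : ℤ) = 0) →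
      ∀ B, Multiset.card B = n → ∀ l : ℤ, f B l = 0 := by
  intro m
  induction m with
  | zero => exact fun f hf c om n _ _ _ _ B _ l => hf B l
  | succ m ih =>
    intro f hf c om n hmn hom homN hz
    have hhom : h ≤ om := by nlinarith
    -- one step
    have hstep : ∀ j, j < C.q → ∀ B, Multiset.card B = n - 1 → ∀ l : ℤ,
        f (C.a (j + 1) ::ₘ B) (l + C.w j) = f (C.a j ::ₘ B) l := by
      intro j hj
      have hinc := C.small j hj
      have hst := C.step j hj
      have hdeg : DegZ m (fun B l => f (C.a (j + 1) ::ₘ B) (l + C.w j) - f (C.a j ::ₘ B) l) :=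
        (((hf.cons (C.a (j + 1))).diff (C.w j)).add (hf.1 (C.a (j + 1)) (C.a j))).congr
          fun B l => sub_add_sub_cancel _ _ _
      have h1 := ih _ hdeg (c + φ (C.a j)) (om - C.inc j) (n - 1) (by omega)
        (by
          have : (m + 1) * h + h ≤ om := by nlinarith
          omega) (by omega) (fun B hB hU => by
          have e1 : c + ((C.a j ::ₘ B).map φ).sum = c + φ (C.a j) + (B.map φ).sum := by
            rw [Multiset.map_cons, Multiset.sum_cons, add_assoc]
          have z1 := hz (C.a j ::ₘ B) (by rw [Multiset.card_cons]; omega) (by rw [e1]; omega)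
          rw [e1] at z1
          obtain ⟨U, hU'⟩ : ∃ U : ℕ, U = c + φ (C.a j) + (B.map φ).sum := ⟨_, rfl⟩
          rw [← hU'] at hU z1 ⊢
          obtain ⟨V, hV⟩ : ∃ V : ℕ, V = c + ((C.a (j + 1) ::ₘ B).map φ).sum := ⟨_, rfl⟩
          have hVU : (V : ℤ) = U + C.inc j + N * C.w j := by
            rw [hV, hU', Multiset.map_cons, Multiset.sum_cons]
            push_cast
            rw [hst]
            ring
          have hUd : (U : ℤ) = N * (U / N : ℕ) + (U % N : ℕ) := by
            exact_mod_cast (Nat.div_add_mod U N).symm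
          have hlt : U % N + C.inc j < N := by omega
          have hdm := div_mod_of (V := V) (r := (U % N : ℕ) + (C.inc j : ℤ))
            (k := (U / N : ℕ) + C.w j) hN (by rw [hVU, mul_add]; linarith) (by positivity)
            (by exact_mod_cast hlt)
          have z2 := hz (C.a (j + 1) ::ₘ B) (by rw [Multiset.card_cons]; omega) (by
            rw [← hV]
            have := hdm.2
            omega)
          rw [← hV, hdm.1] at z2
          rw [z1, z2, sub_zero])
      intro B hB l
      exact sub_eq_zero.1 (h1 B hB l)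
    -- iterated
    have hiter : ∀ j ≤ C.q, ∀ B, Multiset.card B = n - 1 → ∀ l : ℤ,
        f (C.a j ::ₘ B) (l + ∑ i ∈ range j, C.w i) = f (C.a 0 ::ₘ B) l := by
      intro j
      induction j with
      | zero =>
        intro _ B _ l
        rw [Finset.range_zero, Finset.sum_empty, add_zero]
      | succ j ihj =>
        intro hj B hB l
        rw [Finset.sum_range_succ, ← add_assoc, hstep j (by omega) B hB, ihj (by omega) B hB]
    have hround : ∀ B, Multiset.card B = n - 1 → ∀ l : ℤ,
        f (C.a 0 ::ₘ B) (l + 1) = f (C.a 0 ::ₘ B) l := by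
      intro B hB l
      have h1 := hiter C.q le_rfl B hB (l + 1)
      rw [C.sum_w hN, C.close, add_neg_cancel_right] at h1
      exact h1.symm
    -- no dependence on the level
    have hS : ∀ B, Multiset.card B = n → ∀ l : ℤ, f B (l + 1) - f B l = 0 := by
      refine hf.2.of_mem (C.a 0) (n := n) (by omega) fun B hB ha l => ?_
      obtain ⟨B', rfl⟩ := Multiset.exists_cons_of_mem ha
      rw [Multiset.card_cons] at hB
      exact sub_eq_zero.2 (hround B' (by omega) l)
    have hconst : ∀ B, Multiset.card B = n → ∀ l : ℤ, f B l = f B 0 := by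
      intro B hB l
      induction l using Int.induction_on with
      | zero => rfl
      | succ i ihl => rw [← ihl]; exact sub_eq_zero.1 (hS B hB _)
      | pred i ihl =>
        have h1 := sub_eq_zero.1 (hS B hB (-(i : ℤ) - 1))
        rw [sub_add_cancel, ihl] at h1
        exact h1.symm
    -- the multisets which contain the first letter
    refine hf.of_mem (C.a 0) hmn fun B hB ha l => ?_
    obtain ⟨B', rfl⟩ := Multiset.exists_cons_of_mem ha
    rw [Multiset.card_cons] at hB
    obtain ⟨j, hjq, hj1, hj2⟩ := C.cross hN (c + φ (C.a 0) + (B'.map φ).sum)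
    have hU : ((c + ((C.a j ::ₘ B').map φ).sum : ℕ) : ℤ) =
        (((c + φ (C.a 0) + (B'.map φ).sum + ∑ i ∈ range j, C.inc i : ℕ) : ℤ) -
          ((N * ((c + φ (C.a 0) + (B'.map φ).sum) / N + 1) : ℕ) : ℤ)) +
        N * ((((c + φ (C.a 0) + (B'.map φ).sum) / N + 1 : ℕ) : ℤ) + ∑ i ∈ range j, C.w i) := by
      have hph := C.phase hjq
      rw [Multiset.map_cons, Multiset.sum_cons]
      push_cast
      push_cast at hph
      rw [hph]
      ring
    have hdm := div_mod_of hN hU (by
      have : ((N * ((c + φ (C.a 0) + (B'.map φ).sum) / N + 1) : ℕ) : ℤ) ≤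
        ((c + φ (C.a 0) + (B'.map φ).sum + ∑ i ∈ range j, C.inc i : ℕ) : ℤ) := by
          exact_mod_cast hj1
      linarith) (by
      have : ((c + φ (C.a 0) + (B'.map φ).sum + ∑ i ∈ range j, C.inc i : ℕ) : ℤ) <
        ((N * ((c + φ (C.a 0) + (B'.map φ).sum) / N + 1) + h : ℕ) : ℤ) := by
          exact_mod_cast hj2
      have h3 : (h : ℤ) ≤ N := by exact_mod_cast hhom.trans homN
      push_cast at this ⊢
      linarith)
    have hz' := hz (C.a j ::ₘ B') (by rw [Multiset.card_cons]; omega) (by
      have := hdm.2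
      omega)
    have h5 : ∀ l : ℤ, f (C.a j ::ₘ B') l = 0 := by
      intro l
      rw [hconst _ (by rw [Multiset.card_cons]; omega) l,
        ← hconst _ (by rw [Multiset.card_cons]; omega) (((c + ((C.a j ::ₘ B').map φ).sum) / N : ℕ) :
          ℤ), hz']
    rw [← hiter j hjq B' (by omega) l, h5]

end Pool.Agent.Lib.AbcZW
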