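import Mathlib
import Pool.Agent.Lib.AbcZ.Unisolve
import Pool.Agent.Lib.AbcZW.CycW

/-!
# Unisolvence with the level as a variable
-/

namespace Pool.Agent.Lib.AbcZW

open Finset Pool.Agent.Lib.AbcZ Pool.Agent.Lib.AbcZ.Uni

variable {κ : Type*} [Fintype κ] [DecidableEq κ]

theorem degZ_zero {J R : Type*} [AddCommGroup R] (m : ℕ) :
    DegZ m (fun (_ : Multiset J) (_ : ℤ) => (0 : R)) := by
  induction m with
  | zero => exact fun _ _ => rfl
  | succ m ih =>
    refine ⟨fun a b => ?_, ?_⟩
    · simpa using ih
    · simpa using ih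

theorem degZ_add {J R : Type*} [AddCommGroup R] {m : ℕ} : ∀ {f g : Multiset J → ℤ → R},
    DegZ m f → DegZ m g → DegZ m (fun B l => f B l + g B l) := by
  induction m with
  | zero =>
    intro f g hf hg B l
    have h1 : f B l = 0 := hf B l
    have h2 : g B l = 0 := hg B l
    simp only [h1, h2, add_zero]
  | succ m ih =>
    intro f g hf hg
    refine ⟨fun a b => ?_, ?_⟩
    · have h := ih (hf.1 a b) (hg.1 a b)
      convert h using 1
      funext B l
      exact add_sub_add_comm _ _ _ _
    · have h := ih hf.2 hg.2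
      convert h using 1
      funext B l
      exact add_sub_add_comm _ _ _ _

theorem degZ_succ {J R : Type*} [AddCommGroup R] {m : ℕ} : ∀ {f : Multiset J → ℤ → R},
    DegZ m f → DegZ (m + 1) f := by
  induction m with
  | zero =>
    intro f hf
    have h0 : f = fun _ _ => 0 := by
      funext B l
      exact hf B l
    rw [h0]
    exact degZ_zero 1
  | succ m ih =>
    intro f hf
    exact ⟨fun a b => ih (hf.1 a b), ih hf.2⟩

theorem degZ_mono {J R : Type*} [AddCommGroup R] {m m' : ℕ} (h : m ≤ m')
    {f : Multiset J → ℤ → R} (hf : DegZ m f) : DegZ m' f := by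
  induction h with
  | refl => exact hf
  | step _ ih => exact degZ_succ ih

theorem degZ_sum {J R τ : Type*} [AddCommGroup R] {m : ℕ} (s : Finset τ)
    (f : τ → Multiset J → ℤ → R) (hf : ∀ i ∈ s, DegZ m (f i)) :
    DegZ m (fun B l => ∑ i ∈ s, f i B l) := by
  classical
  induction s using Finset.induction_on with
  | empty => simpa using degZ_zero m
  | insert a s ha ih =>
    have h1 := degZ_add (hf a (mem_insert_self a s)) (ih fun i hi => hf i (mem_insert_of_mem hi))
    convert h1 using 1
    funext B l
    rw [sum_insert ha]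

/-- a polynomial of degree less than `m` in the point times a binomial of degree `i` in the level -/
theorem degZ_mul {R : Type*} [AddCommGroup R] (q : ℤ →+ R) : ∀ (t m i : ℕ) (g : (κ → ℕ) → ℤ),
    m + i = t → Dg m g →
      DegZ t (fun (B : Multiset (Option κ)) (l : ℤ) =>
        q (g ((B.map stp).sum) * Ring.choose l i)) := by
  intro t
  induction t with
  | zero =>
    intro m i g hmi hg B l
    have hm : m = 0 := by omega
    subst hm
    have hg' : g = 0 := hg
    subst hg'
    simp
  | succ t ih =>
    intro m i g hmi hg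
    refine ⟨fun a b => ?_, ?_⟩
    · cases m with
      | zero =>
        have hg' : g = 0 := hg
        subst hg'
        simpa using degZ_zero t
      | succ m =>
        have h1 := ih m i _ (by omega) (hg.letters a b)
        convert h1 using 1
        funext B l
        simp only [Multiset.map_cons, Multiset.sum_cons]
        rw [← map_sub, sub_mul]
    · cases i with
      | zero => simpa using degZ_zero t
      | succ i =>
        have h1 := ih m i g (by omega) hg
        convert h1 using 1
        funext B l
        rw [← map_sub, ← mul_sub, Ring.choose_succ_succ, add_sub_cancel_right]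

theorem exists_fin {J : Type*} {n : ℕ} (B : Multiset J) (hB : Multiset.card B = n) :
    ∃ y : Fin n → J, univ.val.map y = B := by
  induction B using Quotient.inductionOn with
  | h l =>
    have hl : l.length = n := by simpa using hB
    refine ⟨fun i => l.get (i.cast hl.symm), ?_⟩
    have e : univ.val.map (fun i : Fin n => l.get (i.cast hl.symm)) =
        ((List.ofFn (fun i : Fin n => l.get (i.cast hl.symm)) : List J) : Multiset J) := by
      rw [List.ofFn_eq_map]
      rfl
    rw [e]
    congr 1
    apply List.ext_get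
    · simp [hl]
    · intro i h1 h2
      simp

/-- the reduction modulo the prime `M` -/
theorem mod_stepZ {M N n D h om L c : ℕ} (hM : M.Prime) (hN : 0 < N) (hMN : M ≤ N)
    (γ : Option κ → ℕ) (C : Cyc N h (fun x => M * γ x)) (hD : n ≤ (D + 1) * M)
    (hom : (D + 2) * h ≤ om) (homN : om ≤ N) (hL : n + M ≤ L) (ρ : (κ → ℕ) × ℕ → ℤ)
    (hz : ∀ A : κ → ℕ, tdeg A ≤ L → (c + wt γ L A) % N < om →
      (M : ℤ) ∣ ∑ p ∈ ixW κ N n, ρ p * (binW A ((c + wt γ L A) / N) p : ℤ)) :
    ∀ p ∈ ixW κ N n, (M : ℤ) ∣ ρ p := by
  have hMpos : 0 < M := hM.pos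
  have key : ∀ k : ℕ, ∀ b : κ → ℕ, (∀ x, b x < M) → ∑ x, b x = k →
      ∀ p ∈ ixW κ N n, (∀ x, p.1 x % M = b x) → (M : ℤ) ∣ ρ p := by
    intro k
    induction k using Nat.strong_induction_on with
    | _ k ih =>
      intro b hb hk p₀ hp₀ hp₀b
      -- the degree after the reduction
      have hsumdeg : ∀ p ∈ ixW κ N n, (∀ x, p.1 x % M = b x) →
          M * (∑ x, p.1 x / M + p.2) + ∑ x, b x + 1 ≤ n := by
        intro p hp hpb
        have h1 : ∑ x, p.1 x = M * ∑ x, p.1 x / M + ∑ x, b x := by
          rw [mul_sum, ← sum_add_distrib]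
          refine sum_congr rfl fun x _ => ?_
          rw [← hpb x]
          exact (Nat.div_add_mod (p.1 x) M).symm
        have h2 := (mem_ixW hN).mp hp
        unfold tdeg at h2
        have h3 : M * p.2 ≤ N * p.2 := Nat.mul_le_mul_right _ hMN
        rw [mul_add]
        omega
      set T := (ixW κ N n).filter fun p => ∀ x, p.1 x % M = b x with hT
      set D' := (n - 1 - ∑ x, b x) / M with hD'
      have hbn : ∑ x, b x + 1 ≤ n := by
        have := hsumdeg p₀ hp₀ hp₀b
        omega
      have hDM' : M * D' ≤ n - 1 - ∑ x, b x := Nat.mul_div_le _ _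
      have hDm : D' ≤ D := by
        have h1 : M * D' < M * (D + 1) := by
          rw [mul_comm M (D + 1)]
          omega
        exact Nat.lt_succ_iff.mp (Nat.lt_of_mul_lt_mul_left h1)
      have hTdeg : ∀ p ∈ T, ∑ x, p.1 x / M + p.2 ≤ D' := by
        intro p hp
        obtain ⟨h1, h2⟩ := mem_filter.mp hp
        have h3 := hsumdeg p h1 h2
        rw [hD', Nat.le_div_iff_mul_le hMpos, mul_comm]
        omega
      -- the reduced function
      set G : (κ → ℕ) → ℤ → ℤ := fun B l =>
        ∑ p ∈ T, ρ p * ((bin B (fun x => p.1 x / M) : ℤ) * Ring.choose l p.2) with hG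
      have hval : ∀ B : κ → ℕ, ∑ x, (M * B x + b x) ≤ L →
          (c + wt γ L (fun x => M * B x + b x)) % N < om →
          (M : ℤ) ∣ G B (((c + wt γ L (fun x => M * B x + b x)) / N : ℕ) : ℤ) := by
        intro B hB1 hB2
        have h1 := hz _ hB1 hB2
        set l := (c + wt γ L (fun x => M * B x + b x)) / N with hl
        have h2 : (M : ℤ) ∣ ∑ p ∈ ixW κ N n, ρ p * (binW (fun x => M * B x + b x) l p : ℤ) -
            G B (l : ℤ) := by
          rw [hG, hT]
          simp only [sum_filter]
          rw [← sum_sub_distrib]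
          refine dvd_sum fun p hp => ?_
          have h3 := lucas_bin hM B b p.1 hb
          have hbw : (binW (fun x => M * B x + b x) l p : ℤ) =
              (bin (fun x => M * B x + b x) p.1 : ℤ) * (l.choose p.2 : ℤ) := by
            unfold binW
            push_cast
            ring
          rw [hbw]
          split_ifs with hc
          · have h4 : (fun x => p.1 x % M) = b := funext hc
            rw [h4, bin_self] at h3
            have h5 : ρ p * ((bin (fun x => M * B x + b x) p.1 : ℤ) * (l.choose p.2 : ℤ)) -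
                ρ p * ((bin B (fun x => p.1 x / M) : ℤ) * Ring.choose (l : ℤ) p.2) =
                (ρ p * (l.choose p.2 : ℤ)) * ((bin (fun x => M * B x + b x) p.1 : ℤ) -
                  ((1 : ℕ) : ℤ) * bin B (fun x => p.1 x / M)) := by
              rw [Ring.choose_natCast]
              push_cast
              ring
            rw [h5]
            exact Dvd.dvd.mul_left h3 _
          · rw [sub_zero]
            by_cases hle : (fun x => p.1 x % M) ≤ b
            · refine dvd_mul_of_dvd_left ?_ _
              refine ih (∑ x, p.1 x % M) ?_ (fun x => p.1 x % M) (fun x => Nat.mod_lt _ hMpos) rfl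
                p hp fun x => rfl
              rw [← hk]
              exact sum_lt_of_le_ne hle fun he => hc fun x => congrFun he x
            · rw [bin_eq_zero hle] at h3
              have h5 : (M : ℤ) ∣ (bin (fun x => M * B x + b x) p.1 : ℤ) := by simpa using h3
              exact Dvd.dvd.mul_left (Dvd.dvd.mul_right h5 _) _
        exact (dvd_sub_right h1).mp h2
      have hLb : M * (D' + 1) + ∑ x, b x ≤ L := by
        rw [mul_add, mul_one]
        omega
      set c' := c + (∑ k, γ (some k) * b k + γ none * (L - (M * (D' + 1) + ∑ k, b k))) with hc'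
      -- functions of multisets
      let F : Multiset (Option κ) → ℤ → ZMod M := fun B l =>
        ∑ p ∈ T, (AddMonoidHom.comp (AddMonoidHom.mulLeft ((ρ p : ℤ) : ZMod M))
          (Int.castAddHom (ZMod M))) ((bin ((B.map stp).sum) (fun x => p.1 x / M) : ℤ) *
            Ring.choose l p.2)
      have hF : ∀ B l, F B l = ((G ((B.map stp).sum) l : ℤ) : ZMod M) := by
        intro B l
        change ∑ p ∈ T, _ = _
        rw [hG]
        push_cast
        refine sum_congr rfl fun p _ => ?_
        simp
      have hFD : DegZ (D' + 1) F := by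
        refine degZ_sum T _ fun p hp => ?_
        have h1 := hTdeg p hp
        have h2 : Dg (∑ x, p.1 x / M + 1) (fun B : κ → ℕ => (bin B (fun x => p.1 x / M) : ℤ)) :=
          Dg.binom _ _ (Nat.lt_succ_self _)
        exact degZ_mono (m := ∑ x, p.1 x / M + 1 + p.2) (by omega)
          (degZ_mul _ _ _ p.2 _ rfl h2)
      have hword : ∀ {n : ℕ} (x : Fin n → Option κ),
          ((univ.val.map x).map stp).sum = ∑ i, stp (x i) := by
        intro n x
        rw [Multiset.map_map]
        rfl
      have hphase : ∀ {n : ℕ} (x : Fin n → Option κ),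
          ((univ.val.map x).map (fun x => M * γ x)).sum = ∑ i, M * γ (x i) := by
        intro n x
        rw [Multiset.map_map]
        rfl
      have hcyc := cycW hN (fun x => M * γ x) C (D' + 1) F hFD c' om (D' + 1) le_rfl (by
          refine le_trans ?_ hom
          exact Nat.mul_le_mul_right _ (by omega)) homN (by
          intro B hB hp
          obtain ⟨y, rfl⟩ := exists_fin B hB
          rw [hphase] at hp ⊢
          rw [hF, hword]
          have hwt : wt γ L (fun k => M * (∑ i, stp (y i)) k + b k) =
              (∑ k, γ (some k) * b k + γ none * (L - (M * (D' + 1) + ∑ k, b k))) +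
                ∑ i, M * γ (y i) := wtL_word γ y M L b hLb
          have hcw : c' + ∑ i, M * γ (y i) =
              c + wt γ L (fun k => M * (∑ i, stp (y i)) k + b k) := by
            rw [hwt, hc', add_assoc]
          rw [hcw] at hp ⊢
          refine (ZMod.intCast_zmod_eq_zero_iff_dvd _ _).mpr (hval _ ?_ hp)
          obtain ⟨_, h2⟩ := wt_word γ y
          rw [sum_add_distrib, ← mul_sum]
          have := Nat.mul_le_mul_left M h2
          omega)
      have hall : ∀ (B : κ → ℕ) (l : ℤ), ∑ x, B x ≤ D' + 1 → (M : ℤ) ∣ G B l := by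
        intro B l hB
        obtain ⟨x, hx⟩ := exists_letters (D' + 1) B hB
        have h1 := hcyc (univ.val.map x) (by simp) l
        rw [hF, hword, hx] at h1
        exact (ZMod.intCast_zmod_eq_zero_iff_dvd _ _).mp h1
      -- triangularity in the point and the level
      have hbinO : ∀ (B' : Option κ → ℕ) (p : (κ → ℕ) × ℕ),
          (bin B' (fun o => Option.elim o p.2 (fun x => p.1 x / M)) : ℤ) =
            (bin (fun x => B' (some x)) (fun x => p.1 x / M) : ℤ) *
              Ring.choose ((B' none : ℕ) : ℤ) p.2 := by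
        intro B' p
        rw [Ring.choose_natCast]
        unfold bin
        rw [Fintype.prod_option]
        push_cast
        simp only [Option.elim]
        ring
      refine dvd_of_values (κ := Option κ) T
        (fun p o => Option.elim o p.2 (fun x => p.1 x / M)) ?_ ρ D' ?_ ?_ p₀
        (mem_filter.mpr ⟨hp₀, hp₀b⟩)
      · intro p hp p' hp' he
        have h0 : p.2 = p'.2 := congrFun he none
        have h1 : p.1 = p'.1 := by
          funext x
          have h1 := (mem_filter.mp hp).2 x
          have h2 := (mem_filter.mp hp').2 x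
          have h3 : p.1 x / M = p'.1 x / M := congrFun he (some x)
          rw [← Nat.div_add_mod (p.1 x) M, ← Nat.div_add_mod (p'.1 x) M, h1, h2, h3]
        exact Prod.ext h1 h0
      · intro p hp
        rw [Fintype.sum_option]
        have := hTdeg p hp
        simp only [Option.elim]
        omega
      · intro B' hB'
        rw [Fintype.sum_option] at hB'
        have h1 := hall (fun x => B' (some x)) ((B' none : ℕ) : ℤ) (by omega)
        rw [hG] at h1
        simp only [hbinO]
        exact h1
  intro p hp
  exact key _ (fun x => p.1 x % M) (fun x => Nat.mod_lt _ hMpos) rfl p hp fun x => rfl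

/-- **Unisolvence**, integral coefficients. -/
theorem unisolveZ {M N n D h om L c : ℕ} (hM : M.Prime) (hN : 0 < N) (hMN : M ≤ N)
    (γ : Option κ → ℕ) (C : Cyc N h (fun x => M * γ x)) (hD : n ≤ (D + 1) * M)
    (hom : (D + 2) * h ≤ om) (homN : om ≤ N) (hL : n + M ≤ L) (ρ : (κ → ℕ) × ℕ → ℤ)
    (hz : ∀ A : κ → ℕ, tdeg A ≤ L → (c + wt γ L A) % N < om →
      ∑ p ∈ ixW κ N n, ρ p * (binW A ((c + wt γ L A) / N) p : ℤ) = 0) :
    ∀ p ∈ ixW κ N n, ρ p = 0 := by
  have key : ∀ j : ℕ, ∀ ρ : (κ → ℕ) × ℕ → ℤ,
      (∀ A : κ → ℕ, tdeg A ≤ L → (c + wt γ L A) % N < om →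
        ∑ p ∈ ixW κ N n, ρ p * (binW A ((c + wt γ L A) / N) p : ℤ) = 0) →
      ∀ p ∈ ixW κ N n, (M : ℤ) ^ j ∣ ρ p := by
    intro j
    induction j with
    | zero =>
      intro ρ _ p _
      rw [pow_zero]
      exact one_dvd _
    | succ j ih =>
      intro ρ hρ p hp
      have h1 := mod_stepZ hM hN hMN γ C hD hom homN hL ρ (fun A hA hA' => by
        rw [hρ A hA hA']
        exact dvd_zero _)
      have h2 := ih (fun p' => ρ p' / M) (fun A hA hA' => by
        have h3 := hρ A hA hA'
        have h4 : ∑ p' ∈ ixW κ N n, ρ p' * (binW A ((c + wt γ L A) / N) p' : ℤ) =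
            M * ∑ p' ∈ ixW κ N n, ρ p' / M * (binW A ((c + wt γ L A) / N) p' : ℤ) := by
          rw [mul_sum]
          refine sum_congr rfl fun p' hp' => ?_
          rw [← mul_assoc, Int.mul_ediv_cancel' (h1 p' hp')]
        rw [h4] at h3
        rcases mul_eq_zero.mp h3 with h5 | h5
        · exact absurd h5 (by exact_mod_cast hM.ne_zero)
        · exact h5) p hp
      rw [pow_succ', ← Int.mul_ediv_cancel' (h1 p hp)]
      exact mul_dvd_mul_left _ h2
  intro p hp
  by_contra hne
  have h1 := key ((ρ p).natAbs) ρ hz p hp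
  have h2 : M ^ (ρ p).natAbs ∣ (ρ p).natAbs := by
    have := Int.natAbs_dvd_natAbs.mpr h1
    rwa [Int.natAbs_pow, Int.natAbs_natCast] at this
  have h3 := Nat.le_of_dvd (Int.natAbs_pos.mpr hne) h2
  have h4 := Nat.lt_pow_self (n := (ρ p).natAbs) hM.one_lt
  omega

/-- W2: **unisolvence** with the level as a variable. -/
theorem unisolveW {K : Type*} [Fintype K] [DecidableEq K] (M n D N h om L c : ℕ) (hM : M.Prime)
    (hN : 0 < N) (hMN : M ≤ N) (g : Option K → ℕ) (C : Cyc N h (fun x => M * g x))
    (hD : n ≤ (D + 1) * M) (hDM : D + 1 ≤ M) (hom : (D + 2) * h ≤ om) (homN : om ≤ N)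
    (hL : n + M ≤ L) (ρ : (K → ℕ) × ℕ → ℚ)
    (hz : ∀ A : K → ℕ, tdeg A ≤ L → (c + wt g L A) % N < om →
      ∑ p ∈ ixW K N n, ρ p * (binW A ((c + wt g L A) / N) p : ℚ) = 0) :
    ∀ p ∈ ixW K N n, ρ p = 0 := by
  set d : ℕ := ∏ p ∈ ixW K N n, (ρ p).den with hd
  have hd0 : (d : ℚ) ≠ 0 := by
    rw [hd]
    push_cast
    exact prod_ne_zero_iff.mpr fun p _ => by exact_mod_cast (ρ p).den_nz
  have hint : ∀ p ∈ ixW K N n, ∃ r : ℤ, (r : ℚ) = d * ρ p := by
    intro p hp
    obtain ⟨e, he⟩ := dvd_prod_of_mem (fun p => (ρ p).den) hp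
    refine ⟨e * (ρ p).num, ?_⟩
    rw [← hd] at he
    rw [he]
    push_cast
    have := Rat.mul_den_eq_num (ρ p)
    rw [← this]
    ring
  choose! r hr using hint
  have h1 := unisolveZ hM hN hMN g C hD hom homN hL r (fun A hA hA' => by
    have h2 := hz A hA hA'
    have h3 : ((∑ p ∈ ixW K N n, r p * (binW A ((c + wt g L A) / N) p : ℤ) : ℤ) : ℚ) =
        d * ∑ p ∈ ixW K N n, ρ p * (binW A ((c + wt g L A) / N) p : ℚ) := by
      push_cast
      rw [mul_sum]
      refine sum_congr rfl fun p hp => ?_
      rw [hr p hp, mul_assoc]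
    rw [h2, mul_zero] at h3
    exact_mod_cast h3)
  intro p hp
  have h2 := hr p hp
  rw [h1 p hp, Int.cast_zero] at h2
  rcases mul_eq_zero.mp h2.symm with h3 | h3
  · exact absurd h3 hd0
  · exact h3

end Pool.Agent.Lib.AbcZW
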