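import Mathlib
import Pool.Agent.Lib.AbcZ.Classes
import Pool.Agent.Lib.AbcZ.Indep
import Pool.Agent.Lib.AbcZW.DefsW
import Pool.Agent.Lib.AbcZW.ExpandW
import Pool.Agent.Lib.AbcZW.UniW

/-!
# Independence of the rows, with the level as a variable
-/

namespace Pool.Agent.Lib.AbcZW

open Finset Pool.Agent.Lib.AbcZ

section Spaces

variable {K : Type*} [Fintype K] [DecidableEq K]

/-- rational combinations of the row functions of weight `< n` -/
def BW (K : Type*) [Fintype K] [DecidableEq K] (N n : ℕ) : Submodule ℚ ((K → ℕ) → ℕ → ℚ) :=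
  Submodule.span ℚ {f | ∃ p ∈ ixW K N n, f = fun A l => (binW A l p : ℚ)}

theorem binW_mem_BW {N n : ℕ} {p : (K → ℕ) × ℕ} (h : p ∈ ixW K N n) :
    (fun (A : K → ℕ) (l : ℕ) => (binW A l p : ℚ)) ∈ BW K N n :=
  Submodule.subset_span ⟨p, h, rfl⟩

theorem mem_BW_of {N n : ℕ} {f : (K → ℕ) → ℕ → ℚ} (ρ : (K → ℕ) × ℕ → ℚ)
    (h : ∀ A l, f A l = ∑ p ∈ ixW K N n, ρ p * (binW A l p : ℚ)) : f ∈ BW K N n := by
  have h1 : f = ∑ p ∈ ixW K N n, ρ p • (fun (A : K → ℕ) (l : ℕ) => (binW A l p : ℚ)) := by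
    funext A l
    rw [h, Finset.sum_apply, Finset.sum_apply]
    rfl
  rw [h1]
  exact Submodule.sum_mem _ fun p hp => Submodule.smul_mem _ _ (binW_mem_BW hp)

theorem exists_of_mem_BW {N n : ℕ} {f : (K → ℕ) → ℕ → ℚ} (h : f ∈ BW K N n) :
    ∃ ρ : (K → ℕ) × ℕ → ℚ, ∀ A l, f A l = ∑ p ∈ ixW K N n, ρ p * (binW A l p : ℚ) := by
  unfold BW at h
  induction h using Submodule.span_induction with
  | mem f hf =>
    obtain ⟨p, hp, rfl⟩ := hf
    refine ⟨fun q => if q = p then 1 else 0, ?_⟩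
    intro A l
    rw [Finset.sum_eq_single p]
    · simp
    · intro q _ hne
      simp only [if_neg hne, zero_mul]
    · intro h
      exact absurd hp h
  | zero => exact ⟨fun _ => 0, fun A l => by simp⟩
  | add f g _ _ hf hg =>
    obtain ⟨ρ, hρ⟩ := hf
    obtain ⟨σ, hσ⟩ := hg
    refine ⟨fun p => ρ p + σ p, fun A l => ?_⟩
    rw [Pi.add_apply, Pi.add_apply, hρ, hσ, ← Finset.sum_add_distrib]
    refine Finset.sum_congr rfl fun p _ => ?_
    ring
  | smul c f _ hf =>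
    obtain ⟨ρ, hρ⟩ := hf
    refine ⟨fun p => c * ρ p, fun A l => ?_⟩
    rw [Pi.smul_apply, Pi.smul_apply, hρ, smul_eq_mul, Finset.mul_sum]
    refine Finset.sum_congr rfl fun p _ => ?_
    ring

theorem BW_mono {N a b : ℕ} (hN : 0 < N) (h : a ≤ b) : BW K N a ≤ BW K N b := by
  unfold BW
  apply Submodule.span_mono
  rintro f ⟨p, hp, rfl⟩
  rw [mem_ixW hN] at hp
  exact ⟨p, (mem_ixW hN).2 (by omega), rfl⟩

theorem BW_linear {N n : ℕ} (V : Submodule ℚ ((K → ℕ) → ℕ → ℚ))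
    (T : ((K → ℕ) → ℕ → ℚ) →ₗ[ℚ] ((K → ℕ) → ℕ → ℚ))
    (h : ∀ p ∈ ixW K N n, T (fun A l => (binW A l p : ℚ)) ∈ V) {f : (K → ℕ) → ℕ → ℚ}
    (hf : f ∈ BW K N n) : T f ∈ V := by
  have h1 : BW K N n ≤ V.comap T := by
    unfold BW
    rw [Submodule.span_le]
    rintro g ⟨p, hp, rfl⟩
    exact h p hp
  exact h1 hf

theorem BW_mul {N a b : ℕ} (hN : 0 < N) {f g : (K → ℕ) → ℕ → ℚ} (hf : f ∈ BW K N a)
    (hg : g ∈ BW K N b) : (fun A l => f A l * g A l) ∈ BW K N (a + b) := by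
  have key : ∀ p ∈ ixW K N a, ∀ q ∈ ixW K N b,
      (fun (A : K → ℕ) (l : ℕ) => (binW A l p : ℚ) * (binW A l q : ℚ)) ∈ BW K N (a + b) := by
    intro p hp q hq
    rw [mem_ixW hN] at hp hq
    obtain ⟨c, hc⟩ := binW_mul hN p q (a + b) (by omega)
    refine mem_BW_of (fun γ => (c γ : ℚ)) fun A l => ?_
    have h2 := congrArg (fun x : ℕ => (x : ℚ)) (hc A l)
    push_cast at h2
    exact h2
  have h1 : ∀ p ∈ ixW K N a, (fun (A : K → ℕ) (l : ℕ) => (binW A l p : ℚ) * g A l) ∈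
      BW K N (a + b) := by
    intro p hp
    let T : ((K → ℕ) → ℕ → ℚ) →ₗ[ℚ] ((K → ℕ) → ℕ → ℚ) :=
      { toFun := fun g A l => (binW A l p : ℚ) * g A l
        map_add' := fun g g' => by
          funext A l
          simp only [Pi.add_apply]
          ring
        map_smul' := fun c g => by
          funext A l
          simp only [Pi.smul_apply, smul_eq_mul, RingHom.id_apply]
          ring }
    exact BW_linear _ T (fun q hq => key p hp q hq) hg
  let T : ((K → ℕ) → ℕ → ℚ) →ₗ[ℚ] ((K → ℕ) → ℕ → ℚ) :=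
    { toFun := fun f A l => f A l * g A l
      map_add' := fun f f' => by
        funext A l
        simp only [Pi.add_apply]
        ring
      map_smul' := fun c f => by
        funext A l
        simp only [Pi.smul_apply, smul_eq_mul, RingHom.id_apply]
        ring }
  exact BW_linear _ T (fun p hp => h1 p hp) hf

theorem BW_shift {N a : ℕ} (hN : 0 < N) {f : (K → ℕ) → ℕ → ℚ} (hf : f ∈ BW K N a) (k : K) :
    (fun A l => f (A + uv (some k)) l) ∈ BW K N a := by
  let T : ((K → ℕ) → ℕ → ℚ) →ₗ[ℚ] ((K → ℕ) → ℕ → ℚ) :=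
    { toFun := fun f A l => f (A + uv (some k)) l
      map_add' := fun f f' => rfl
      map_smul' := fun c f => rfl }
  refine BW_linear _ T (fun p hp => ?_) hf
  have h1 : T (fun A l => (binW A l p : ℚ)) = (fun (A : K → ℕ) (l : ℕ) => (binW A l p : ℚ)) +
      if p.1 k = 0 then 0 else (fun (A : K → ℕ) (l : ℕ) =>
        (binW A l (Function.update p.1 k (p.1 k - 1), p.2) : ℚ)) := by
    funext A l
    show (binW (A + uv (some k)) l p : ℚ) = _
    unfold binW
    push_cast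
    rw [bin_shift]
    by_cases h : p.1 k = 0
    · simp [h]
    · rw [if_neg h, if_neg h, add_mul]
      rfl
  rw [h1]
  refine Submodule.add_mem _ (binW_mem_BW hp) ?_
  by_cases h : p.1 k = 0
  · rw [if_pos h]
    exact Submodule.zero_mem _
  · rw [if_neg h]
    refine binW_mem_BW ?_
    rw [mem_ixW hN] at hp ⊢
    have := tdeg_update_lt h
    show tdeg (Function.update p.1 k (p.1 k - 1)) + N * p.2 < a
    omega

theorem BW_fix {N n : ℕ} (hN : 0 < N) {f : (K → ℕ) → ℕ → ℚ} (hf : f ∈ BW K N n) (l : ℕ) :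
    (fun A => f A l) ∈ Bq K n := by
  obtain ⟨ρ, hρ⟩ := exists_of_mem_BW hf
  have h1 : (fun A => f A l) = ∑ p ∈ ixW K N n, (ρ p * (l.choose p.2 : ℚ)) •
      (fun A : K → ℕ => (bin A p.1 : ℚ)) := by
    funext A
    rw [hρ, Finset.sum_apply]
    refine Finset.sum_congr rfl fun p _ => ?_
    rw [Pi.smul_apply, smul_eq_mul]
    unfold binW
    push_cast
    ring
  rw [h1]
  refine Submodule.sum_mem _ fun p hp => Submodule.smul_mem _ _ (bin_mem_Bq ?_)
  rw [mem_ixW hN] at hp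
  omega

/-- a function in `BW K N n` vanishing on the window is zero -/
theorem zero_of_windowW (M n D N h om L c : ℕ) (hM : M.Prime)
    (hN : 0 < N) (hMN : M ≤ N) (g : Option K → ℕ) (C : Cyc N h (fun x => M * g x))
    (hD : n ≤ (D + 1) * M) (hDM : D + 1 ≤ M) (hom : (D + 2) * h ≤ om) (homN : om ≤ N)
    (hL : n + M ≤ L) (f : (K → ℕ) → ℕ → ℚ) (hf : f ∈ BW K N n)
    (hz : ∀ A : K → ℕ, tdeg A ≤ L → (c + wt g L A) % N < om →
      f A ((c + wt g L A) / N) = 0) : ∀ A l, f A l = 0 := by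
  obtain ⟨ρ, hρ⟩ := exists_of_mem_BW hf
  have h1 := unisolveW M n D N h om L c hM hN hMN g C hD hDM hom homN hL ρ
    (fun A hA hw => by rw [← hρ]; exact hz A hA hw)
  intro A l
  rw [hρ]
  exact Finset.sum_eq_zero fun p hp => by rw [h1 p hp, zero_mul]

end Spaces

/-- **independence of the rows** -/
theorem indepW {K : Type*} [Fintype K] [DecidableEq K] (M n D N h L : ℕ) (hM : M.Prime)
    (hN : 0 < N) (hMN : M ≤ N) (g : Option K → ℕ) (C : Cyc N h (fun x => M * g x))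
    (k1 : K) (hg : g none < g (some k1)) (hh : (D + 2) * h + (g (some k1) - g none) ≤ N)
    (N1 N2 : ℕ) (hn : N1 + N2 ≤ n) (hnm : n ≤ (D + 1) * M) (hDM : D + 1 ≤ M) (hL : n + M ≤ L)
    (a : (K → ℕ) → ℚ) (om : ℚ) (hom : om ≠ 1) (ha0 : ∀ A, tdeg A ≤ L + 1 → a A ≠ 0)
    (ha : ∀ A, tdeg A ≤ L → wt g (L + 1) A % N + (g (some k1) - g none) < N →
      a (A + uv (some k1)) = om * a A)
    (c d : (K → ℕ) × ℕ → ℚ)
    (hz : ∀ A, tdeg A ≤ L + 1 → ∑ p ∈ ixW K N N1, c p * (binW A (wt g (L + 1) A / N) p : ℚ) +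
      (∑ p ∈ ixW K N N2, d p * (binW A (wt g (L + 1) A / N) p : ℚ)) * a A = 0) :
    (∀ p ∈ ixW K N N1, c p = 0) ∧ ∀ p ∈ ixW K N N2, d p = 0 := by
  obtain ⟨R1, hR1d⟩ : ∃ R : (K → ℕ) → ℕ → ℚ, ∀ A l, R A l =
    ∑ p ∈ ixW K N N1, c p * (binW A l p : ℚ) := ⟨_, fun _ _ => rfl⟩
  obtain ⟨R2, hR2d⟩ : ∃ R : (K → ℕ) → ℕ → ℚ, ∀ A l, R A l =
    ∑ p ∈ ixW K N N2, d p * (binW A l p : ℚ) := ⟨_, fun _ _ => rfl⟩
  have hR1 : R1 ∈ BW K N N1 := mem_BW_of c hR1d
  have hR2 : R2 ∈ BW K N N2 := mem_BW_of d hR2d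
  have hz' : ∀ A, tdeg A ≤ L + 1 → R1 A (wt g (L + 1) A / N) +
      R2 A (wt g (L + 1) A / N) * a A = 0 := by
    intro A hA
    rw [hR1d, hR2d]
    exact hz A hA
  obtain ⟨G, hG⟩ : ∃ G, G = g (some k1) - g none := ⟨_, rfl⟩
  rw [← hG] at hh ha
  have hP : ∀ A l, R1 (A + uv (some k1)) l * R2 A l - om * (R1 A l * R2 (A + uv (some k1)) l) =
      0 := by
    refine zero_of_windowW M n D N h (N - G) L (g none) hM hN hMN g C hnm hDM (by omega)
      (Nat.sub_le _ _) hL
      (fun A l => R1 (A + uv (some k1)) l * R2 A l - om * (R1 A l * R2 (A + uv (some k1)) l)) ?_ ?_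
    · have m1 := BW_mul hN (BW_shift hN hR1 k1) hR2
      have m2 := BW_mul hN hR1 (BW_shift hN hR2 k1)
      have m3 := Submodule.sub_mem _ m1 (Submodule.smul_mem _ om m2)
      exact BW_mono hN hn m3
    · intro A hA hw
      rw [← wt_succ' g L A hA] at hw ⊢
      have hw' : wt g (L + 1) A % N + G < N := by omega
      have e1 := hz' A (by omega)
      have e2 := hz' (A + uv (some k1)) (by rw [tdeg_add_uv]; omega)
      have e3 : wt g (L + 1) (A + uv (some k1)) / N = wt g (L + 1) A / N := by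
        rw [wt_add_uv g L A k1 hA hg.le, ← hG]
        have h1 := Nat.div_add_mod (wt g (L + 1) A) N
        have h2 : wt g (L + 1) A + G = (wt g (L + 1) A % N + G) +
          N * (wt g (L + 1) A / N) := by omega
        rw [h2, Nat.add_mul_div_left _ _ hN, Nat.div_eq_of_lt hw', zero_add]
      rw [e3, ha A hA hw'] at e2
      obtain ⟨l, hl⟩ : ∃ l, l = wt g (L + 1) A / N := ⟨_, rfl⟩
      rw [← hl] at e1 e2 ⊢
      have e1' : R1 A l = - (R2 A l * a A) := by linarith
      have e2' : R1 (A + uv (some k1)) l = - (R2 (A + uv (some k1)) l * (om * a A)) := by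
        linarith
      rw [e1', e2']
      ring
  have hprod : ∀ A l, R1 A l * R2 A l = 0 := by
    intro A l
    obtain ⟨r1, hr1⟩ := Bq_line (BW_fix hN hR1 l) k1 A
    obtain ⟨r2, hr2⟩ := Bq_line (BW_fix hN hR2 l) k1 A
    have hl := line_zero r1 r2 om hom (fun x => by
      have := hP (A + x • uv (some k1)) l
      have e : A + x • uv (some k1) + uv (some k1) = A + (x + 1) • uv (some k1) := by
        rw [add_assoc, succ_nsmul]
      rw [e, hr1, hr2, hr1, hr2] at this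
      push_cast at this
      linarith)
    have := congrArg (fun p => Polynomial.eval 0 p) hl
    simp only [Polynomial.eval_mul, Polynomial.eval_zero] at this
    have h1' := hr1 0
    have h2' := hr2 0
    simp only [zero_smul, add_zero, Nat.cast_zero] at h1' h2'
    rw [h1', h2']
    exact this
  have hS : ∀ A, tdeg A ≤ L → R1 A ((g none + wt g L A) / N) = 0 ∧
      R2 A ((g none + wt g L A) / N) = 0 := by
    intro A hA
    rw [← wt_succ' g L A hA]
    have e := hz' A (by omega)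
    rcases mul_eq_zero.mp (hprod A (wt g (L + 1) A / N)) with h0 | h0
    · rw [h0, zero_add] at e
      exact ⟨h0, (mul_eq_zero.mp e).resolve_right (ha0 A (by omega))⟩
    · rw [h0, zero_mul, add_zero] at e
      exact ⟨e, h0⟩
  have hfin : ∀ (N3 : ℕ) (hN3 : N3 ≤ n) (e : (K → ℕ) × ℕ → ℚ) (R : (K → ℕ) → ℕ → ℚ),
      (∀ A l, R A l = ∑ p ∈ ixW K N N3, e p * (binW A l p : ℚ)) →
      (∀ A, tdeg A ≤ L → R A ((g none + wt g L A) / N) = 0) → ∀ p ∈ ixW K N N3, e p = 0 := by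
    intro N3 hN3 e R hR hRz p hp
    classical
    have hsub : ixW K N N3 ⊆ ixW K N n := by
      intro q hq
      rw [mem_ixW hN] at hq ⊢
      omega
    have h1 := unisolveW M n D N h N L (g none) hM hN hMN g C hnm hDM (by omega) le_rfl hL
      (fun q => if q ∈ ixW K N N3 then e q else 0) (fun A hA _ => by
        refine Eq.trans ?_ (hRz A hA)
        rw [hR]
        symm
        rw [← Finset.sum_subset hsub (f := fun q => (if q ∈ ixW K N N3 then e q else 0) *
          (binW A ((g none + wt g L A) / N) q : ℚ))]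
        · exact Finset.sum_congr rfl fun q hq => by rw [if_pos hq]
        · intro q _ hq
          rw [if_neg hq, zero_mul]) p (hsub hp)
    simpa only [if_pos hp] using h1
  exact ⟨hfin N1 (by omega) c R1 hR1d fun A hA => (hS A hA).1,
    hfin N2 (by omega) d R2 hR2d fun A hA => (hS A hA).2⟩

end Pool.Agent.Lib.AbcZW
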