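import Mathlib
import Pool.Agent.Lib.AbcZ.Det
import Pool.Agent.Lib.AbcZW.DefsW
import Pool.Agent.Lib.AbcZW.ExpandW
import Pool.Agent.Lib.AbcZW.IndepW
import Pool.Agent.Lib.AbcZW.CountW

/-!
# Theorem W: the determinant inequality
-/

namespace Pool.Agent.Lib.AbcZW

open Finset Pool.Agent.Lib.AbcZ

/-- the weight of a point of degree at most `L` -/
theorem wt_le_mul {K : Type*} [Fintype K] [DecidableEq K] (g : Option K → ℕ) (N L : ℕ)
    (hgN : ∀ x, g x ≤ N) (A : K → ℕ) (hA : tdeg A ≤ L) : wt g L A ≤ N * L := by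
  unfold wt
  calc ∑ x, g (some x) * A x + g none * (L - tdeg A) ≤
      ∑ x, N * A x + N * (L - tdeg A) :=
        Nat.add_le_add (Finset.sum_le_sum fun x _ => Nat.mul_le_mul_right _ (hgN _))
          (Nat.mul_le_mul_right _ (hgN _))
    _ = N * (tdeg A + (L - tdeg A)) := by
        rw [← Finset.mul_sum, Nat.mul_add]
        rfl
    _ = N * L := by rw [Nat.add_sub_cancel' hA]

theorem coreW {K : Type} [Fintype K] [DecidableEq K] (E N J L N1 N2 n D M h : ℕ) (hM : M.Prime)
    (hN : 0 < N) (hMN : M ≤ N) (g : Option K → ℕ) (hgN : ∀ x, g x ≤ N)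
    (C : Cyc N h (fun x => M * g x)) (k1 : K) (hg : g none < g (some k1))
    (hh : (D + 2) * h + (g (some k1) - g none) ≤ N) (hN1 : N1 = N * J + N2) (hn : N1 + N2 ≤ n)
    (hnm : n ≤ (D + 1) * M) (hDM : D + 1 ≤ M) (hL : n + M ≤ L) (a : (K → ℕ) → ℤ)
    (ha0 : ∀ A, a A ≠ 0) (om : ℚ) (hom : om ≠ 1)
    (ha : ∀ A, tdeg A ≤ L → wt g (L + 1) A % N + (g (some k1) - g none) < N →
      (a (A + uv (some k1)) : ℚ) = om * a A)
    (y : Option K → ZMod (E ^ (N * J))) (t : K → ZMod (E ^ (N * J)))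
    (ht : ∀ x, y (some x) = y none + E * t x) (z w V : ZMod (E ^ (N * J)))
    (hz : z = 1 + E ^ N * w)
    (hmod : ∀ A, tdeg A ≤ L + 1 → (a A : ZMod (E ^ (N * J))) =
      V * z ^ (wt g (L + 1) A / N) * (y none ^ (L + 1 - tdeg A) * ∏ x, y (some x) ^ A x))
    (Am : ℕ) (hAm : ∀ A, tdeg A ≤ L + 1 → |a A| ≤ (Am : ℤ)) :
    (E ^ (N * J)) ^ (ixW K N N2).card ≤
      ((ixW K N N1).card + (ixW K N N2).card).factorial *
      (2 ^ (2 * (L + 1))) ^ (ixW K N N1).card * (2 ^ (2 * (L + 1)) * Am) ^ (ixW K N N2).card := by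
  classical
  subst hN1
  have hlev : ∀ A : K → ℕ, tdeg A ≤ L + 1 → wt g (L + 1) A / N ≤ L + 1 := fun A hA =>
    Nat.div_le_of_le_mul (wt_le_mul g N (L + 1) hgN A hA)
  have hexp : ∀ α : (K → ℕ) × ℕ, α ∈ ixW K N N2 → ∃ lam : (K → ℕ) × ℕ → ℤ,
      ∀ (A : K → ℕ) (l : ℕ), tdeg A ≤ L + 1 →
      (binW A l α : ZMod (E ^ (N * J))) *
        (V * z ^ l * (y none ^ (L + 1 - tdeg A) * ∏ x, y (some x) ^ A x)) =
        ∑ β ∈ ixW K N (N * J + N2), (lam β : ZMod (E ^ (N * J))) * (binW A l β : ZMod _) :=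
    fun α hα => expandW E N J (L + 1) N2 hN y t ht z w hz V α ((mem_ixW hN).mp hα)
  choose! lam hlam using hexp
  have hdet := det_bound (ρ1 := {β // β ∈ ixW K N (N * J + N2)}) (ρ2 := {α // α ∈ ixW K N N2})
    (S := {A // A ∈ ix K (L + 2)})
    (fun β A => (binW A.1 (wt g (L + 1) A.1 / N) β.1 : ℤ))
    (fun α A => (binW A.1 (wt g (L + 1) A.1 / N) α.1 : ℤ) * a A.1)
    (fun α β => lam α.1 β.1) (E ^ (N * J)) (2 ^ (2 * (L + 1))) (2 ^ (2 * (L + 1)) * Am)
    (by
      intro α A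
      have hA1 : tdeg A.1 ≤ L + 1 := by
        have := mem_ix.mp A.2
        omega
      have h3 := hlam α.1 α.2 A.1 (wt g (L + 1) A.1 / N) hA1
      rw [← hmod A.1 hA1] at h3
      have h4 : ((((binW A.1 (wt g (L + 1) A.1 / N) α.1 : ℤ) * a A.1 -
          ∑ β : {β // β ∈ ixW K N (N * J + N2)},
          lam α.1 β.1 * (binW A.1 (wt g (L + 1) A.1 / N) β.1 : ℤ) : ℤ)) :
            ZMod (E ^ (N * J))) = 0 := by
        push_cast
        rw [h3, sub_eq_zero]
        exact (sum_coe_sort (ixW K N (N * J + N2))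
          (fun β => (lam α.1 β : ZMod (E ^ (N * J))) *
            (binW A.1 (wt g (L + 1) A.1 / N) β : ZMod (E ^ (N * J))))).symm
      exact (ZMod.intCast_zmod_eq_zero_iff_dvd _ _).mp h4)
    (by
      intro β A
      have hA1 : tdeg A.1 ≤ L + 1 := by
        have := mem_ix.mp A.2
        omega
      rw [abs_of_nonneg (Int.natCast_nonneg _)]
      exact_mod_cast binW_le A.1 _ (L + 1) β.1 hA1 (hlev A.1 hA1))
    (by
      intro α A
      have hA1 : tdeg A.1 ≤ L + 1 := by
        have := mem_ix.mp A.2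
        omega
      rw [abs_mul, abs_of_nonneg (Int.natCast_nonneg _)]
      push_cast
      have h3 : (binW A.1 (wt g (L + 1) A.1 / N) α.1 : ℤ) ≤ 2 ^ (2 * (L + 1)) := by
        exact_mod_cast binW_le A.1 _ (L + 1) α.1 hA1 (hlev A.1 hA1)
      exact mul_le_mul h3 (hAm A.1 hA1) (abs_nonneg _) (by positivity))
    (by
      intro c d hcd
      set c' : (K → ℕ) × ℕ → ℚ := fun β =>
        if h : β ∈ ixW K N (N * J + N2) then c ⟨β, h⟩ else 0 with hc'
      set d' : (K → ℕ) × ℕ → ℚ := fun α => if h : α ∈ ixW K N N2 then d ⟨α, h⟩ else 0 with hd'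
      have hcsum : ∀ (A : K → ℕ) (l : ℕ),
          ∑ β : {β // β ∈ ixW K N (N * J + N2)}, c β * (binW A l β.1 : ℚ) =
          ∑ β ∈ ixW K N (N * J + N2), c' β * (binW A l β : ℚ) := by
        intro A l
        rw [← sum_coe_sort (ixW K N (N * J + N2)) (fun β => c' β * (binW A l β : ℚ))]
        refine sum_congr rfl fun β _ => ?_
        rw [hc']
        simp only [β.2, dif_pos]
      have hdsum : ∀ (A : K → ℕ) (l : ℕ),
          ∑ α : {α // α ∈ ixW K N N2}, d α * (binW A l α.1 : ℚ) =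
          ∑ α ∈ ixW K N N2, d' α * (binW A l α : ℚ) := by
        intro A l
        rw [← sum_coe_sort (ixW K N N2) (fun α => d' α * (binW A l α : ℚ))]
        refine sum_congr rfl fun α _ => ?_
        rw [hd']
        simp only [α.2, dif_pos]
      have hind := indepW M n D N h L hM hN hMN g C k1 hg hh (N * J + N2) N2 hn hnm hDM hL
        (fun A => (a A : ℚ)) om hom (fun A _ => by exact_mod_cast ha0 A) ha c' d' (by
          intro A hA1
          have h3 := hcd ⟨A, mem_ix.mpr (by omega)⟩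
          push_cast at h3
          have h4 : ∑ α : {α // α ∈ ixW K N N2},
              d α * ((binW A (wt g (L + 1) A / N) α.1 : ℚ) * (a A : ℚ)) =
              (∑ α : {α // α ∈ ixW K N N2}, d α * (binW A (wt g (L + 1) A / N) α.1 : ℚ)) *
                (a A : ℚ) := by
            rw [sum_mul]
            exact sum_congr rfl fun α _ => by ring
          rw [h4, hcsum, hdsum] at h3
          exact h3)
      refine ⟨fun β => ?_, fun α => ?_⟩
      · have h3 := hind.1 β.1 β.2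
        rw [hc'] at h3
        simpa only [β.2, dif_pos] using h3
      · have h3 := hind.2 α.1 α.2
        rw [hd'] at h3
        simpa only [α.2, dif_pos] using h3)
  simpa only [Fintype.card_coe] using hdet

end Pool.Agent.Lib.AbcZW
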