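import Pool.Agent.Lib.AbcZ.Numbers

/-!
# The congruence of the numbers, composite modulus, no window

The numbers `a A = s ^ l * ∏ b x ^ A x * ∏ l i ^ (v i + Ex A i)`, `l` the level of `A`, are modulo
`E ^ (N * J)` equal to `V * z ^ l * ∏ y x ^ A x` with `y (some x) = y none + E * t x` and
`z = 1 + E ^ N * w`.
-/

set_option autoImplicit false

namespace Pool.Agent.Lib.AbcZW

open Finset Pool.Agent.AbcE Pool.Agent.Lib.AbcZ Pool.Agent.Lib.AbcZ.Num

theorem numbersW_cong {ι : Type*} [Fintype ι] {K : Type*} [Fintype K] [DecidableEq K] (l : ι → ℕ)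
    (E : ℕ) (hcop : ∀ i, (l i).Coprime E) (e : ι → ℤ)
    (N J Lam : ℕ) (s : ℤ)
    (hdvd : ((E ^ N : ℕ) : ℤ) ∣ (posP l e : ℤ) - s * negP l e) (g b : Option K → ℕ)
    (hcong : ∀ x, (E : ℤ) ∣
      (b x : ℤ) * posP l (fun i => ((g x : ℤ) * e i) / N - ((g none : ℤ) * e i) / N) -
        b none * negP l (fun i => ((g x : ℤ) * e i) / N - ((g none : ℤ) * e i) / N))
    (v : ι → ℤ) (hnn : ∀ A, tdeg A ≤ Lam → ∀ i, 0 ≤ v i + Ex e N Lam g A i) :
    ∃ (y : Option K → ZMod (E ^ (N * J))) (z w V : ZMod (E ^ (N * J)))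
      (t : K → ZMod (E ^ (N * J))), (∀ x, y (some x) = y none + E * t x) ∧
      z = 1 + E ^ N * w ∧
      ∀ A, tdeg A ≤ Lam → ((s ^ (wt g Lam A / N) * (∏ x, (b x : ℤ) ^ ax Lam A x) *
        ∏ i, (l i : ℤ) ^ (v i + Ex e N Lam g A i).toNat : ℤ) : ZMod (E ^ (N * J))) =
        V * z ^ (wt g Lam A / N) * (y none ^ (Lam - tdeg A) * ∏ x, y (some x) ^ A x) := by
  have hcopN : ∀ i, (l i).Coprime (E ^ (N * J)) := fun i => (hcop i).pow_right (N * J)
  let U : ι → (ZMod (E ^ (N * J)))ˣ := fun i => ZMod.unitOfCoprime (l i) (hcopN i)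
  have hU : ∀ i, ((U i : (ZMod (E ^ (N * J)))ˣ) : ZMod (E ^ (N * J))) =
      (l i : ZMod (E ^ (N * J))) := fun i => ZMod.coe_unitOfCoprime _ _
  have hposU : ∀ f : ι → ℤ, (((∏ i, U i ^ (f i).toNat : (ZMod (E ^ (N * J)))ˣ)) :
      ZMod (E ^ (N * J))) = (posP l f : ZMod (E ^ (N * J))) := by
    intro f
    unfold posP
    push_cast
    exact Finset.prod_congr rfl fun i _ => by rw [hU]
  have hnegU : ∀ f : ι → ℤ, (((∏ i, U i ^ (-f i).toNat : (ZMod (E ^ (N * J)))ˣ)) :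
      ZMod (E ^ (N * J))) = (negP l f : ZMod (E ^ (N * J))) := by
    intro f
    unfold negP
    push_cast
    exact Finset.prod_congr rfl fun i _ => by rw [hU]
  obtain ⟨c0, hc0⟩ := hdvd
  set P0 : (ZMod (E ^ (N * J)))ˣ := ∏ i, U i ^ (e i).toNat with hP0
  set N0 : (ZMod (E ^ (N * J)))ˣ := ∏ i, U i ^ (-e i).toNat with hN0
  have hz0 : (s : ZMod (E ^ (N * J))) * (N0 : ZMod (E ^ (N * J))) =
      (P0 : ZMod (E ^ (N * J))) - (E : ZMod (E ^ (N * J))) ^ N * (c0 : ZMod (E ^ (N * J))) := by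
    rw [hP0, hN0, hnegU e, hposU e]
    have := congrArg (fun z : ℤ => (z : ZMod (E ^ (N * J)))) hc0
    push_cast at this
    linear_combination -this
  have hme : (mon U e)⁻¹ = N0 * P0⁻¹ := by
    have h1 : mon U e * N0 = P0 := mon_split U e
    rw [← h1, mul_inv_rev, mul_inv_cancel_left]
  let yv : Option K → ZMod (E ^ (N * J)) := fun x => (b x : ZMod (E ^ (N * J))) *
    ((mon U (fun i => (g x : ℤ) * e i / N) : (ZMod (E ^ (N * J)))ˣ) : ZMod (E ^ (N * J)))
  have hex : ∀ x : K, ∃ c : ℤ, (b (some x) : ℤ) *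
      posP l (fun i => ((g (some x) : ℤ) * e i) / N - ((g none : ℤ) * e i) / N) -
      b none * negP l (fun i => ((g (some x) : ℤ) * e i) / N - ((g none : ℤ) * e i) / N) =
        E * c := fun x => hcong (some x)
  choose c hc using hex
  refine ⟨yv, (s : ZMod (E ^ (N * J))) * (((mon U e)⁻¹ : (ZMod (E ^ (N * J)))ˣ) :
      ZMod (E ^ (N * J))),
    -((c0 : ZMod (E ^ (N * J))) * ((P0⁻¹ : (ZMod (E ^ (N * J)))ˣ) : ZMod (E ^ (N * J)))),
    ((mon U v : (ZMod (E ^ (N * J)))ˣ) : ZMod (E ^ (N * J))),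
    fun x => (c x : ZMod (E ^ (N * J))) * (((mon U (fun i => (g none : ℤ) * e i / N)) *
      (∏ i, U i ^ (-(((g (some x) : ℤ) * e i) / N - ((g none : ℤ) * e i) / N)).toNat)⁻¹ :
        (ZMod (E ^ (N * J)))ˣ) : ZMod (E ^ (N * J))), ?_, ?_, ?_⟩
  · intro x
    set D : ι → ℤ := fun i => ((g (some x) : ℤ) * e i) / N - ((g none : ℤ) * e i) / N with hD
    set P : (ZMod (E ^ (N * J)))ˣ := ∏ i, U i ^ (D i).toNat with hP
    set Ng : (ZMod (E ^ (N * J)))ˣ := ∏ i, U i ^ (-D i).toNat with hNg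
    set U0 : (ZMod (E ^ (N * J)))ˣ := mon U (fun i => (g none : ℤ) * e i / N) with hU0
    have h1 : mon U D * Ng = P := mon_split U D
    have h2 : mon U (fun i => (g (some x) : ℤ) * e i / N) = U0 * mon U D := by
      rw [hU0, ← mon_add]
      congr 1
      funext i
      rw [hD]
      ring
    have h3 : mon U D = P * Ng⁻¹ := by rw [← h1, mul_inv_cancel_right]
    have h4 : (b (some x) : ZMod (E ^ (N * J))) * (P : ZMod (E ^ (N * J))) =
        (b none : ZMod (E ^ (N * J))) * (Ng : ZMod (E ^ (N * J))) +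
          (E : ZMod (E ^ (N * J))) * (c x) := by
      rw [hP, hNg, hnegU D, hposU D]
      have := congrArg (fun z : ℤ => (z : ZMod (E ^ (N * J)))) (hc x)
      push_cast at this
      rw [← this]
      ring
    have h5 : (Ng : ZMod (E ^ (N * J))) * ((Ng⁻¹ : (ZMod (E ^ (N * J)))ˣ) : ZMod (E ^ (N * J))) =
        1 := by
      rw [← Units.val_mul, mul_inv_cancel, Units.val_one]
    change (b (some x) : ZMod (E ^ (N * J))) * ((mon U (fun i => (g (some x) : ℤ) * e i / N) :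
      (ZMod (E ^ (N * J)))ˣ) : ZMod (E ^ (N * J))) =
      (b none : ZMod (E ^ (N * J))) * (U0 : ZMod (E ^ (N * J))) + (E : ZMod (E ^ (N * J))) *
        ((c x : ZMod (E ^ (N * J))) * ((U0 * Ng⁻¹ : (ZMod (E ^ (N * J)))ˣ) : ZMod (E ^ (N * J))))
    rw [h2, h3]
    simp only [Units.val_mul]
    linear_combination (U0 : ZMod (E ^ (N * J))) *
      ((Ng⁻¹ : (ZMod (E ^ (N * J)))ˣ) : ZMod (E ^ (N * J))) * h4 +
      (b none : ZMod (E ^ (N * J))) * (U0 : ZMod (E ^ (N * J))) * h5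
  · rw [hme, Units.val_mul]
    have h5 : (P0 : ZMod (E ^ (N * J))) * ((P0⁻¹ : (ZMod (E ^ (N * J)))ˣ) : ZMod (E ^ (N * J))) =
        1 := by
      rw [← Units.val_mul, mul_inv_cancel, Units.val_one]
    linear_combination ((P0⁻¹ : (ZMod (E ^ (N * J)))ˣ) : ZMod (E ^ (N * J))) * hz0 + h5
  · intro A hA
    have h1 : mon U (fun i => v i + Ex e N Lam g A i) = mon U v *
        ((∏ x, mon U (fun i => (g x : ℤ) * e i / N) ^ ax Lam A x) *
          (mon U e ^ (wt g Lam A / N))⁻¹) := by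
      rw [mon_add U v (Ex e N Lam g A), ← mon_smul, ← mon_sum, ← mon_sub]
      rfl
    have h2 : ∏ i, (l i : ZMod (E ^ (N * J))) ^ (v i + Ex e N Lam g A i).toNat =
        ((mon U (fun i => v i + Ex e N Lam g A i) : (ZMod (E ^ (N * J)))ˣ) :
          ZMod (E ^ (N * J))) := by
      rw [mon_nat U _ (hnn A hA)]
      push_cast
      simp only [hU]
    push_cast
    rw [h2, h1]
    have h4 : yv none ^ (Lam - tdeg A) * ∏ x, yv (some x) ^ A x =
        (∏ x, (b x : ZMod (E ^ (N * J))) ^ ax Lam A x) *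
        ((∏ x, mon U (fun i => (g x : ℤ) * e i / N) ^ ax Lam A x : (ZMod (E ^ (N * J)))ˣ) :
          ZMod (E ^ (N * J))) := by
      have h5 : yv none ^ (Lam - tdeg A) * ∏ x, yv (some x) ^ A x = ∏ x, yv x ^ ax Lam A x := by
        rw [Fintype.prod_option]
        rfl
      rw [h5]
      push_cast
      rw [← Finset.prod_mul_distrib]
      exact Finset.prod_congr rfl fun x _ => mul_pow _ _ _
    rw [h4, mul_pow, ← Units.val_pow_eq_pow_val, inv_pow]
    simp only [Units.val_mul]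
    ring

end Pool.Agent.Lib.AbcZW
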