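import Pool.Agent.Lib.AbcZ.Numbers
import Pool.Agent.Lib.AbcZW.NumCongW

/-!
# The numbers of the interpolation determinant, composite modulus, no window
-/

set_option autoImplicit false

namespace Pool.Agent.Lib.AbcZW

open Finset Pool.Agent.AbcE Pool.Agent.Lib.AbcZ Pool.Agent.Lib.AbcZ.Num

theorem numbersW {ι : Type*} [Fintype ι] {K : Type*} [Fintype K] [DecidableEq K] (l : ι → ℕ)
    (hl : ∀ i, 0 < l i) (E : ℕ) (hE : 1 < E) (hcop : ∀ i, (l i).Coprime E) (e : ι → ℤ)
    (N J Q H Lam : ℕ) (hN : 0 < N) (hQ : 0 < Q) (s : ℤ) (hs : s = 1 ∨ s = -1)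
    (hdvd : ((E ^ N : ℕ) : ℤ) ∣ (posP l e : ℤ) - s * negP l e) (g b : Option K → ℕ)
    (hb : ∀ x, 1 ≤ b x ∧ b x ≤ H)
    (hbox : ∀ x i, |((g x : ℤ) * e i) % N - ((g none : ℤ) * e i) % N| * Q < N)
    (hcong : ∀ x, (E : ℤ) ∣
      (b x : ℤ) * posP l (fun i => ((g x : ℤ) * e i) / N - ((g none : ℤ) * e i) / N) -
        b none * negP l (fun i => ((g x : ℤ) * e i) / N - ((g none : ℤ) * e i) / N)) :
    ∃ a : (K → ℕ) → ℤ, (∀ A, a A ≠ 0) ∧
      (∀ A, tdeg A ≤ Lam → Real.log |(a A : ℝ)| ≤ Lam * Real.log H +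
        (Real.log (posP l e) + Real.log (negP l e)) + (2 * Lam / Q + 1) * ∑ i, Real.log (l i)) ∧
      (∃ (y : Option K → ZMod (E ^ (N * J))) (z w V : ZMod (E ^ (N * J)))
        (t : K → ZMod (E ^ (N * J))), (∀ x, y (some x) = y none + E * t x) ∧
        z = 1 + E ^ N * w ∧
        ∀ A, tdeg A ≤ Lam → (a A : ZMod (E ^ (N * J))) =
          V * z ^ (wt g Lam A / N) * (y none ^ (Lam - tdeg A) * ∏ x, y (some x) ^ A x)) ∧
      ∀ k1 : K, g none ≤ g (some k1) → ∀ A, tdeg A + 1 ≤ Lam →
        wt g Lam A % N + (g (some k1) - g none) < N →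
        (a (A + uv (some k1)) : ℚ) =
          omq l e N (g (some k1)) (g none) (b (some k1)) (b none) * a A := by
  have hs0 : s ≠ 0 := by rcases hs with h | h <;> rw [h] <;> decide
  have hNR : (N : ℝ) ≠ 0 := by exact_mod_cast hN.ne'
  set v := vx e N Q N Lam g with hv
  set E' := Ex e N Lam g with hE'
  have hbd := fun A hA i => bounds e N Q N Lam g hN hQ hbox A hA (Nat.mod_lt _ hN) i
  obtain ⟨y, z, w, V, t, hy, hz, hmod⟩ := numbersW_cong l E hcop e N J Lam s hdvd g b hcong v
    (fun A hA i => (hbd A hA i).1)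
  refine ⟨fun A => s ^ (wt g Lam A / N) * (∏ x, (b x : ℤ) ^ ax Lam A x) *
    ∏ i, (l i : ℤ) ^ (v i + E' A i).toNat, ?_, ?_, ⟨y, z, w, V, t, hy, hz, hmod⟩, ?_⟩
  · intro A
    refine mul_ne_zero (mul_ne_zero (pow_ne_zero _ hs0) ?_) ?_
    · exact Finset.prod_ne_zero_iff.mpr fun x _ => pow_ne_zero _ (by have := (hb x).1; omega)
    · exact Finset.prod_ne_zero_iff.mpr fun i _ => pow_ne_zero _ (by have := hl i; omega)
  · intro A hA
    have hbR : ∀ x, (1 : ℝ) ≤ b x := fun x => by exact_mod_cast (hb x).1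
    have hlR : ∀ i, (1 : ℝ) ≤ l i := fun i => by exact_mod_cast hl i
    have hsabs : |(s : ℝ)| = 1 := by rcases hs with h | h <;> rw [h] <;> norm_num
    have e1 : |((s ^ (wt g Lam A / N) * (∏ x, (b x : ℤ) ^ ax Lam A x) *
        ∏ i, (l i : ℤ) ^ (v i + E' A i).toNat : ℤ) : ℝ)| =
        (∏ x, (b x : ℝ) ^ ax Lam A x) * ∏ i, (l i : ℝ) ^ (v i + E' A i).toNat := by
      push_cast
      rw [abs_mul, abs_mul, abs_pow, hsabs, one_pow, one_mul, abs_of_nonneg, abs_of_nonneg]
      · exact Finset.prod_nonneg fun i _ => by positivity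
      · exact Finset.prod_nonneg fun i _ => by positivity
    rw [e1, Real.log_mul]
    rotate_left
    · exact Finset.prod_ne_zero_iff.mpr fun x _ => pow_ne_zero _ (by have := hbR x; linarith)
    · exact Finset.prod_ne_zero_iff.mpr fun i _ => pow_ne_zero _ (by have := hlR i; linarith)
    rw [Real.log_prod (fun x _ => pow_ne_zero _ (by have := hbR x; linarith)),
      Real.log_prod (fun i _ => pow_ne_zero _ (by have := hlR i; linarith))]
    simp only [Real.log_pow]
    have h1 : ∑ x, (ax Lam A x : ℝ) * Real.log (b x) ≤ Lam * Real.log H := by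
      have hL : (Lam : ℝ) * Real.log H = ∑ x, (ax Lam A x : ℝ) * Real.log H := by
        have := congrArg (fun z : ℕ => (z : ℝ)) (sum_ax Lam A hA)
        push_cast at this
        rw [← Finset.sum_mul, this]
      rw [hL]
      refine Finset.sum_le_sum fun x _ => mul_le_mul_of_nonneg_left ?_ (Nat.cast_nonneg _)
      exact Real.log_le_log (by have := hbR x; linarith) (by exact_mod_cast (hb x).2)
    have h2 : ∑ i, (((v i + E' A i).toNat : ℕ) : ℝ) * Real.log (l i) ≤
        (Real.log (posP l e) + Real.log (negP l e)) +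
        (2 * Lam / Q + 1) * ∑ i, Real.log (l i) := by
      rw [log_posP_add hl e, Finset.mul_sum, ← Finset.sum_add_distrib]
      refine Finset.sum_le_sum fun i _ => ?_
      obtain ⟨hb1, hb2⟩ := hbd A hA i
      have e2 : (((v i + E' A i).toNat : ℕ) : ℝ) = ((v i + E' A i : ℤ) : ℝ) := by
        exact_mod_cast Int.toNat_of_nonneg hb1
      rw [e2]
      have hlog : 0 ≤ Real.log (l i) := Real.log_nonneg (hlR i)
      rw [div_self hNR, mul_one] at hb2
      calc ((v i + E' A i : ℤ) : ℝ) * Real.log (l i)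
          ≤ (1 + 2 * Lam / Q + |(e i : ℝ)|) * Real.log (l i) :=
            mul_le_mul_of_nonneg_right hb2 hlog
        _ = _ := by ring
    linarith
  · -- the shift
    intro k1 hg A hA hw
    have hA' : tdeg A ≤ Lam := by omega
    have hA1 : tdeg (A + uv (some k1)) ≤ Lam := by rw [tdeg_add_uv]; exact hA
    obtain ⟨Lm, hLm⟩ : ∃ Lm, Lam = Lm + 1 := ⟨Lam - 1, by omega⟩
    have hwt : wt g Lam (A + uv (some k1)) = wt g Lam A + (g (some k1) - g none) := by
      rw [hLm]
      exact wt_add_uv g Lm A k1 (by omega) hg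
    have hmod : wt g Lam (A + uv (some k1)) / N = wt g Lam A / N := by
      rw [hwt]
      have h1 := Nat.div_add_mod (wt g Lam A) N
      have h2 : wt g Lam A + (g (some k1) - g none) =
          (wt g Lam A % N + (g (some k1) - g none)) + N * (wt g Lam A / N) := by omega
      rw [h2, Nat.add_mul_div_left _ _ hN, Nat.div_eq_of_lt (by omega), zero_add]
    have hEx : ∀ i, E' (A + uv (some k1)) i = E' A i +
        ((g (some k1) : ℤ) * e i / N - (g none : ℤ) * e i / N) := by
      intro i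
      rw [hE']
      unfold Ex
      rw [hmod, Fintype.sum_option, Fintype.sum_option]
      unfold ax
      simp only [Option.elim]
      rw [tdeg_add_uv]
      have h1 : ∑ x, (((A + uv (some k1) : K → ℕ) x : ℕ) : ℤ) * ((g (some x) : ℤ) * e i / N) =
          ∑ x, ((A x : ℕ) : ℤ) * ((g (some x) : ℤ) * e i / N) + (g (some k1) : ℤ) * e i / N := by
        unfold uv
        simp only [Pi.add_apply, Option.some.injEq]
        push_cast
        simp only [add_mul, Finset.sum_add_distrib]
        congr 1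
        simp
      rw [h1]
      have h2 : ((Lam - tdeg A : ℕ) : ℤ) = ((Lam - (tdeg A + 1) : ℕ) : ℤ) + 1 := by omega
      rw [h2]
      ring
    have hn1 : ∀ i, 0 ≤ v i + E' A i := fun i => (hbd A hA' i).1
    have hn2 : ∀ i, 0 ≤ v i + E' (A + uv (some k1)) i := fun i => (hbd _ hA1 i).1
    have hlQ : ∀ i, (l i : ℚ) ≠ 0 := fun i => by exact_mod_cast (hl i).ne'
    have hbQ : ∀ x, (b x : ℚ) ≠ 0 := fun x => by have := (hb x).1; positivity
    have hl1 : ∏ i, (l i : ℚ) ^ (v i + E' (A + uv (some k1)) i).toNat =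
        (∏ i, (l i : ℚ) ^ (v i + E' A i).toNat) *
          ∏ i, (l i : ℚ) ^ (((g (some k1) : ℤ) * e i) / N - ((g none : ℤ) * e i) / N) := by
      rw [← Finset.prod_mul_distrib]
      refine Finset.prod_congr rfl fun i _ => ?_
      rw [← zpow_natCast, ← zpow_natCast, Int.toNat_of_nonneg (hn1 i), Int.toNat_of_nonneg (hn2 i),
        ← zpow_add₀ (hlQ i), hEx i]
      congr 1
      ring
    have hb1 : ∏ x, (b x : ℚ) ^ ax Lam (A + uv (some k1)) x =
        (b (some k1) : ℚ) / b none * ∏ x, (b x : ℚ) ^ ax Lam A x := by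
      rw [Fintype.prod_option, Fintype.prod_option]
      unfold ax
      simp only [Option.elim]
      rw [tdeg_add_uv]
      have h1 : ∏ x, (b (some x) : ℚ) ^ ((A + uv (some k1) : K → ℕ) x) =
          (∏ x, (b (some x) : ℚ) ^ (A x)) * b (some k1) := by
        unfold uv
        simp only [Pi.add_apply, Option.some.injEq, pow_add, Finset.prod_mul_distrib]
        congr 1
        simp
      rw [h1]
      have h2 : Lam - tdeg A = (Lam - (tdeg A + 1)) + 1 := by omega
      rw [h2, pow_succ]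
      field_simp [hbQ none]
    push_cast
    rw [hmod, hb1, hl1]
    unfold omq
    ring

end Pool.Agent.Lib.AbcZW
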