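import Mathlib
import Pool.Agent.Lib.AbcE.TheoremE
import Pool.Agent.Lib.AbcZ.FinalIneq
import Pool.Agent.Lib.AbcZW.DefsW
import Pool.Agent.Lib.AbcZW.ModD34
import Pool.Agent.Lib.AbcZW.CountW
import Pool.Agent.Lib.AbcZW.CoreW
import Pool.Agent.Lib.AbcZW.NumbersW

/-!
# Theorem W with explicit parameters

The letters are given by the hypothesis `hlet`: in every set of more than `R` numbers `≤ G` there is a
chain of `k + 2` letters, among them the smallest and the largest element, whose phases go once around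
the circle `ℤ / N` in steps of length at most `h`.
-/

set_option autoImplicit false

namespace Pool.Agent.Lib.AbcZW

open Finset Pool.Agent.AbcE Pool.Agent.Lib.AbcZ

/-- Theorem W with explicit parameters, for a family of primes. -/
theorem thmSexpWI {ι : Type*} [Fintype ι] (l : ι → ℕ) (hl : ∀ i, (l i).Prime)
    (hinj : Function.Injective l) (e : ι → ℤ) (E N J : ℕ) (hE : 2 ≤ E)
    (hcop : ∀ i, (l i).Coprime E) (s : ℤ) (hs : s = 1 ∨ s = -1)
    (hne : (posP l e : ℤ) ≠ s * negP l e)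
    (hdvd : ((E ^ N : ℕ) : ℤ) ∣ (posP l e : ℤ) - s * negP l e)
    (κ A Ls : ℝ) (hκ0 : 0 ≤ κ) (hκ : κ ≤ 1) (hA : 0 ≤ A) (hN5 : 5 ≤ N) (hJ : 0 < J)
    (k D h Q H G R N2 Lmax : ℕ) (hQ : 0 < Q) (hHE : H < E)
    (hHκ : Real.log H ≤ κ * Real.log E) (hR : 3 ≤ R) (hGN : G ≤ N)
    (hG : Q ^ Fintype.card ι * E * R < (G + 1) * H)
    (hlet : ∀ Γ : Finset ℕ, (∀ γ ∈ Γ, γ ≤ G) → R < Γ.card → ∃ M : ℕ, M.Prime ∧
      N < 8 * M ∧ M ≤ N ∧ ∃ g : Option (Fin (k + 1)) → ℕ, (∀ x, g x ∈ Γ) ∧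
        (∀ c ∈ Γ, g none ≤ c ∧ c ≤ g (some 0)) ∧ Nonempty (Cyc N h (fun x => M * g x)))
    (hm : 8 * (N * J + 2 * N2) ≤ (D + 1) * N) (hDN : 8 * (D + 1) ≤ N)
    (hh : (D + 2) * h + G ≤ N) (hN2 : 0 < N2) (hLmax : N * J + 2 * N2 + N + 1 ≤ Lmax)
    (hLs : ∑ i, Real.log (l i) ≤ Ls) (hLsQ : Ls ≤ Q * (1 / 8 * Real.log E))
    (hZ1 : Real.log (posP l e) ≤ A * (N * Real.log E))
    (hZ2 : Real.log (negP l e) ≤ A * (N * Real.log E))
    (hfin : ((((N * J + N2 : ℕ) : ℝ) / N + 1) * (((N * J + N2 : ℕ) : ℝ) / N2) ^ (k + 1) + 1) *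
        (Real.log (2 * (((N * J + N2 : ℕ) : ℝ) / N + 1)) +
          (k + 1) * Real.log ((N * J + N2 : ℕ) : ℝ) + 2 * Lmax * Real.log 2) +
      (Lmax * (κ * Real.log E) + 2 * A * (N * Real.log E) + (2 * Lmax / Q + 1) * Ls) <
      N * J * Real.log E) : False := by
  classical
  have hN : 0 < N := by omega
  have hNR : (0 : ℝ) < N := by exact_mod_cast hN
  have hQR : (0 : ℝ) < Q := by exact_mod_cast hQ
  have hlam : 0 < Real.log E := Real.log_pos (by exact_mod_cast (by omega : 1 < E))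
  have hpos : ∀ i, 0 < l i := fun i => (hl i).pos
  obtain ⟨Γ, b, hcard, hΓG, hb, hbox, hcong⟩ := pigeonD l E (by omega) hcop e N Q H G R hN hQ hHE hG
  obtain ⟨M, hM, hM1, hM2, g, hgΓ, hgmm, ⟨C⟩⟩ := hlet Γ hΓG hcard
  -- the extreme letters
  have hg3 : g none + 3 ≤ g (some 0) := by
    have h1 : Γ ⊆ Finset.Icc (g none) (g (some 0)) := fun c hc =>
      Finset.mem_Icc.2 (hgmm c hc)
    have h2 := Finset.card_le_card h1
    rw [Nat.card_Icc] at h2
    omega
  set N1 : ℕ := N * J + N2 with hN1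
  set n : ℕ := N1 + N2 with hn
  set L : ℕ := n + M with hL
  have hn2 : n = N * J + 2 * N2 := by omega
  have hnm : n ≤ (D + 1) * M := by
    have h1 : 8 * n ≤ (D + 1) * N := by rw [hn2]; exact hm
    have h2 : (D + 1) * N ≤ (D + 1) * (8 * M) := Nat.mul_le_mul_left _ hM1.le
    have h3 : (D + 1) * (8 * M) = 8 * ((D + 1) * M) := by ring
    omega
  have hDM : D + 1 ≤ M := by omega
  have hg0G : g (some 0) ≤ G := hΓG _ (hgΓ (some 0))
  have hb1H : 1 ≤ H := (hb _ (hgΓ none)).1.trans (hb _ (hgΓ none)).2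
  obtain ⟨a, ha0, hsize, ⟨y, z, w, V, t, hy, hz, hmod⟩, hshift⟩ := numbersW (K := Fin (k + 1)) l
    hpos E (by omega) hcop e N J Q H (L + 1) hN hQ s hs hdvd g (fun x => b (g x))
    (fun x => hb _ (hgΓ x)) (fun x i => hbox _ (hgΓ none) _ (hgΓ x) i)
    (fun x => hcong _ (hgΓ none) _ (hgΓ x))
  -- sizes
  have hLN : L + 1 ≤ Lmax := by omega
  have hLR : ((L + 1 : ℕ) : ℝ) ≤ Lmax := by exact_mod_cast hLN
  set B : ℝ := Lmax * (κ * Real.log E) + 2 * A * (N * Real.log E) + (2 * Lmax / Q + 1) * Ls with hB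
  have hLs0 : 0 ≤ Ls := (Finset.sum_nonneg fun i _ => Real.log_natCast_nonneg _).trans hLs
  have hB0 : 0 ≤ B := by positivity
  set Am : ℕ := ⌊Real.exp B⌋₊ with hAm
  have hAm1 : 1 ≤ Am := by
    rw [hAm, Nat.one_le_floor_iff]
    exact Real.one_le_exp hB0
  have hAmB : Real.log Am ≤ B := by
    have h1 : (Am : ℝ) ≤ Real.exp B := Nat.floor_le (Real.exp_pos _).le
    have h2 := Real.log_le_log (by exact_mod_cast hAm1) h1
    rwa [Real.log_exp] at h2
  have hAbs : ∀ A, tdeg A ≤ L + 1 → |a A| ≤ (Am : ℤ) := by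
    intro D h1
    have h3 := hsize D h1
    have h4 : Real.log |(a D : ℝ)| ≤ B := by
      refine h3.trans ?_
      rw [hB]
      have e1 : ((L + 1 : ℕ) : ℝ) * Real.log H ≤ Lmax * (κ * Real.log E) := by
        have : 0 ≤ Real.log H := Real.log_natCast_nonneg _
        gcongr
      have e2 : Real.log (posP l e) + Real.log (negP l e) ≤ 2 * A * (N * Real.log E) := by
        calc Real.log (posP l e) + Real.log (negP l e) ≤
            A * (N * Real.log E) + A * (N * Real.log E) := by gcongr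
          _ = 2 * A * (N * Real.log E) := by ring
      have e3 : (2 * ((L + 1 : ℕ) : ℝ) / Q + 1) * ∑ i, Real.log (l i) ≤
          (2 * Lmax / Q + 1) * Ls := by
        gcongr
      push_cast at e1 e3 ⊢
      linarith
    have h5 : (0 : ℝ) < |(a D : ℝ)| := by
      rw [abs_pos]
      exact_mod_cast ha0 D
    have h6 : |(a D : ℝ)| ≤ Real.exp B := by
      rwa [Real.log_le_iff_le_exp h5] at h4
    have h7 : ((a D).natAbs : ℝ) ≤ Real.exp B := by
      have : ((a D).natAbs : ℝ) = |(a D : ℝ)| := by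
        rw [Nat.cast_natAbs, Int.cast_abs]
      rwa [this]
    have h8 : (a D).natAbs ≤ Am := Nat.le_floor h7
    rw [Int.abs_eq_natAbs]
    exact_mod_cast h8
  have hom : omq l e N (g (some 0)) (g none) (b (g (some 0))) (b (g none)) ≠ 1 := by
    refine om_ne_oneD l hl hinj E (by omega) e N Q H hN5 hQ s hs hne hdvd _ _ _ _ hg3
      (hb _ (hgΓ _)).1 (hb _ (hgΓ _)).2 (hb _ (hgΓ _)).1 (hb _ (hgΓ _)).2 ?_
      (hLs.trans hLsQ) (fun i => hbox _ (hgΓ none) _ (hgΓ (some 0)) i)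
    refine hHκ.trans ?_
    calc κ * Real.log E ≤ 1 * Real.log E := by gcongr
      _ = Real.log E := one_mul _
  have hdet := coreW E N J L N1 N2 n D M h hM hN hM2 g (fun x => (hΓG _ (hgΓ x)).trans hGN) C 0
    (by omega) (by omega) hN1 le_rfl hnm hDM le_rfl a ha0 _ hom
    (fun D h1 h2 => hshift 0 (by omega) D (by omega) h2) y t hy z w V hz hmod Am hAbs
  have hR2 : 0 < (ixW (Fin (k + 1)) N N2).card := by
    refine Finset.card_pos.2 ⟨(0, 0), ?_⟩
    rw [mem_ixW hN]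
    unfold tdeg
    simpa using hN2
  have hratio := card_ratioW (K := Fin (k + 1)) N N1 N2 hN hN2 (by omega)
  rw [Fintype.card_fin] at hratio
  have hlog := det_log (by omega : 1 < E) hR2 hAm1
    (((N1 : ℝ) / N + 1) * ((N1 : ℝ) / N2) ^ (k + 1)) hratio hdet
  -- the number of rows
  have hN1N : N2 ≤ N1 := by omega
  have hN1pos : (0 : ℝ) < N1 := by exact_mod_cast (by omega : 0 < N1)
  have hRR : Real.log (((ixW (Fin (k + 1)) N N1).card : ℝ) + (ixW (Fin (k + 1)) N N2).card) ≤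
      Real.log (2 * ((N1 : ℝ) / N + 1)) + (k + 1) * Real.log (N1 : ℝ) := by
    have h1 := card_ixW_le (K := Fin (k + 1)) N N1 hN
    have h2 := card_ixW_le (K := Fin (k + 1)) N N2 hN
    rw [Fintype.card_fin] at h1 h2
    have h3 : (N2 / N + 1) * N2 ^ (k + 1) ≤ (N1 / N + 1) * N1 ^ (k + 1) := by
      have : N2 / N ≤ N1 / N := Nat.div_le_div_right hN1N
      gcongr
    have h4 : (ixW (Fin (k + 1)) N N1).card + (ixW (Fin (k + 1)) N N2).card ≤
        2 * ((N1 / N + 1) * N1 ^ (k + 1)) := by omega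
    have h5 : ((ixW (Fin (k + 1)) N N1).card : ℝ) + (ixW (Fin (k + 1)) N N2).card ≤
        2 * ((N1 : ℝ) / N + 1) * (N1 : ℝ) ^ (k + 1) := by
      have h51 : (((ixW (Fin (k + 1)) N N1).card + (ixW (Fin (k + 1)) N N2).card : ℕ) : ℝ) ≤
        ((2 * ((N1 / N + 1) * N1 ^ (k + 1)) : ℕ) : ℝ) := by exact_mod_cast h4
      push_cast at h51
      have h52 : ((N1 / N : ℕ) : ℝ) ≤ (N1 : ℝ) / N := Nat.cast_div_le
      calc ((ixW (Fin (k + 1)) N N1).card : ℝ) + (ixW (Fin (k + 1)) N N2).card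
          ≤ 2 * ((((N1 / N : ℕ) : ℝ) + 1) * (N1 : ℝ) ^ (k + 1)) := h51
        _ ≤ 2 * (((N1 : ℝ) / N + 1) * (N1 : ℝ) ^ (k + 1)) := by gcongr
        _ = 2 * ((N1 : ℝ) / N + 1) * (N1 : ℝ) ^ (k + 1) := by ring
    have h6 : (0 : ℝ) < ((ixW (Fin (k + 1)) N N1).card : ℝ) + (ixW (Fin (k + 1)) N N2).card := by
      have : (0 : ℝ) < (ixW (Fin (k + 1)) N N2).card := by exact_mod_cast hR2
      positivity
    refine (Real.log_le_log h6 h5).trans ?_
    rw [Real.log_mul (by positivity) (by positivity), Real.log_pow]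
    push_cast
    exact le_rfl
  have hlog2 : (0 : ℝ) < Real.log 2 := Real.log_pos (by norm_num)
  have hC0 : (0 : ℝ) ≤ ((N1 : ℝ) / N + 1) * ((N1 : ℝ) / N2) ^ (k + 1) + 1 := by positivity
  have hfin2 : (((N1 : ℝ) / N + 1) * ((N1 : ℝ) / N2) ^ (k + 1) + 1) *
      (Real.log (((ixW (Fin (k + 1)) N N1).card : ℝ) + (ixW (Fin (k + 1)) N N2).card) +
        ((2 * (L + 1) : ℕ) : ℝ) * Real.log 2) ≤
      (((N1 : ℝ) / N + 1) * ((N1 : ℝ) / N2) ^ (k + 1) + 1) *
        (Real.log (2 * ((N1 : ℝ) / N + 1)) + (k + 1) * Real.log (N1 : ℝ) +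
          2 * Lmax * Real.log 2) := by
    apply mul_le_mul_of_nonneg_left _ hC0
    have h1 : ((2 * (L + 1) : ℕ) : ℝ) * Real.log 2 ≤ 2 * Lmax * Real.log 2 := by
      have : ((2 * (L + 1) : ℕ) : ℝ) ≤ 2 * Lmax := by
        rw [Nat.cast_mul, Nat.cast_ofNat]
        linarith
      exact mul_le_mul_of_nonneg_right this hlog2.le
    linarith
  rw [Nat.cast_mul] at hlog
  linarith

/-- a product over the primes of a number in terms of exponents -/
theorem prod_pow_eqW {S : Finset ℕ} {Z : ℕ} (hZ : Z ≠ 0) (hS : Z.primeFactors ⊆ S) :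
    ∏ q : {q // q ∈ S}, (q : ℕ) ^ Z.factorization q = Z := by
  rw [Finset.prod_coe_sort S (fun q => q ^ Z.factorization q)]
  conv_rhs => rw [← Nat.prod_factorization_pow_eq_self hZ]
  rw [Finsupp.prod, Nat.support_factorization]
  symm
  apply Finset.prod_subset hS
  intro q _ hq
  rw [← Nat.support_factorization, Finsupp.notMem_support_iff] at hq
  rw [hq, pow_zero]

/-- W11 CoreWB: Theorem W with explicit parameters, for two natural numbers. -/
theorem thmSexpW (E N J Z1 Z2 : ℕ) (s : ℤ) (hE : 2 ≤ E) (h1 : 0 < Z1) (h2 : 0 < Z2)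
    (hcop : Nat.Coprime Z1 Z2) (hs : s = 1 ∨ s = -1) (hne : (Z1 : ℤ) ≠ s * Z2)
    (hdvd : ((E ^ N : ℕ) : ℤ) ∣ (Z1 : ℤ) - s * Z2)
    (κ A Ls : ℝ) (hκ0 : 0 ≤ κ) (hκ : κ ≤ 1) (hA : 0 ≤ A) (hN5 : 5 ≤ N) (hJ : 0 < J)
    (k D h Q H G R N2 Lmax : ℕ) (hQ : 0 < Q) (hHE : H < E)
    (hHκ : Real.log H ≤ κ * Real.log E) (hR : 3 ≤ R) (hGN : G ≤ N)
    (hG : Q ^ (Z1 * Z2).primeFactors.card * E * R < (G + 1) * H)
    (hlet : ∀ Γ : Finset ℕ, (∀ γ ∈ Γ, γ ≤ G) → R < Γ.card → ∃ M : ℕ, M.Prime ∧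
      N < 8 * M ∧ M ≤ N ∧ ∃ g : Option (Fin (k + 1)) → ℕ, (∀ x, g x ∈ Γ) ∧
        (∀ c ∈ Γ, g none ≤ c ∧ c ≤ g (some 0)) ∧ Nonempty (Cyc N h (fun x => M * g x)))
    (hm : 8 * (N * J + 2 * N2) ≤ (D + 1) * N) (hDN : 8 * (D + 1) ≤ N)
    (hh : (D + 2) * h + G ≤ N) (hN2 : 0 < N2) (hLmax : N * J + 2 * N2 + N + 1 ≤ Lmax)
    (hLs : ∑ r ∈ (Z1 * Z2).primeFactors, Real.log (r : ℝ) ≤ Ls)
    (hLsQ : Ls ≤ Q * (1 / 8 * Real.log E))
    (hZ1 : Real.log Z1 ≤ A * (N * Real.log E)) (hZ2 : Real.log Z2 ≤ A * (N * Real.log E))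
    (hfin : ((((N * J + N2 : ℕ) : ℝ) / N + 1) * (((N * J + N2 : ℕ) : ℝ) / N2) ^ (k + 1) + 1) *
        (Real.log (2 * (((N * J + N2 : ℕ) : ℝ) / N + 1)) +
          (k + 1) * Real.log ((N * J + N2 : ℕ) : ℝ) + 2 * Lmax * Real.log 2) +
      (Lmax * (κ * Real.log E) + 2 * A * (N * Real.log E) + (2 * Lmax / Q + 1) * Ls) <
      N * J * Real.log E) : False := by
  have hNpos : 0 < N := by omega
  -- primes
  set S := (Z1 * Z2).primeFactors with hS
  have hS1 : Z1.primeFactors ⊆ S := Nat.primeFactors_mono (Dvd.intro _ rfl) (by positivity)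
  have hS2 : Z2.primeFactors ⊆ S := Nat.primeFactors_mono (Dvd.intro_left _ rfl) (by positivity)
  have hSp : ∀ r ∈ S, r.Prime := fun r hr => Nat.prime_of_mem_primeFactors hr
  have hz : ∀ r, Z1.factorization r = 0 ∨ Z2.factorization r = 0 := by
    intro r
    by_contra hc
    push Not at hc
    have a1 : r ∈ Z1.primeFactors := by
      rw [← Nat.support_factorization, Finsupp.mem_support_iff]; exact hc.1
    have a2 : r ∈ Z2.primeFactors := by
      rw [← Nat.support_factorization, Finsupp.mem_support_iff]; exact hc.2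
    exact Finset.disjoint_left.1 (Nat.Coprime.disjoint_primeFactors hcop) a1 a2
  set e : {r // r ∈ S} → ℤ := fun r => (Z1.factorization r : ℤ) - Z2.factorization r with he
  have hpos : ∀ r, (e r).toNat = Z1.factorization r := by
    intro r
    rcases hz r with h | h <;> simp only [he] <;> omega
  have hneg : ∀ r, (-e r).toNat = Z2.factorization r := by
    intro r
    rcases hz r with h | h <;> simp only [he] <;> omega
  have hposP : posP (fun r : {r // r ∈ S} => (r : ℕ)) e = Z1 := by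
    unfold posP
    simp only [hpos]
    exact prod_pow_eqW h1.ne' hS1
  have hnegP : negP (fun r : {r // r ∈ S} => (r : ℕ)) e = Z2 := by
    unfold negP
    simp only [hneg]
    exact prod_pow_eqW h2.ne' hS2
  have hEdvd : (E : ℤ) ∣ (Z1 : ℤ) - s * Z2 := by
    refine dvd_trans ?_ hdvd
    exact Int.natCast_dvd_natCast.2 (dvd_pow_self E hNpos.ne')
  have hs2 : s * s = 1 := by rcases hs with h | h <;> rw [h] <;> norm_num
  have hcopM : ∀ r : {r // r ∈ S}, (r : ℕ).Coprime E := by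
    rintro ⟨r, hr⟩
    have hrp := hSp r hr
    simp only
    rw [Nat.Prime.coprime_iff_not_dvd hrp]
    intro hrE
    have hpdvd : (r : ℤ) ∣ (Z1 : ℤ) - s * Z2 := (Int.natCast_dvd_natCast.2 hrE).trans hEdvd
    have hr12 : r ∣ Z1 * Z2 := Nat.dvd_of_mem_primeFactors hr
    rcases (Nat.Prime.dvd_mul hrp).1 hr12 with h' | h'
    · have h3 : (r : ℤ) ∣ s * (Z2 : ℤ) := by
        have := dvd_sub (Int.natCast_dvd_natCast.2 h') hpdvd
        simpa using this
      have h4 : (r : ℤ) ∣ (Z2 : ℤ) := by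
        have h5 := h3.mul_left s
        rw [← mul_assoc, hs2, one_mul] at h5
        exact h5
      have h2' := Int.natCast_dvd_natCast.1 h4
      exact Nat.not_coprime_of_dvd_of_dvd hrp.one_lt h' h2' hcop
    · have h3 : (r : ℤ) ∣ (Z1 : ℤ) := by
        have := dvd_add hpdvd ((Int.natCast_dvd_natCast.2 h').mul_left s)
        simpa using this
      have h1' := Int.natCast_dvd_natCast.1 h3
      exact Nat.not_coprime_of_dvd_of_dvd hrp.one_lt h1' h' hcop
  refine thmSexpWI (ι := {r // r ∈ S}) (fun r => (r : ℕ)) (fun r => hSp r r.2)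
    Subtype.val_injective e E N J hE hcopM s hs (by rw [hposP, hnegP]; exact hne)
    (by rw [hposP, hnegP]; exact hdvd) κ A Ls hκ0 hκ hA hN5 hJ
    k D h Q H G R N2 Lmax hQ hHE hHκ hR hGN (by rw [Fintype.card_coe]; exact hG) hlet hm hDN hh
    hN2 hLmax ?_ hLsQ (by rw [hposP]; exact hZ1) (by rw [hnegP]; exact hZ2) hfin
  rw [Finset.sum_coe_sort S (fun r : ℕ => Real.log (r : ℝ))]
  exact hLs

end Pool.Agent.Lib.AbcZW
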