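import Mathlib
import Pool.Agent.Lib.AbcZW.DefsW

/-!
# Theorem W: the letters
-/

namespace Pool.Agent.Lib.AbcZW

open Finset Pool.Agent.Lib.AbcZ

theorem lettersW (q N M : ℕ) (hq : 2 ≤ q) (hN : 2 * q ≤ N) (Gam : Finset ℕ) (hG : Gam.Nonempty)
    (hd : ∀ c < N, ∃ x ∈ Gam, q * ((M * x + (N - c)) % N) < N) :
    ∃ g : Option (Fin (q + 1)) → ℕ, (∀ x, g x ∈ Gam) ∧ (∀ c ∈ Gam, g none ≤ c ∧ c ≤ g (some 0)) ∧
      Nonempty (Cyc N (3 * N / q) (fun x => M * g x)) := by
  classical
  have hq0 : 0 < q := by omega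
  have hN0 : 0 < N := by omega
  have hc : ∀ j, j < q → j * N / q < N := fun j hj => by
    rw [Nat.div_lt_iff_lt_mul hq0, mul_comm]
    exact Nat.mul_lt_mul_of_pos_left hj hN0
  have hex : ∀ j, j < q → ∃ x ∈ Gam, q * ((M * x + (N - j * N / q)) % N) < N :=
    fun j hj => hd _ (hc j hj)
  choose! x hxG hx using hex
  set ρ : ℕ → ℕ := fun j => (M * x (j % q) + (N - (j % q) * N / q)) % N with hρ
  have hρlt : ∀ j, q * ρ j < N := fun j => hx (j % q) (Nat.mod_lt _ hq0)
  set P : ℕ → ℕ := fun j => j * N / q + ρ j with hP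
  have hcj : ∀ j, q * (j * N / q) ≤ j * N := fun j => Nat.mul_div_le _ _
  have hcj2 : ∀ j, j * N + 1 ≤ q * (j * N / q) + q := fun j => by
    have h := Nat.lt_mul_div_succ (j * N) hq0
    rw [Nat.mul_add, mul_one] at h
    omega
  have hPle : ∀ j, P j ≤ (j + 1) * N / q := by
    intro j
    rw [Nat.le_div_iff_mul_le hq0]
    have h1 := hcj j
    have h2 := hρlt j
    calc P j * q = q * (j * N / q) + q * ρ j := by
          rw [hP]
          ring
      _ ≤ j * N + N := by omega
      _ = (j + 1) * N := by ring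
  have hPmono1 : ∀ j, P j ≤ P (j + 1) := fun j => (hPle j).trans (Nat.le_add_right _ _)
  have hPmono : Monotone P := monotone_nat_of_le_succ hPmono1
  have hPinc : ∀ j, P (j + 1) - P j ≤ 3 * N / q := by
    intro j
    rw [Nat.le_div_iff_mul_le hq0]
    have h1 := hcj (j + 1)
    have h2 := hρlt (j + 1)
    have h3 := hcj2 j
    have h4 : P (j + 1) ≤ (P (j + 1) - P j) + P j := by omega
    have h5 : (P (j + 1) - P j) * q + j * N / q * q ≤ P (j + 1) * q := by
      rw [← Nat.add_mul]
      apply Nat.mul_le_mul_right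
      have h6 := hPmono1 j
      have h7 : j * N / q ≤ P j := Nat.le_add_right _ _
      omega
    have h6 : P (j + 1) * q = q * ((j + 1) * N / q) + q * ρ (j + 1) := by
      rw [hP]
      ring
    have h7 : j * N / q * q = q * (j * N / q) := by ring
    have h8 : (j + 1) * N = j * N + N := by ring
    omega
  -- the letters
  set lt : ℕ → Fin (q + 1) := fun j => ⟨j % q + 1, by have := Nat.mod_lt j hq0; omega⟩ with hlt
  set g : Option (Fin (q + 1)) → ℕ := fun o => match o with
    | none => Gam.min' hG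
    | some i => if i.val = 0 then Gam.max' hG else x (i.val - 1) with hg
  have hglt : ∀ j, g (some (lt j)) = x (j % q) := by
    intro j
    simp [hg, hlt]
  have hφ : ∀ j, j ≤ q → ∃ v : ℤ, ((M * g (some (lt j)) : ℕ) : ℤ) = P j + N * v := by
    intro j hj
    rw [hglt]
    rcases Nat.lt_or_eq_of_le hj with hj | hj
    · have hm : j % q = j := Nat.mod_eq_of_lt hj
      have h1 := Nat.div_add_mod (M * x j + (N - j * N / q)) N
      have h2 : ρ j = (M * x j + (N - j * N / q)) % N := by
        rw [hρ]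
        simp only [hm]
      have h3 := hc j hj
      rw [hm]
      refine ⟨((M * x j + (N - j * N / q)) / N : ℕ) - 1, ?_⟩
      rw [← h2] at h1
      have h4 : ((N * ((M * x j + (N - j * N / q)) / N) + ρ j : ℕ) : ℤ) =
          ((M * x j + (N - j * N / q) : ℕ) : ℤ) := by rw [h1]
      rw [Nat.cast_add, Nat.cast_mul, Nat.cast_add (M * x j), Nat.cast_sub h3.le] at h4
      have h5 : (P j : ℤ) = ((j * N / q : ℕ) : ℤ) + ρ j := by
        rw [hP]
        push_cast
        ring
      rw [h5]
      linear_combination -h4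
    · subst hj
      have hm : j % j = 0 := Nat.mod_self j
      have h1 := Nat.div_add_mod (M * x 0 + (N - 0)) N
      have h2 : ρ j = (M * x 0 + (N - 0)) % N := by
        rw [hρ]
        simp only [hm, zero_mul, Nat.zero_div]
      rw [hm]
      refine ⟨((M * x 0 + (N - 0)) / N : ℕ) - 2, ?_⟩
      rw [← h2] at h1
      have h4 : ((N * ((M * x 0 + (N - 0)) / N) + ρ j : ℕ) : ℤ) =
          ((M * x 0 + (N - 0) : ℕ) : ℤ) := by rw [h1]
      rw [Nat.cast_add, Nat.cast_mul, Nat.cast_add (M * x 0)] at h4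
      have h5 : (P j : ℤ) = (N : ℤ) + ρ j := by
        rw [hP]
        simp only
        rw [Nat.mul_div_cancel_left _ hq0]
        push_cast
        ring
      rw [h5]
      push_cast at h4 ⊢
      linear_combination -h4
  choose! v hv using hφ
  refine ⟨g, ?_, ?_, ⟨⟨q, fun j => some (lt j), fun j => P (j + 1) - P j,
    fun j => v (j + 1) - v j, ?_, ?_, ?_, ?_⟩⟩⟩
  · intro o
    match o with
    | none => exact Gam.min'_mem hG
    | some i =>
      simp only [hg]
      split_ifs with hi
      · exact Gam.max'_mem hG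
      · exact hxG _ (by have := i.isLt; omega)
  · intro c hcG
    refine ⟨Gam.min'_le c hcG, ?_⟩
    simp only [hg]
    exact Gam.le_max' c hcG
  · intro j hj
    have h1 := hv (j + 1) hj
    have h2 := hv j hj.le
    have h3 := hPmono1 j
    rw [h1, h2, Nat.cast_sub h3]
    ring
  · intro j _
    exact hPinc j
  · simp only [hlt]
    congr 2
    simp
  · rw [Finset.sum_range_tsub hPmono]
    have h0 : P 0 = ρ 0 := by
      rw [hP]
      simp
    have h1 : P q = N + ρ 0 := by
      rw [hP]
      simp only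
      rw [Nat.mul_div_cancel_left _ hq0, hρ]
      simp only [Nat.mod_self, Nat.zero_mod]
    rw [h0, h1]
    omega

end Pool.Agent.Lib.AbcZW
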