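import Mathlib

/-!
# Theorem W: the final inequality with the explicit parameters
-/

namespace Pool.Agent.Lib.AbcZW

/-- the condition on `log E`: `k = 128 J` letters -/
theorem par_PW (ν x L : ℝ) (J k : ℕ) (hν0 : 0 < ν) (hν1 : ν ≤ 1 / 2) (hx : 1 / ν ≤ x)
    (hJ1 : 1 ≤ J) (hJ2 : (J : ℝ) ≤ 65 * x) (hk : k = 128 * J) (hL0 : 0 < L)
    (hL : 60000 * x * (1 + Real.log x) ≤ Real.log L) :
    8 * J * (33 / ν) ^ (k + 1) * (2 * k + 12) ≤ ν * L := by
  have hx2 : 2 ≤ x := le_trans (by rw [le_div_iff₀ hν0]; linarith) hx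
  have hlx : 0 ≤ Real.log x := Real.log_nonneg (by linarith)
  set y : ℝ := 33 / ν with hy
  have hy66 : 66 ≤ y := by
    rw [hy, le_div_iff₀ hν0]
    linarith
  have hνy : ν * y = 33 := by rw [hy]; field_simp
  have hk128 : 128 ≤ k := by omega
  have hkR : (128 : ℝ) ≤ k := by exact_mod_cast hk128
  have hJk : (J : ℝ) * 128 = k := by
    rw [hk]
    push_cast
    ring
  have hlogy0 : 0 ≤ Real.log y := Real.log_nonneg (by linarith)
  have hlogy : Real.log y ≤ 4 / 10 * 9 * (1 + Real.log x) := by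
    have h1 : y ≤ 33 * x := by
      have : y = 33 * (1 / ν) := by rw [hy]; ring
      rw [this]
      linarith
    have h2 := Real.log_le_log (by linarith) h1
    rw [Real.log_mul (by norm_num) (by linarith)] at h2
    have h3 : Real.log 33 ≤ 36 / 10 := by
      rw [Real.log_le_iff_le_exp (by norm_num)]
      have h4 := Real.exp_one_gt_d9
      have h5 : Real.exp (36 / 10) = Real.exp 1 ^ 3 * Real.exp (6 / 10) := by
        rw [← Real.exp_nat_mul, ← Real.exp_add]
        norm_num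
      have h6 : (1.78 : ℝ) ≤ Real.exp (6 / 10) := by
        have h7 := Real.quadratic_le_exp_of_nonneg (show (0 : ℝ) ≤ 6 / 10 by norm_num)
        linarith
      have h8 : (2.718 : ℝ) ^ 3 ≤ Real.exp 1 ^ 3 := by
        apply pow_le_pow_left₀ (by norm_num)
        linarith
      rw [h5]
      calc (33 : ℝ) ≤ 2.718 ^ 3 * 1.78 := by norm_num
        _ ≤ Real.exp 1 ^ 3 * Real.exp (6 / 10) := by gcongr
    linarith
  have hmain : y ^ (2 * (k + 1)) ≤ L := by
    rw [← Real.exp_log hL0, ← Real.exp_log (show 0 < y ^ (2 * (k + 1)) by positivity),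
      Real.exp_le_exp, Real.log_pow]
    refine le_trans ?_ hL
    push_cast
    have h1 : 2 * ((k : ℝ) + 1) ≤ 16645 * x := by linarith
    calc 2 * ((k : ℝ) + 1) * Real.log y ≤ (16645 * x) * (4 / 10 * 9 * (1 + Real.log x)) := by
          gcongr
      _ = 59922 * (x * (1 + Real.log x)) := by ring
      _ ≤ 60000 * (x * (1 + Real.log x)) := by
          apply mul_le_mul_of_nonneg_right (by norm_num) (by positivity)
      _ = _ := by ring
  have hbern : 8 * (J : ℝ) * (2 * k + 12) ≤ y ^ k := by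
    -- `k ^ 2 ≤ y ^ k`
    have h1 : ∀ n : ℕ, 1 + (n : ℝ) * 7 ≤ 8 ^ n := fun n => by
      have h := one_add_mul_le_pow (show (-2 : ℝ) ≤ 7 by norm_num) n
      norm_num at h
      exact h
    have h2 : (k : ℝ) * k ≤ (8 ^ k) * (8 ^ k) := by
      have h3 : (k : ℝ) ≤ 8 ^ k := by
        have := h1 k
        linarith
      exact mul_le_mul h3 h3 (by positivity) (by positivity)
    have h4 : (8 : ℝ) ^ k * 8 ^ k = 64 ^ k := by
      rw [← mul_pow]
      norm_num
    have h5 : (64 : ℝ) ^ k ≤ y ^ k := pow_le_pow_left₀ (by norm_num) (by linarith) _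
    have h6 : 8 * (J : ℝ) * (2 * k + 12) ≤ k * k := by
      have h7 : 8 * (J : ℝ) = k / 16 := by linarith
      rw [h7]
      nlinarith
    linarith
  have hyk1 : 1 ≤ y ^ (k + 1) := one_le_pow₀ (by linarith)
  calc 8 * (J : ℝ) * y ^ (k + 1) * (2 * (k : ℝ) + 12) =
      y ^ (k + 1) * (8 * (J : ℝ) * (2 * k + 12)) := by ring
    _ ≤ y ^ (k + 1) * y ^ k := by gcongr
    _ = 1 * (y ^ (k + 1) * y ^ k) := by ring
    _ ≤ 33 * (y ^ (k + 1) * y ^ k) := by
        apply mul_le_mul_of_nonneg_right _ (by positivity)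
        norm_num
    _ = ν * y * (y ^ (k + 1) * y ^ k) := by rw [hνy]
    _ = ν * y ^ (2 * (k + 1)) := by ring
    _ ≤ ν * L := by gcongr

/-- the final inequality of `thmSexpW` -/
theorem par_finW (A ν Ls : ℝ) (N J k N2 Lmax Q E : ℕ) (hA : 1 ≤ A) (hν0 : 0 < ν)
    (hν1 : ν ≤ 1 / 2) (hN : 3 ≤ N) (hJ1 : 64 * A / ν ≤ J)
    (hJ2 : (J : ℝ) ≤ 64 * A / ν + 1) (hk : k = 128 * J) (hN2a : ν * (N * J) / 32 ≤ N2)
    (hN2b : (N2 : ℝ) ≤ ν * (N * J) / 32 + 1) (hLmax : Lmax = N * J + 2 * N2 + N + 1)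
    (hQ : 0 < Q) (hQN : Q ≤ N) (hE : 2 ≤ E) (hLs : 200 * Ls ≤ Q * (ν * Real.log E))
    (hP : 60000 * A / ν * (1 + Real.log (A / ν)) ≤ Real.log (Real.log E)) :
    ((((N * J + N2 : ℕ) : ℝ) / N + 1) * (((N * J + N2 : ℕ) : ℝ) / N2) ^ (k + 1) + 1) *
        (Real.log (2 * (((N * J + N2 : ℕ) : ℝ) / N + 1)) +
          (k + 1) * Real.log ((N * J + N2 : ℕ) : ℝ) + 2 * Lmax * Real.log 2) +
      (Lmax * ((1 - ν) * Real.log E) + 2 * A * (N * Real.log E) + (2 * Lmax / Q + 1) * Ls) <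
      N * J * Real.log E := by
  have hE2 : (2 : ℝ) ≤ E := by exact_mod_cast hE
  set LE : ℝ := Real.log E with hLE
  have hLE0 : 0 < LE := Real.log_pos (by linarith)
  have hN3 : (3 : ℝ) ≤ N := by exact_mod_cast hN
  have hQR : (0 : ℝ) < Q := by exact_mod_cast hQ
  have hQNR : (Q : ℝ) ≤ N := by exact_mod_cast hQN
  have hx : 1 / ν ≤ A / ν := div_le_div_of_nonneg_right hA hν0.le
  have hx2 : 2 ≤ A / ν := le_trans (by rw [le_div_iff₀ hν0]; linarith) hx
  have e1 : 64 * A / ν = 64 * (A / ν) := by ring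
  have e2 : 60000 * A / ν = 60000 * (A / ν) := by ring
  rw [e1] at hJ1 hJ2
  rw [e2] at hP
  have hJ128 : (128 : ℝ) ≤ J := by linarith
  have hJpos : 1 ≤ J := by
    have : (1 : ℝ) ≤ J := by linarith
    exact_mod_cast this
  have hPW := par_PW ν (A / ν) LE J k hν0 hν1 hx hJpos (by linarith) hk hLE0 hP
  have hkR : (128 : ℝ) * J = k := by
    rw [hk]
    push_cast
    ring
  -- `A ≤ ν J / 64`, `1 ≤ ν J / 64`
  have hνJ : 64 * A ≤ ν * J := by
    have h1 : ν * (64 * (A / ν)) ≤ ν * J := by gcongr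
    have h2 : ν * (64 * (A / ν)) = 64 * A := by field_simp
    linarith
  have hX0 : (0 : ℝ) < N * J := by positivity
  set X : ℝ := N * J with hX
  have hNX : 128 * (N : ℝ) ≤ X := by
    rw [hX]
    nlinarith
  have hX384 : 384 ≤ X := by linarith
  have hNν : 64 * (N : ℝ) ≤ ν * X := by
    have h1 : (64 : ℝ) ≤ ν * J := by linarith
    have h2 : 64 * (N : ℝ) ≤ (ν * J) * N := by gcongr
    rw [hX]
    linarith
  have hAN : 64 * (A * N) ≤ ν * X := by
    have h2 : 64 * A * (N : ℝ) ≤ (ν * J) * N := by gcongr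
    rw [hX]
    linarith
  have hνX : 192 ≤ ν * X := by linarith
  have hN2pos : 0 < (N2 : ℝ) := by linarith
  have hνX2 : ν * X ≤ X / 2 := by nlinarith
  have hcast : (((N * J + N2 : ℕ) : ℝ)) = X + N2 := by
    rw [hX]
    push_cast
    ring
  have hLm : (Lmax : ℝ) = X + 2 * N2 + N + 1 := by
    rw [hLmax, hX]
    push_cast
    ring
  rw [hcast]
  have hLm1 : (Lmax : ℝ) ≤ X + 3 / 32 * (ν * X) := by linarith
  have hLm2 : (Lmax : ℝ) ≤ 2 * X := by linarith
  have hLm0 : 0 ≤ (Lmax : ℝ) := by positivity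
  -- the second part
  have hLs1 : Ls ≤ Q * (ν * LE) / 200 := by linarith
  have hpart2 : Lmax * ((1 - ν) * LE) + 2 * A * (N * LE) + (2 * Lmax / Q + 1) * Ls ≤
      (X - 3 / 4 * (ν * X)) * LE := by
    have h1 : (2 * (Lmax : ℝ) / Q + 1) * Ls ≤ (2 * Lmax / Q + 1) * (Q * (ν * LE) / 200) := by
      gcongr
    have h2 : (2 * (Lmax : ℝ) / Q + 1) * (Q * (ν * LE) / 200) =
        (2 * Lmax + Q) * ν / 200 * LE := by
      field_simp
    have h3 : (2 * (Lmax : ℝ) + Q) * ν / 200 ≤ 5 * X * ν / 200 := by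
      have : (2 * (Lmax : ℝ) + Q) ≤ 5 * X := by linarith
      gcongr
    have h4 : (Lmax : ℝ) * (1 - ν) ≤ (X + 3 / 32 * (ν * X)) * (1 - ν) := by
      apply mul_le_mul_of_nonneg_right hLm1
      linarith
    have h5 : (X + 3 / 32 * (ν * X)) * (1 - ν) ≤ X - 29 / 32 * (ν * X) := by
      have : 0 ≤ ν * (ν * X) := by positivity
      nlinarith
    have h6 : 2 * A * (N : ℝ) ≤ 1 / 32 * (ν * X) := by linarith
    calc Lmax * ((1 - ν) * LE) + 2 * A * (N * LE) + (2 * Lmax / Q + 1) * Ls ≤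
        Lmax * ((1 - ν) * LE) + 2 * A * (N * LE) + (2 * Lmax + Q) * ν / 200 * LE := by
          linarith
      _ = (Lmax * (1 - ν) + 2 * A * N + (2 * Lmax + Q) * ν / 200) * LE := by ring
      _ ≤ (X - 3 / 4 * (ν * X)) * LE := by
          apply mul_le_mul_of_nonneg_right _ hLE0.le
          have h7 : 5 * X * ν / 200 = 1 / 40 * (ν * X) := by ring
          linarith
  -- the first part
  have hc1 : (X + N2) / N + 1 ≤ 3 * J := by
    have h1 : (N2 : ℝ) ≤ N * J := by
      rw [← hX]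
      linarith
    have h2 : (X + N2) / N ≤ 2 * J := by
      rw [div_le_iff₀ (by linarith)]
      rw [hX]
      linarith
    linarith
  have hc1' : 0 ≤ (X + N2) / N := by positivity
  have hc2 : (X + N2) / N2 ≤ 33 / ν := by
    rw [div_le_div_iff₀ hN2pos hν0]
    have h1 : X * ν ≤ 32 * N2 := by linarith
    have h2 : (N2 : ℝ) * ν ≤ N2 * 1 := by
      apply mul_le_mul_of_nonneg_left _ hN2pos.le
      linarith
    linarith
  have hc3 : ((X + N2) / N2) ^ (k + 1) ≤ (33 / ν) ^ (k + 1) :=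
    pow_le_pow_left₀ (by positivity) hc2 _
  have hy1 : 1 ≤ (33 / ν) ^ (k + 1) := by
    apply one_le_pow₀
    rw [le_div_iff₀ hν0]
    linarith
  have hC : ((X + N2) / N + 1) * ((X + N2) / N2) ^ (k + 1) + 1 ≤
      4 * J * (33 / ν) ^ (k + 1) := by
    have h1 : ((X + N2) / N + 1) * ((X + N2) / N2) ^ (k + 1) ≤
        3 * J * (33 / ν) ^ (k + 1) := by gcongr
    have h2 : 1 ≤ J * (33 / ν) ^ (k + 1) := by
      have h3 : (1 : ℝ) ≤ J := by linarith
      calc (1 : ℝ) = 1 * 1 := by ring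
        _ ≤ J * (33 / ν) ^ (k + 1) := by gcongr
    linarith
  have hl1 : Real.log (2 * ((X + N2) / N + 1)) ≤ 6 * J := by
    have h1 := Real.log_le_sub_one_of_pos (show 0 < 2 * ((X + N2) / N + 1) by positivity)
    linarith
  have hl2 : Real.log (X + N2) ≤ 2 * X := by
    have h1 := Real.log_le_sub_one_of_pos (show 0 < X + N2 by positivity)
    linarith
  have hl3 : 2 * (Lmax : ℝ) * Real.log 2 ≤ 4 * X := by
    have h1 := Real.log_two_lt_d9
    have h2 : 2 * (Lmax : ℝ) * Real.log 2 ≤ 2 * (Lmax : ℝ) * 1 := by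
      apply mul_le_mul_of_nonneg_left _ (by positivity)
      linarith
    linarith
  have hJX : 6 * (J : ℝ) ≤ 2 * X := by
    rw [hX]
    nlinarith
  have hlog : Real.log (2 * ((X + N2) / N + 1)) + (k + 1) * Real.log (X + N2) +
      2 * Lmax * Real.log 2 ≤ (2 * k + 8) * X := by
    have h1 : ((k : ℝ) + 1) * Real.log (X + N2) ≤ (k + 1) * (2 * X) := by gcongr
    linarith
  have hlog0 : 0 ≤ Real.log (2 * ((X + N2) / N + 1)) + (k + 1) * Real.log (X + N2) +
      2 * Lmax * Real.log 2 := by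
    have h1 : 0 ≤ Real.log (2 * ((X + N2) / N + 1)) := Real.log_nonneg (by linarith)
    have h2 : 0 ≤ Real.log (X + N2) := Real.log_nonneg (by linarith)
    have h3 : 0 ≤ Real.log 2 := Real.log_nonneg (by norm_num)
    positivity
  have hpart1 : (((X + N2) / N + 1) * ((X + N2) / N2) ^ (k + 1) + 1) *
      (Real.log (2 * ((X + N2) / N + 1)) + (k + 1) * Real.log (X + N2) +
        2 * Lmax * Real.log 2) ≤ 1 / 2 * (ν * X) * LE := by
    calc (((X + N2) / N + 1) * ((X + N2) / N2) ^ (k + 1) + 1) *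
      (Real.log (2 * ((X + N2) / N + 1)) + (k + 1) * Real.log (X + N2) +
        2 * Lmax * Real.log 2) ≤ (4 * J * (33 / ν) ^ (k + 1)) * ((2 * k + 8) * X) := by
          gcongr
      _ ≤ (4 * J * (33 / ν) ^ (k + 1)) * ((2 * k + 12) * X) := by
          gcongr
          norm_num
      _ = 1 / 2 * X * (8 * J * (33 / ν) ^ (k + 1) * (2 * k + 12)) := by ring
      _ ≤ 1 / 2 * X * (ν * LE) := by gcongr
      _ = _ := by ring
  have hpos : 0 < ν * X * LE := by positivity
  calc (((X + N2) / N + 1) * ((X + N2) / N2) ^ (k + 1) + 1) *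
      (Real.log (2 * ((X + N2) / N + 1)) + (k + 1) * Real.log (X + N2) +
        2 * Lmax * Real.log 2) +
      (Lmax * ((1 - ν) * LE) + 2 * A * (N * LE) + (2 * Lmax / Q + 1) * Ls) ≤
      1 / 2 * (ν * X) * LE + (X - 3 / 4 * (ν * X)) * LE := add_le_add hpart1 hpart2
    _ = X * LE - 1 / 4 * (ν * X * LE) := by ring
    _ < X * LE := by linarith

end Pool.Agent.Lib.AbcZW
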