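import Mathlib
import Pool.Agent.Lib.AbcZQ.RidoutD

/-!
# The Ridout form from Theorem W (level as a variable): plain statement
-/

namespace Pool.Agent.Lib.AbcZW

open Finset Pool.Agent.Lib.AbcZQ

/-- The constants of the Ridout form, in terms of `M`. -/
theorem const_gen (C0 : ℕ) (h0 : 1 ≤ C0) (ε δ : ℝ) (hε : 0 < ε) (hε1 : ε ≤ 1) (hδ : 0 < δ)
    (hδ1 : δ ≤ 1) (Q : ℕ) (hQ1 : 1 ≤ Q) (hQ : (Q : ℝ) ≤ 6401 / ε) (Λ B M c1 : ℝ)
    (hMlam : 1 + Real.log (1 / (ε * δ)) ≤ M) (hMe : 1 / ε ≤ M)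
    (hMle : (1 + Real.log (1 / (ε * δ))) / ε ≤ M) (hc1 : 1 ≤ c1) (hΛM : Λ ≤ c1 * M)
    (hB : B = (C0 * (2 / δ) / (ε / 32)) ^ C0) :
    (16 / ε + 4 * Real.exp Λ) * B ^ 2 * (Q : ℝ) ^ (2 * ⌈(Q : ℝ) ^ (8 / ε)⌉₊ + 2) *
      Real.exp (Real.exp Λ / 4) ≤
    Real.exp (Real.exp ((c1 + 2 * C0 * (6 + C0) + 100) * M)) := by
  have hc0 : (1 : ℝ) ≤ C0 := by exact_mod_cast h0
  have hεδ : 0 < ε * δ := mul_pos hε hδ
  have hεδ1 : ε * δ ≤ 1 := mul_le_one₀ hε1 hδ.le hδ1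
  set ℓ : ℝ := Real.log (1 / (ε * δ)) with hℓ
  have hℓ0 : 0 ≤ ℓ := Real.log_nonneg (by rw [le_div_iff₀ hεδ]; linarith)
  set lam : ℝ := 1 + ℓ with hlam
  have hlam1 : 1 ≤ lam := by linarith
  have hM1 : 1 ≤ M := hlam1.trans hMlam
  have hlog2 := Real.log_two_lt_d9
  have hlog64 : Real.log 64 ≤ 5 := by
    have : (64 : ℝ) = 2 ^ 6 := by norm_num
    rw [this, Real.log_pow]
    push_cast
    linarith
  have hlog8192 : Real.log 8192 ≤ 10 := by
    have : (8192 : ℝ) = 2 ^ 13 := by norm_num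
    rw [this, Real.log_pow]
    push_cast
    linarith
  have hlA : Real.log (2 / δ / (ε / 32)) = Real.log 64 + ℓ := by
    rw [hℓ, ← Real.log_mul (by norm_num) (by positivity)]
    congr 1
    field_simp
    ring
  have hexp3 : (20 : ℝ) ≤ Real.exp 4 := by
    have h1 : (2.7 : ℝ) ≤ Real.exp 1 := by
      have := Real.exp_one_gt_d9
      linarith
    have h2 : Real.exp 4 = Real.exp 1 ^ 4 := by
      rw [← Real.exp_nat_mul]
      congr 1
      norm_num
    rw [h2]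
    calc (20 : ℝ) ≤ 2.7 ^ 4 := by norm_num
      _ ≤ Real.exp 1 ^ 4 := by gcongr
  have hexp5 : (66 : ℝ) ≤ Real.exp 5 := by
    have h1 : (2.7 : ℝ) ≤ Real.exp 1 := by
      have := Real.exp_one_gt_d9
      linarith
    have h2 : Real.exp 5 = Real.exp 1 ^ 5 := by
      rw [← Real.exp_nat_mul]
      congr 1
      norm_num
    rw [h2]
    calc (66 : ℝ) ≤ 2.7 ^ 5 := by norm_num
      _ ≤ Real.exp 1 ^ 5 := by gcongr
  have hexpΛ : Real.exp Λ ≤ Real.exp (c1 * M) := Real.exp_le_exp.2 hΛM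
  have hcM : M ≤ c1 * M := le_mul_of_one_le_left (by linarith) hc1
  have hx : ∀ x : ℝ, x ≤ Real.exp x := fun x => by linarith [Real.add_one_le_exp x]
  have F1 : 16 / ε + 4 * Real.exp Λ ≤ Real.exp (Real.exp ((c1 + 4) * M)) := by
    have e1 : 16 / ε ≤ 16 * Real.exp (c1 * M) := by
      have : 16 / ε = 16 * (1 / ε) := by ring
      rw [this]
      have := hx (c1 * M)
      linarith
    have e2 : 16 / ε + 4 * Real.exp Λ ≤ 20 * Real.exp (c1 * M) := by linarith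
    calc 16 / ε + 4 * Real.exp Λ ≤ 20 * Real.exp (c1 * M) := e2
      _ ≤ Real.exp 4 * Real.exp (c1 * M) := by gcongr
      _ = Real.exp (c1 * M + 4) := by rw [← Real.exp_add]; ring_nf
      _ ≤ Real.exp ((c1 + 4) * M) := Real.exp_le_exp.2 (by linarith)
      _ ≤ Real.exp (Real.exp ((c1 + 4) * M)) := Real.exp_le_exp.2 (hx _)
  have hBpos : 0 < C0 * (2 / δ) / (ε / 32) := by positivity
  have hB0 : 0 < B := by rw [hB]; positivity
  have F2 : B ^ 2 ≤ Real.exp (Real.exp (2 * C0 * (6 + C0) * M)) := by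
    have e1 : Real.log (B ^ 2) = 2 * (C0 * (Real.log C0 + (Real.log 64 + ℓ))) := by
      rw [Real.log_pow, hB, Real.log_pow, mul_div_assoc, Real.log_mul (by positivity)
        (by positivity), hlA]
      push_cast
      ring
    have e2 : Real.log C0 ≤ C0 := (Real.log_le_sub_one_of_pos (by linarith)).trans (by linarith)
    have e3 : Real.log (B ^ 2) ≤ 2 * C0 * (6 + C0) * M := by
      rw [e1]
      have h1 : Real.log C0 + (Real.log 64 + ℓ) ≤ (6 + C0) * lam := by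
        have : (C0 : ℝ) ≤ C0 * lam := le_mul_of_one_le_right (by linarith) hlam1
        linarith
      have h2 : (6 + (C0 : ℝ)) * lam ≤ (6 + C0) * M := by gcongr
      calc 2 * (C0 * (Real.log C0 + (Real.log 64 + ℓ))) ≤ 2 * (C0 * ((6 + C0) * M)) := by
            gcongr
            exact h1.trans h2
        _ = _ := by ring
    calc B ^ 2 = Real.exp (Real.log (B ^ 2)) := (Real.exp_log (by positivity)).symm
      _ ≤ Real.exp (Real.exp (2 * C0 * (6 + C0) * M)) :=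
        Real.exp_le_exp.2 (e3.trans (hx _))
  have hQR1 : (1 : ℝ) ≤ Q := by exact_mod_cast hQ1
  have hQ0 : (0 : ℝ) < Q := by linarith
  have hlQ : Real.log Q ≤ 11 * lam := by
    have e1 : (Q : ℝ) ≤ 8192 * (1 / (ε * δ)) := by
      refine hQ.trans ?_
      have h1 : 1 / ε ≤ 1 / (ε * δ) := by
        apply one_div_le_one_div_of_le hεδ
        calc ε * δ ≤ ε * 1 := mul_le_mul_of_nonneg_left hδ1 hε.le
          _ = ε := mul_one _
      have h2 : 6401 / ε = 6401 * (1 / ε) := by ring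
      have h3 : 0 < 1 / ε := by positivity
      rw [h2]
      linarith
    have e2 := Real.log_le_log hQ0 e1
    rw [Real.log_mul (by norm_num) (by positivity)] at e2
    linarith
  have hlQ0 : 0 ≤ Real.log Q := Real.log_nonneg hQR1
  have F3 : (Q : ℝ) ^ (2 * ⌈(Q : ℝ) ^ (8 / ε)⌉₊ + 2) ≤ Real.exp (Real.exp (94 * M)) := by
    have e1 : (Q : ℝ) ^ (8 / ε) ≤ Real.exp (88 * M) := by
      rw [Real.rpow_def_of_pos hQ0, Real.exp_le_exp]
      calc Real.log Q * (8 / ε) ≤ (11 * lam) * (8 / ε) := by gcongr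
        _ = 88 * (lam / ε) := by ring
        _ ≤ 88 * M := by gcongr
    have e2 : (1 : ℝ) ≤ Real.exp (88 * M) := Real.one_le_exp (by positivity)
    have e3 : ((⌈(Q : ℝ) ^ (8 / ε)⌉₊ : ℕ) : ℝ) ≤ 2 * Real.exp (88 * M) := by
      have h1 : ((⌈(Q : ℝ) ^ (8 / ε)⌉₊ : ℕ) : ℝ) < (Q : ℝ) ^ (8 / ε) + 1 :=
        Nat.ceil_lt_add_one (by positivity)
      linarith
    have e4 : Real.log ((Q : ℝ) ^ (2 * ⌈(Q : ℝ) ^ (8 / ε)⌉₊ + 2)) ≤ Real.exp (94 * M) := by
      rw [Real.log_pow]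
      push_cast
      have h1 : 2 * ((⌈(Q : ℝ) ^ (8 / ε)⌉₊ : ℕ) : ℝ) + 2 ≤ 6 * Real.exp (88 * M) := by linarith
      have h2 : Real.log Q ≤ 11 * Real.exp M := by
        have := hx M
        linarith
      calc (2 * ((⌈(Q : ℝ) ^ (8 / ε)⌉₊ : ℕ) : ℝ) + 2) * Real.log Q
          ≤ (6 * Real.exp (88 * M)) * (11 * Real.exp M) := by gcongr
        _ = 66 * Real.exp (89 * M) := by
          rw [show 89 * M = 88 * M + M by ring, Real.exp_add]
          ring
        _ ≤ Real.exp 5 * Real.exp (89 * M) := by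
          apply mul_le_mul_of_nonneg_right hexp5 (by positivity)
        _ = Real.exp (89 * M + 5) := by rw [← Real.exp_add]; ring_nf
        _ ≤ Real.exp (94 * M) := Real.exp_le_exp.2 (by linarith)
    calc (Q : ℝ) ^ (2 * ⌈(Q : ℝ) ^ (8 / ε)⌉₊ + 2)
        = Real.exp (Real.log ((Q : ℝ) ^ (2 * ⌈(Q : ℝ) ^ (8 / ε)⌉₊ + 2))) :=
          (Real.exp_log (by positivity)).symm
      _ ≤ Real.exp (Real.exp (94 * M)) := Real.exp_le_exp.2 e4
  have F4 : Real.exp (Real.exp Λ / 4) ≤ Real.exp (Real.exp (c1 * M)) := by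
    rw [Real.exp_le_exp]
    have : 0 < Real.exp Λ := Real.exp_pos _
    linarith
  have hge4 : (4 : ℝ) ≤ Real.exp 2 := by
    have h1 : (2 : ℝ) ≤ Real.exp 1 := by
      have := Real.exp_one_gt_d9
      linarith
    have h2 : Real.exp 2 = Real.exp 1 ^ 2 := by
      rw [← Real.exp_nat_mul]
      congr 1
      norm_num
    rw [h2]
    calc (4 : ℝ) ≤ 2 ^ 2 := by norm_num
      _ ≤ Real.exp 1 ^ 2 := by gcongr
  set c : ℝ := c1 + 2 * C0 * (6 + C0) + 98 with hc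
  have hC0sq : 0 ≤ 2 * (C0 : ℝ) * (6 + C0) := by positivity
  have G1 : Real.exp ((c1 + 4) * M) ≤ Real.exp (c * M) := by
    rw [Real.exp_le_exp]
    apply mul_le_mul_of_nonneg_right _ (by linarith)
    rw [hc]
    linarith
  have G2 : Real.exp (2 * C0 * (6 + C0) * M) ≤ Real.exp (c * M) := by
    rw [Real.exp_le_exp]
    apply mul_le_mul_of_nonneg_right _ (by linarith)
    rw [hc]
    linarith
  have G3 : Real.exp (94 * M) ≤ Real.exp (c * M) := by
    rw [Real.exp_le_exp]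
    apply mul_le_mul_of_nonneg_right _ (by linarith)
    rw [hc]
    linarith
  have G4 : Real.exp (c1 * M) ≤ Real.exp (c * M) := by
    rw [Real.exp_le_exp]
    apply mul_le_mul_of_nonneg_right _ (by linarith)
    rw [hc]
    linarith
  have hcexp : (c1 + 2 * C0 * (6 + C0) + 100) * M = (c + 2) * M := by
    rw [hc]
    ring
  rw [hcexp]
  calc (16 / ε + 4 * Real.exp Λ) * B ^ 2 * (Q : ℝ) ^ (2 * ⌈(Q : ℝ) ^ (8 / ε)⌉₊ + 2) *
      Real.exp (Real.exp Λ / 4)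
      ≤ Real.exp (Real.exp ((c1 + 4) * M)) * Real.exp (Real.exp (2 * C0 * (6 + C0) * M)) *
        Real.exp (Real.exp (94 * M)) * Real.exp (Real.exp (c1 * M)) := by gcongr
    _ = Real.exp (Real.exp ((c1 + 4) * M) + Real.exp (2 * C0 * (6 + C0) * M) +
        Real.exp (94 * M) + Real.exp (c1 * M)) := by
        rw [Real.exp_add, Real.exp_add, Real.exp_add]
    _ ≤ Real.exp (4 * Real.exp (c * M)) := Real.exp_le_exp.2 (by linarith)
    _ ≤ Real.exp (Real.exp 2 * Real.exp (c * M)) := by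
        apply Real.exp_le_exp.2
        exact mul_le_mul_of_nonneg_right hge4 (Real.exp_pos _).le
    _ = Real.exp (Real.exp (2 + c * M)) := by rw [Real.exp_add]
    _ ≤ Real.exp (Real.exp ((c + 2) * M)) := by
        apply Real.exp_le_exp.2
        apply Real.exp_le_exp.2
        linarith

/-- **The Ridout form, explicit**, from the statement of Theorem W. -/
theorem ridoutPW (C0 : ℕ) (h0 : 1 ≤ C0) (hS : ∀ A ν : ℝ, 1 ≤ A → 0 < ν → ν ≤ 1 / 2 →
    SAt A ν (C0 * A / ν * (1 + Real.log (A / ν))) ((C0 * A / ν) ^ C0)) :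
    ∃ C : ℝ, 1 ≤ C ∧ ∀ ε δ : ℝ, 0 < ε → ε ≤ 1 → 0 < δ → δ ≤ 1 →
    ∀ (Z1 Z2 D : ℕ) (s : ℤ), 0 < Z1 → 0 < Z2 → Nat.Coprime Z1 Z2 → (s = 1 ∨ s = -1) →
    (Z1 : ℤ) ≠ s * Z2 → 0 < D → (D : ℤ) ∣ (Z1 : ℤ) - s * Z2 →
    Real.log D ≤ δ * Real.log (max Z1 Z2 : ℕ) +
      Real.exp (Real.exp (C / (ε * δ) * (1 + Real.log (1 / (ε * δ))))) *
        ((∏ p ∈ (Z1 * Z2 * D).primeFactors, p : ℕ) : ℝ) ^ ε := by
  have hc0 : (1 : ℝ) ≤ C0 := by exact_mod_cast h0
  refine ⟨384 * C0 + 2 * C0 * (6 + C0) + 100, ?_, ?_⟩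
  · have : 0 ≤ 2 * (C0 : ℝ) * (6 + C0) := by positivity
    linarith
  intro ε δ hε hε1 hδ hδ1 Z1 Z2 D s hZ1 hZ2 hcop hs hne hD hdvd
  have hrad0 : 0 ≤ ((∏ p ∈ (Z1 * Z2 * D).primeFactors, p : ℕ) : ℝ) ^ ε := by positivity
  rcases le_or_gt (Real.log D) (δ * Real.log (max Z1 Z2 : ℕ)) with h | hlarge
  · have : 0 ≤ Real.exp (Real.exp ((384 * C0 + 2 * C0 * (6 + C0) + 100) / (ε * δ) *
        (1 + Real.log (1 / (ε * δ))))) *
        ((∏ p ∈ (Z1 * Z2 * D).primeFactors, p : ℕ) : ℝ) ^ ε := by positivity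
    linarith
  have hεδ : 0 < ε * δ := mul_pos hε hδ
  have hεδ1 : ε * δ ≤ 1 := mul_le_one₀ hε1 hδ.le hδ1
  have hεδε : ε * δ ≤ ε := by
    calc ε * δ ≤ ε * 1 := mul_le_mul_of_nonneg_left hδ1 hε.le
      _ = ε := mul_one _
  have hℓ0 : 0 ≤ Real.log (1 / (ε * δ)) := Real.log_nonneg (by rw [le_div_iff₀ hεδ]; linarith)
  set lam : ℝ := 1 + Real.log (1 / (ε * δ)) with hlam
  have hlam1 : 1 ≤ lam := by linarith
  set M : ℝ := 1 / (ε * δ) * lam with hM
  have hinv1 : 1 ≤ 1 / (ε * δ) := by rw [le_div_iff₀ hεδ]; linarith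
  have hinve : 1 / ε ≤ 1 / (ε * δ) := one_div_le_one_div_of_le hεδ hεδε
  have hMlam : lam ≤ M := le_mul_of_one_le_left (by linarith) hinv1
  have hMe : 1 / ε ≤ M := hinve.trans (le_mul_of_one_le_right (by positivity) hlam1)
  have hMle : lam / ε ≤ M := by
    calc lam / ε = 1 / ε * lam := by ring
      _ ≤ M := mul_le_mul_of_nonneg_right hinve (by linarith)
  have hlog2 := Real.log_two_lt_d9
  have hlog64 : Real.log 64 ≤ 5 := by
    have : (64 : ℝ) = 2 ^ 6 := by norm_num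
    rw [this, Real.log_pow]
    push_cast
    linarith
  have hlA : Real.log (2 / δ / (ε / 32)) = Real.log 64 + Real.log (1 / (ε * δ)) := by
    rw [← Real.log_mul (by norm_num) (by positivity)]
    congr 1
    field_simp
    ring
  set Λ : ℝ := C0 * (2 / δ) / (ε / 32) * (1 + Real.log (2 / δ / (ε / 32))) with hΛ
  set B : ℝ := (C0 * (2 / δ) / (ε / 32)) ^ C0 with hB
  have hΛM : Λ ≤ 384 * C0 * M := by
    have e1 : 1 + Real.log (2 / δ / (ε / 32)) ≤ 6 * lam := by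
      rw [hlA]
      linarith
    have e2 : C0 * (2 / δ) / (ε / 32) = 64 * C0 * (1 / (ε * δ)) := by
      field_simp
      ring
    rw [hΛ, e2]
    calc 64 * C0 * (1 / (ε * δ)) * (1 + Real.log (2 / δ / (ε / 32)))
        ≤ 64 * C0 * (1 / (ε * δ)) * (6 * lam) := by gcongr
      _ = 384 * C0 * M := by rw [hM]; ring
  have h2δ : 1 ≤ 2 / δ := by rw [le_div_iff₀ hδ]; linarith
  have hratio : 1 ≤ 2 / δ / (ε / 32) := by
    rw [le_div_iff₀ (by positivity)]
    linarith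
  have hΛ0 : 0 ≤ Λ := by
    have : 0 ≤ Real.log (2 / δ / (ε / 32)) := Real.log_nonneg hratio
    positivity
  have hB1 : 1 ≤ B := by
    rw [hB]
    apply one_le_pow₀
    rw [mul_div_assoc]
    exact one_le_mul_of_one_le_of_one_le hc0 hratio
  set Q : ℕ := ⌈6400 / ε⌉₊ with hQ
  have hQl : 6400 / ε ≤ Q := Nat.le_ceil _
  have hQu : (Q : ℝ) ≤ 6401 / ε := by
    have h1 : (Q : ℝ) < 6400 / ε + 1 := Nat.ceil_lt_add_one (by positivity)
    have h2 : 1 ≤ 1 / ε := by rw [le_div_iff₀ hε]; linarith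
    have h3 : 6401 / ε = 6400 / ε + 1 / ε := by ring
    linarith
  have hQ1 : 1 ≤ Q := Nat.one_le_iff_ne_zero.2 (by
    intro h
    have h1 : 0 < 6400 / ε := by positivity
    rw [h] at hQl
    push_cast at hQl
    linarith)
  have hcore := ridout_core ε δ Λ B hε hε1 hδ hΛ0 hB1
    (hS (2 / δ) (ε / 32) h2δ (by positivity) (by linarith)) Q hQl Z1 Z2 D s hZ1 hZ2
    hcop hs hne hD hdvd hlarge
  have hconst := const_gen C0 h0 ε δ hε hε1 hδ hδ1 Q hQ1 hQu Λ B M (384 * C0) hMlam hMe hMle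
    (by linarith) hΛM hB
  have hfin := hcore.trans (mul_le_mul_of_nonneg_right hconst hrad0)
  have hmax0 : 0 ≤ δ * Real.log (max Z1 Z2 : ℕ) :=
    mul_nonneg hδ.le (Real.log_natCast_nonneg _)
  have hexpr : (384 * C0 + 2 * C0 * (6 + C0) + 100) / (ε * δ) * lam =
      (384 * C0 + 2 * C0 * (6 + C0) + 100) * M := by
    rw [hM]
    ring
  rw [hexpr]
  linarith

end Pool.Agent.Lib.AbcZW
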