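import Mathlib
import Pool.Agent.Lib.AbcZW.DefsW
import Pool.Agent.Lib.AbcZW.RidoutPW

/-!
# The Ridout form and the bound for all triples, with explicit constants
-/

namespace Pool.Agent.Lib.AbcZW

open Finset Pool.Agent.Lib.AbcZQ

/-- The Ridout form, explicit, from the statement of Theorem W. -/
theorem ridoutPE (C0 : ℕ) (h0 : 1 ≤ C0) (hS : ∀ A ν : ℝ, 1 ≤ A → 0 < ν → ν ≤ 1 / 2 →
    SAt A ν (C0 * A / ν * (1 + Real.log (A / ν))) ((C0 * A / ν) ^ C0)) :
    ∀ ε δ : ℝ, 0 < ε → ε ≤ 1 → 0 < δ → δ ≤ 1 →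
    ∀ (Z1 Z2 D : ℕ) (s : ℤ), 0 < Z1 → 0 < Z2 → Nat.Coprime Z1 Z2 → (s = 1 ∨ s = -1) →
    (Z1 : ℤ) ≠ s * Z2 → 0 < D → (D : ℤ) ∣ (Z1 : ℤ) - s * Z2 →
    Real.log D ≤ δ * Real.log (max Z1 Z2 : ℕ) +
      Real.exp (Real.exp ((384 * C0 + 2 * C0 * (6 + C0) + 100) / (ε * δ) *
        (1 + Real.log (1 / (ε * δ))))) *
        ((∏ p ∈ (Z1 * Z2 * D).primeFactors, p : ℕ) : ℝ) ^ ε := by
  have hc0 : (1 : ℝ) ≤ C0 := by exact_mod_cast h0
  intro ε δ hε hε1 hδ hδ1 Z1 Z2 D s hZ1 hZ2 hcop hs hne hD hdvd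
  have hrad0 : 0 ≤ ((∏ p ∈ (Z1 * Z2 * D).primeFactors, p : ℕ) : ℝ) ^ ε := by positivity
  rcases le_or_gt (Real.log D) (δ * Real.log (max Z1 Z2 : ℕ)) with h | hlarge
  · have : 0 ≤ Real.exp (Real.exp ((384 * C0 + 2 * C0 * (6 + C0) + 100) / (ε * δ) *
        (1 + Real.log (1 / (ε * δ))))) *
        ((∏ p ∈ (Z1 * Z2 * D).primeFactors, p : ℕ) : ℝ) ^ ε := by positivity
    linarith
  have hεδ : 0 < ε * δ := mul_pos hε hδ
  have hεδ1 : ε * δ ≤ 1 := mul_le_one₀ hε1 hδ.le hδ1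
  have hεδε : ε * δ ≤ ε := by
    calc ε * δ ≤ ε * 1 := mul_le_mul_of_nonneg_left hδ1 hε.le
      _ = ε := mul_one _
  have hℓ0 : 0 ≤ Real.log (1 / (ε * δ)) := Real.log_nonneg (by rw [le_div_iff₀ hεδ]; linarith)
  set lam : ℝ := 1 + Real.log (1 / (ε * δ)) with hlam
  have hlam1 : 1 ≤ lam := by linarith
  set M : ℝ := 1 / (ε * δ) * lam with hM
  have hinv1 : 1 ≤ 1 / (ε * δ) := by rw [le_div_iff₀ hεδ]; linarith
  have hinve : 1 / ε ≤ 1 / (ε * δ) := one_div_le_one_div_of_le hεδ hεδε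
  have hMlam : lam ≤ M := le_mul_of_one_le_left (by linarith) hinv1
  have hMe : 1 / ε ≤ M := hinve.trans (le_mul_of_one_le_right (by positivity) hlam1)
  have hMle : lam / ε ≤ M := by
    calc lam / ε = 1 / ε * lam := by ring
      _ ≤ M := mul_le_mul_of_nonneg_right hinve (by linarith)
  have hlog2 := Real.log_two_lt_d9
  have hlog64 : Real.log 64 ≤ 5 := by
    have : (64 : ℝ) = 2 ^ 6 := by norm_num
    rw [this, Real.log_pow]
    push_cast
    linarith
  have hlA : Real.log (2 / δ / (ε / 32)) = Real.log 64 + Real.log (1 / (ε * δ)) := by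
    rw [← Real.log_mul (by norm_num) (by positivity)]
    congr 1
    field_simp
    ring
  set Λ : ℝ := C0 * (2 / δ) / (ε / 32) * (1 + Real.log (2 / δ / (ε / 32))) with hΛ
  set B : ℝ := (C0 * (2 / δ) / (ε / 32)) ^ C0 with hB
  have hΛM : Λ ≤ 384 * C0 * M := by
    have e1 : 1 + Real.log (2 / δ / (ε / 32)) ≤ 6 * lam := by
      rw [hlA]
      linarith
    have e2 : C0 * (2 / δ) / (ε / 32) = 64 * C0 * (1 / (ε * δ)) := by
      field_simp
      ring
    rw [hΛ, e2]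
    calc 64 * C0 * (1 / (ε * δ)) * (1 + Real.log (2 / δ / (ε / 32)))
        ≤ 64 * C0 * (1 / (ε * δ)) * (6 * lam) := by gcongr
      _ = 384 * C0 * M := by rw [hM]; ring
  have h2δ : 1 ≤ 2 / δ := by rw [le_div_iff₀ hδ]; linarith
  have hratio : 1 ≤ 2 / δ / (ε / 32) := by
    rw [le_div_iff₀ (by positivity)]
    linarith
  have hΛ0 : 0 ≤ Λ := by
    have : 0 ≤ Real.log (2 / δ / (ε / 32)) := Real.log_nonneg hratio
    positivity
  have hB1 : 1 ≤ B := by
    rw [hB]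
    apply one_le_pow₀
    rw [mul_div_assoc]
    exact one_le_mul_of_one_le_of_one_le hc0 hratio
  set Q : ℕ := ⌈6400 / ε⌉₊ with hQ
  have hQl : 6400 / ε ≤ Q := Nat.le_ceil _
  have hQu : (Q : ℝ) ≤ 6401 / ε := by
    have h1 : (Q : ℝ) < 6400 / ε + 1 := Nat.ceil_lt_add_one (by positivity)
    have h2 : 1 ≤ 1 / ε := by rw [le_div_iff₀ hε]; linarith
    have h3 : 6401 / ε = 6400 / ε + 1 / ε := by ring
    linarith
  have hQ1 : 1 ≤ Q := Nat.one_le_iff_ne_zero.2 (by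
    intro h
    have h1 : 0 < 6400 / ε := by positivity
    rw [h] at hQl
    push_cast at hQl
    linarith)
  have hcore := ridout_core ε δ Λ B hε hε1 hδ hΛ0 hB1
    (hS (2 / δ) (ε / 32) h2δ (by positivity) (by linarith)) Q hQl Z1 Z2 D s hZ1 hZ2
    hcop hs hne hD hdvd hlarge
  have hconst := const_gen C0 h0 ε δ hε hε1 hδ hδ1 Q hQ1 hQu Λ B M (384 * C0) hMlam hMe hMle
    (by linarith) hΛM hB
  have hfin := hcore.trans (mul_le_mul_of_nonneg_right hconst hrad0)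
  have hmax0 : 0 ≤ δ * Real.log (max Z1 Z2 : ℕ) :=
    mul_nonneg hδ.le (Real.log_natCast_nonneg _)
  have hexpr : (384 * C0 + 2 * C0 * (6 + C0) + 100) / (ε * δ) * lam =
      (384 * C0 + 2 * C0 * (6 + C0) + 100) * M := by
    rw [hM]
    ring
  rw [hexpr]
  linarith


theorem ridoutE (C0 : ℕ) (h0 : 1 ≤ C0) (hS : ThmW C0) :
    RidoutW (384 * C0 + 2 * C0 * (6 + C0) + 100) := by
  exact ridoutPE C0 h0 (by
    intro A ν hA hν hν2 T Q p u Z1 Z2 s hp hZ1 hZ2 hcop hs hne hdvd hl1 hl2 hT hpT hQ hΛ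
    exact hS A ν T Q p u Z1 Z2 s hA hν hν2 hp hZ1 hZ2 hcop hs hne hdvd hl1 hl2 hT hpT hQ hΛ)

/-- All triples from the Ridout form. -/
theorem allEpsE (C : ℝ) (hC : 1 ≤ C) (h : RidoutW C) : AllEpsW (4 * C + 1) := by
  intro ε hε hε1 a b c habc
  obtain ⟨ha, hb, hc, hcop⟩ := habc
  have hcpos : 0 < c := by omega
  have h2 := h ε (1 / 2) hε hε1 (by norm_num) (by norm_num) a b c (-1) ha hb hcop (Or.inr rfl)
    (by omega) hcpos (by
      have : ((a : ℤ) - -1 * (b : ℤ)) = (c : ℤ) := by rw [← hc]; push_cast; ring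
      rw [this])
  set R : ℝ := (rad (a * b * c) : ℝ) ^ ε with hR
  have hR0 : 0 ≤ R := by positivity
  have hmax : Real.log (max a b : ℕ) ≤ Real.log c := by
    apply Real.log_le_log
    · have : 0 < max a b := lt_of_lt_of_le ha (le_max_left _ _)
      exact_mod_cast this
    · have : max a b ≤ c := max_le (by omega) (by omega)
      exact_mod_cast this
  have hinv : 1 ≤ 1 / ε := by
    rw [le_div_iff₀ hε, one_mul]
    exact hε1
  have hlog : 0 ≤ Real.log (1 / ε) := Real.log_nonneg hinv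
  have hl2 : Real.log 2 ≤ 0.7 := by
    have := Real.log_two_lt_d9
    linarith
  have hl20 : 0 ≤ Real.log 2 := Real.log_nonneg (by norm_num)
  have hlog2 : Real.log (1 / (ε * (1 / 2))) = Real.log 2 + Real.log (1 / ε) := by
    rw [← Real.log_mul (by norm_num) (by positivity)]
    congr 1
    field_simp
  set X : ℝ := C / (ε * (1 / 2)) * (1 + Real.log (1 / (ε * (1 / 2)))) with hX
  set Y : ℝ := (4 * C + 1) / ε * (1 + Real.log (1 / ε)) with hY
  have hX0 : 0 ≤ X := by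
    rw [hX, hlog2]
    positivity
  have hXY : X + 1 ≤ Y := by
    have e1 : X = 2 * C * (1 / ε) * (1 + (Real.log 2 + Real.log (1 / ε))) := by
      rw [hX, hlog2]
      field_simp
    have e2 : Y = 4 * C * (1 / ε) * (1 + Real.log (1 / ε)) +
        1 / ε * (1 + Real.log (1 / ε)) := by
      rw [hY]
      ring
    have e3 : 1 ≤ 1 / ε * (1 + Real.log (1 / ε)) :=
      one_le_mul_of_one_le_of_one_le hinv (by linarith)
    have e4 : 1 + (Real.log 2 + Real.log (1 / ε)) ≤ 2 * (1 + Real.log (1 / ε)) := by linarith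
    have e5 : 2 * C * (1 / ε) * (1 + (Real.log 2 + Real.log (1 / ε))) ≤
        2 * C * (1 / ε) * (2 * (1 + Real.log (1 / ε))) :=
      mul_le_mul_of_nonneg_left e4 (by positivity)
    rw [e1, e2]
    linarith
  have hexp1 : 1 ≤ Real.exp X := Real.one_le_exp hX0
  have hKK : 2 * Real.exp (Real.exp X) ≤ Real.exp (Real.exp Y) := by
    have e1 : (2 : ℝ) ≤ Real.exp 1 := by
      have := Real.add_one_le_exp (1 : ℝ)
      linarith
    calc 2 * Real.exp (Real.exp X) ≤ Real.exp 1 * Real.exp (Real.exp X) := by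
          gcongr
      _ = Real.exp (1 + Real.exp X) := (Real.exp_add _ _).symm
      _ ≤ Real.exp (Real.exp Y) := by
          apply Real.exp_le_exp.2
          calc 1 + Real.exp X ≤ 2 * Real.exp X := by linarith
            _ ≤ Real.exp 1 * Real.exp X := mul_le_mul_of_nonneg_right e1 (Real.exp_pos _).le
            _ = Real.exp (X + 1) := by rw [← Real.exp_add, add_comm]
            _ ≤ Real.exp Y := Real.exp_le_exp.2 hXY
  have h3 : Real.log c ≤ 2 * Real.exp (Real.exp X) * R := by linarith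
  exact h3.trans (mul_le_mul_of_nonneg_right hKK hR0)

end Pool.Agent.Lib.AbcZW
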