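import Mathlib
import Pool.Agent.Lib.AbcZW.DefsW
import Pool.Agent.Lib.AbcZW.RidoutPW

/-!
# The Ridout form and the bound for all triples, from Theorem W
-/

namespace Pool.Agent.Lib.AbcZW

open Finset Pool.Agent.Lib.AbcZQ

theorem ridoutW_of (C0 : ℕ) (h0 : 1 ≤ C0) (hS : ThmW C0) : ∃ C : ℝ, 1 ≤ C ∧ RidoutW C := by
  obtain ⟨C, hC, h⟩ := ridoutPW C0 h0 (by
    intro A ν hA hν hν2 T Q p u Z1 Z2 s hp hZ1 hZ2 hcop hs hne hdvd hl1 hl2 hT hpT hQ hΛ
    exact hS A ν T Q p u Z1 Z2 s hA hν hν2 hp hZ1 hZ2 hcop hs hne hdvd hl1 hl2 hT hpT hQ hΛ)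
  exact ⟨C, hC, h⟩

theorem allEpsW_of (C0 : ℕ) (h0 : 1 ≤ C0) (hS : ThmW C0) : ∃ C : ℝ, 1 ≤ C ∧ AllEpsW C := by
  obtain ⟨C, hC, h⟩ := ridoutW_of C0 h0 hS
  refine ⟨4 * C + 1, by linarith, ?_⟩
  intro ε hε hε1 a b c habc
  obtain ⟨ha, hb, hc, hcop⟩ := habc
  have hcpos : 0 < c := by omega
  have h2 := h ε (1 / 2) hε hε1 (by norm_num) (by norm_num) a b c (-1) ha hb hcop (Or.inr rfl)
    (by omega) hcpos (by
      have : ((a : ℤ) - -1 * (b : ℤ)) = (c : ℤ) := by rw [← hc]; push_cast; ring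
      rw [this])
  set R : ℝ := (rad (a * b * c) : ℝ) ^ ε with hR
  have hR0 : 0 ≤ R := by positivity
  have hmax : Real.log (max a b : ℕ) ≤ Real.log c := by
    apply Real.log_le_log
    · have : 0 < max a b := lt_of_lt_of_le ha (le_max_left _ _)
      exact_mod_cast this
    · have : max a b ≤ c := max_le (by omega) (by omega)
      exact_mod_cast this
  have hinv : 1 ≤ 1 / ε := by
    rw [le_div_iff₀ hε, one_mul]
    exact hε1
  have hlog : 0 ≤ Real.log (1 / ε) := Real.log_nonneg hinv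
  have hl2 : Real.log 2 ≤ 0.7 := by
    have := Real.log_two_lt_d9
    linarith
  have hl20 : 0 ≤ Real.log 2 := Real.log_nonneg (by norm_num)
  have hlog2 : Real.log (1 / (ε * (1 / 2))) = Real.log 2 + Real.log (1 / ε) := by
    rw [← Real.log_mul (by norm_num) (by positivity)]
    congr 1
    field_simp
  set X : ℝ := C / (ε * (1 / 2)) * (1 + Real.log (1 / (ε * (1 / 2)))) with hX
  set Y : ℝ := (4 * C + 1) / ε * (1 + Real.log (1 / ε)) with hY
  have hX0 : 0 ≤ X := by
    rw [hX, hlog2]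
    positivity
  have hXY : X + 1 ≤ Y := by
    have e1 : X = 2 * C * (1 / ε) * (1 + (Real.log 2 + Real.log (1 / ε))) := by
      rw [hX, hlog2]
      field_simp
    have e2 : Y = 4 * C * (1 / ε) * (1 + Real.log (1 / ε)) +
        1 / ε * (1 + Real.log (1 / ε)) := by
      rw [hY]
      ring
    have e3 : 1 ≤ 1 / ε * (1 + Real.log (1 / ε)) :=
      one_le_mul_of_one_le_of_one_le hinv (by linarith)
    have e4 : 1 + (Real.log 2 + Real.log (1 / ε)) ≤ 2 * (1 + Real.log (1 / ε)) := by linarith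
    have e5 : 2 * C * (1 / ε) * (1 + (Real.log 2 + Real.log (1 / ε))) ≤
        2 * C * (1 / ε) * (2 * (1 + Real.log (1 / ε))) :=
      mul_le_mul_of_nonneg_left e4 (by positivity)
    rw [e1, e2]
    linarith
  have hexp1 : 1 ≤ Real.exp X := Real.one_le_exp hX0
  have hKK : 2 * Real.exp (Real.exp X) ≤ Real.exp (Real.exp Y) := by
    have e1 : (2 : ℝ) ≤ Real.exp 1 := by
      have := Real.add_one_le_exp (1 : ℝ)
      linarith
    calc 2 * Real.exp (Real.exp X) ≤ Real.exp 1 * Real.exp (Real.exp X) := by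
          gcongr
      _ = Real.exp (1 + Real.exp X) := (Real.exp_add _ _).symm
      _ ≤ Real.exp (Real.exp Y) := by
          apply Real.exp_le_exp.2
          calc 1 + Real.exp X ≤ 2 * Real.exp X := by linarith
            _ ≤ Real.exp 1 * Real.exp X := mul_le_mul_of_nonneg_right e1 (Real.exp_pos _).le
            _ = Real.exp (X + 1) := by rw [← Real.exp_add, add_comm]
            _ ≤ Real.exp Y := Real.exp_le_exp.2 hXY
  have h3 : Real.log c ≤ 2 * Real.exp (Real.exp X) * R := by linarith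
  exact h3.trans (mul_le_mul_of_nonneg_right hKK hR0)

end Pool.Agent.Lib.AbcZW
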