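import Mathlib
import Pool.Agent.Lib.AbcZW.DefsW
import Pool.Agent.Lib.AbcZW.ThmWE
import Pool.Agent.Lib.AbcZW.RidoutE
import Pool.Agent.Lib.AbcZW.AsyE

/-!
# All abc-triples: the final statements with explicit constants
-/

namespace Pool.Agent.Lib.AbcZW

open Finset

theorem radE_pos (n : ℕ) : 0 < rad n :=
  Finset.prod_pos fun _ hp => (Nat.prime_of_mem_primeFactors hp).pos

theorem inv_log_nonneg (x : ℝ) (hx : 0 < x) (hx1 : x ≤ 1) : 0 ≤ 1 + Real.log (1 / x) := by
  have : 0 ≤ Real.log (1 / x) := Real.log_nonneg (by rw [le_div_iff₀ hx]; linarith)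
  linarith

theorem constE_mono (C C' x : ℝ) (hx : 0 < x) (hx1 : x ≤ 1) (h : C ≤ C') :
    Real.exp (Real.exp (C / x * (1 + Real.log (1 / x)))) ≤
      Real.exp (Real.exp (C' / x * (1 + Real.log (1 / x)))) := by
  apply Real.exp_le_exp.2
  apply Real.exp_le_exp.2
  apply mul_le_mul_of_nonneg_right _ (inv_log_nonneg x hx hx1)
  exact div_le_div_of_nonneg_right h hx.le

theorem RidoutW.mono {C C' : ℝ} (h : RidoutW C) (hC : C ≤ C') : RidoutW C' := by
  intro ε d hε hε1 hd hd1 Z1 Z2 D s hZ1 hZ2 hcop hs hne hD hdvd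
  have h1 := h ε d hε hε1 hd hd1 Z1 Z2 D s hZ1 hZ2 hcop hs hne hD hdvd
  have h2 := constE_mono C C' (ε * d) (mul_pos hε hd) (mul_le_one₀ hε1 hd.le hd1) hC
  have h3 : 0 ≤ (rad (Z1 * Z2 * D) : ℝ) ^ ε := by positivity
  have h4 := mul_le_mul_of_nonneg_right h2 h3
  linarith

theorem AllEpsW.mono {C C' : ℝ} (h : AllEpsW C) (hC : C ≤ C') : AllEpsW C' := by
  intro ε hε hε1 a b c habc
  have h1 := h ε hε hε1 a b c habc
  have h2 := constE_mono C C' ε hε hε1 hC
  have h3 : 0 ≤ (rad (a * b * c) : ℝ) ^ ε := by positivity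
  have h4 := mul_le_mul_of_nonneg_right h2 h3
  linarith

theorem ridoutRaw : RidoutW 219348442980 := by
  have h := ridoutE 331072 (by norm_num) thmW_e
  have e : (384 * ((331072 : ℕ) : ℝ) + 2 * ((331072 : ℕ) : ℝ) * (6 + ((331072 : ℕ) : ℝ)) + 100) =
      219348442980 := by norm_num
  rwa [e] at h

/-- The bound for all divisors of `a - s b`. -/
theorem ridoutExpl : RidoutW (10 ^ 12) := ridoutRaw.mono (by norm_num)

/-- The bound for all triples. -/
theorem allEpsExpl : AllEpsW (10 ^ 12) :=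
  (allEpsE 219348442980 (by norm_num) ridoutRaw).mono (by norm_num)

/-- The plain form. -/
theorem plainExpl (ε : ℝ) (hε : 0 < ε) : ∃ K : ℝ, 0 < K ∧ ∀ a b c : ℕ, AbcTriple a b c →
    Real.log c < K * (rad (a * b * c) : ℝ) ^ ε := by
  have hm0 : 0 < min ε 1 := lt_min hε one_pos
  refine ⟨Real.exp (Real.exp (10 ^ 12 / min ε 1 * (1 + Real.log (1 / min ε 1)))) + 1,
    by positivity, ?_⟩
  intro a b c habc
  have h1 := allEpsExpl (min ε 1) hm0 (min_le_right _ _) a b c habc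
  have hP1 : (1 : ℝ) ≤ (rad (a * b * c) : ℝ) := by
    exact_mod_cast radE_pos (a * b * c)
  have h2 : (rad (a * b * c) : ℝ) ^ min ε 1 ≤ (rad (a * b * c) : ℝ) ^ ε :=
    Real.rpow_le_rpow_of_exponent_le hP1 (min_le_left _ _)
  have h3 : 0 < (rad (a * b * c) : ℝ) ^ ε := Real.rpow_pos_of_pos (by linarith) _
  have h4 := Real.exp_pos (Real.exp (10 ^ 12 / min ε 1 * (1 + Real.log (1 / min ε 1))))
  calc Real.log c ≤ _ := h1
    _ ≤ Real.exp (Real.exp (10 ^ 12 / min ε 1 * (1 + Real.log (1 / min ε 1)))) *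
        (rad (a * b * c) : ℝ) ^ ε := mul_le_mul_of_nonneg_left h2 h4.le
    _ < _ := by
        rw [add_mul, one_mul]
        linarith

/-- **Theorem W**, explicit: every abc-triple with `r = rad (abc) ≥ exp (exp (10 ^ 15))` has
`log c ≤ exp (10 ^ 13 log r log log log r / log log r)`. -/
theorem subexpExpl (a b c : ℕ) (habc : AbcTriple a b c)
    (hr : Real.exp (Real.exp (10 ^ 15)) ≤ (rad (a * b * c) : ℝ)) :
    Real.log c ≤ Real.exp (10 ^ 13 * Real.log (rad (a * b * c)) *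
      Real.log (Real.log (Real.log (rad (a * b * c)))) /
      Real.log (Real.log (rad (a * b * c)))) :=
  asyE _ _ hr fun ε h1 h2 => allEpsExpl ε h1 h2 a b c habc

end Pool.Agent.Lib.AbcZW
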