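import Mathlib
import Pool.Agent.Lib.AbcZW.ParamW
import Pool.Agent.Lib.AbcZW.ParamWfin
import Pool.Agent.Lib.AbcZW.CoreWB

/-!
# Theorem W
-/

namespace Pool.Agent.Lib.AbcZW

open Finset Pool.Agent.Lib.AbcZ Pool.Agent.Lib.AbcZQ

/-- **Theorem W**. -/
theorem thmW : ∃ C0 : ℕ, 1 ≤ C0 ∧ ThmW C0 := by
  obtain ⟨X0, hX00, hX0⟩ := prime_dense_q
  obtain ⟨C1, hC1⟩ := exists_nat_ge X0
  refine ⟨200000 + C1, by omega, ?_⟩
  intro A ν T Q E N Z1 Z2 s hA hν0 hν2 hE h1 h2 hcop hs hne hdvd hZ1 hZ2 hT hET hTQ hP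
  set C0 : ℕ := 200000 + C1 with hC0
  have hC0R : (C0 : ℝ) = 200000 + C1 := by rw [hC0]; push_cast; ring
  have hC1R : (0 : ℝ) ≤ C1 := Nat.cast_nonneg _
  by_contra hcon
  have hcon := not_le.1 hcon
  set n : ℕ := (Z1 * Z2).primeFactors.card with hn
  set x : ℝ := A / ν with hx
  have hx2 : 2 ≤ x := by
    rw [hx, le_div_iff₀ hν0]
    linarith
  have hxν : 1 / ν ≤ x := by
    rw [hx]
    exact div_le_div_of_nonneg_right hA hν0.le
  have hν1 : ν < 1 := by linarith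
  have hx0 : 0 < x := by linarith
  have hνx : ν * x = A := by rw [hx]; field_simp
  have hA0 : 0 < A := by linarith
  have hE2R : (2 : ℝ) ≤ E := by exact_mod_cast hE
  have hE0R : (0 : ℝ) < E := by linarith
  have hlam0 : 0 < Real.log E := Real.log_pos (by linarith)
  have hT1 : 1 < T := by linarith
  have hlogT : 0 < Real.log T := Real.log_pos hT1
  -- `Q`
  have hQ0 : 0 < Q := by
    rcases Nat.eq_zero_or_pos Q with h | h
    · rw [h] at hTQ
      simp at hTQ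
      linarith
    · exact h
  have hQR : (1 : ℝ) ≤ Q := by exact_mod_cast hQ0
  -- `J` and `q`
  set J : ℕ := ⌈64 * x⌉₊ with hJ
  have hJa : 64 * x ≤ J := Nat.le_ceil _
  have hJb : (J : ℝ) ≤ 65 * x := by
    have := (Nat.ceil_lt_add_one (a := 64 * x) (by positivity)).le
    rw [← hJ] at this
    linarith
  have h64 : 64 * A / ν = 64 * x := by rw [hx]; ring
  have hJc : 64 * A / ν ≤ J := by rw [h64]; exact hJa
  have hJd : (J : ℝ) ≤ 64 * A / ν + 1 := by
    rw [h64]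
    exact (Nat.ceil_lt_add_one (by positivity)).le
  have hJ1R : (128 : ℝ) ≤ J := by linarith
  have hJ128 : 128 ≤ J := by exact_mod_cast hJ1R
  set q : ℕ := 128 * J with hq
  have hqR : (q : ℝ) = 128 * J := by rw [hq]; push_cast; ring
  have hqx' : (q : ℝ) ≤ 2 ^ 14 * x := by
    rw [hqR]
    linarith
  have hqx : (q : ℝ) ≤ 2 ^ 22 * x ^ 3 := by
    refine hqx'.trans ?_
    have e1 : x ≤ x ^ 3 := le_self_pow₀ (by linarith) (by norm_num)
    have e2 : (2 : ℝ) ^ 14 ≤ 2 ^ 22 := by norm_num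
    gcongr
  have hq1R : (1 : ℝ) ≤ q := by rw [hqR]; linarith
  have hq1 : 1 ≤ q := by omega
  -- the size of `N`
  set Y : ℝ := (C0 * A / ν) ^ C0 * (Q : ℝ) ^ (n + 1) * (E : ℝ) ^ ν with hY
  have hCx : (C0 : ℝ) * A / ν = C0 * x := by rw [hx]; ring
  have hC0x : 1 ≤ (C0 : ℝ) * x := one_le_mul_of_one_le_of_one_le (by linarith) (by linarith)
  have hbase : 2 ^ 155 * x ^ 20 ≤ (C0 * A / ν) ^ C0 := by
    rw [hCx]
    have e1 : (2 * x) ^ 200 ≤ ((C0 : ℝ) * x) ^ C0 := by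
      calc (2 * x) ^ 200 ≤ ((C0 : ℝ) * x) ^ 200 := by
            gcongr
            linarith
        _ ≤ ((C0 : ℝ) * x) ^ C0 := by
            exact pow_le_pow_right₀ hC0x (by omega)
    refine le_trans ?_ e1
    rw [mul_pow]
    have e2 : (2 : ℝ) ^ 155 ≤ 2 ^ 200 := pow_le_pow_right₀ (by norm_num) (by norm_num)
    have e3 : x ^ 20 ≤ x ^ 200 := pow_le_pow_right₀ (by linarith) (by norm_num)
    gcongr
  have hbase2 : (C0 : ℝ) ≤ (C0 * A / ν) ^ C0 := by
    rw [hCx]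
    have e1 : (C0 : ℝ) ≤ C0 * x := le_mul_of_one_le_right (by linarith) (by linarith)
    exact e1.trans (le_self_pow₀ hC0x (by omega))
  have hpν : 1 ≤ (E : ℝ) ^ ν := Real.one_le_rpow (by linarith) hν0.le
  have hQn : 1 ≤ (Q : ℝ) ^ (n + 1) := one_le_pow₀ hQR
  have hQn' : (Q : ℝ) ^ n ≤ (Q : ℝ) ^ (n + 1) := pow_le_pow_right₀ hQR (by omega)
  have hQn'' : (Q : ℝ) ≤ (Q : ℝ) ^ (n + 1) := le_self_pow₀ hQR (by omega)
  have hY1 : (C0 * A / ν) ^ C0 ≤ Y := by
    calc (C0 * A / ν) ^ C0 = (C0 * A / ν) ^ C0 * 1 * 1 := by ring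
      _ ≤ Y := by rw [hY]; gcongr
  have hYa : 2 ^ 155 * x ^ 20 * (Q : ℝ) ^ n * (E : ℝ) ^ ν ≤ Y := by rw [hY]; gcongr
  have hYb : 2 ^ 155 * x ^ 20 ≤ Y := hbase.trans hY1
  have hYc : (C0 : ℝ) ≤ Y := hbase2.trans hY1
  have hYQ : (Q : ℝ) ≤ Y := by
    calc (Q : ℝ) = 1 * Q * 1 := by ring
      _ ≤ (C0 * A / ν) ^ C0 * (Q : ℝ) ^ (n + 1) * (E : ℝ) ^ ν := by
          gcongr
          linarith
  have hY10 : 1 ≤ Y := by linarith
  have hYY : Y * Y < N := by
    have : Y * Y = Y ^ 2 := by ring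
    rw [this]; exact hcon
  have hYN : Y ≤ N := (le_mul_of_one_le_left (by linarith) hY10).trans hYY.le
  have hx13 : x ≤ x ^ 20 := le_self_pow₀ (by linarith) (by norm_num)
  have hx03 : 1 ≤ x ^ 20 := one_le_pow₀ (by linarith)
  have hNx : 2 ^ 20 * x ≤ N := by
    refine le_trans ?_ hYN
    refine le_trans ?_ hYb
    have e2 : (2 : ℝ) ^ 20 ≤ 2 ^ 155 := by norm_num
    gcongr
  have hN1000 : (1000 : ℝ) ≤ N := by linarith
  have hN5 : 5 ≤ N := by
    have : (5 : ℝ) ≤ N := by linarith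
    exact_mod_cast this
  have hNpos : 0 < N := by omega
  have hNR : (0 : ℝ) < N := by exact_mod_cast hNpos
  have hXN : X0 ≤ 1 / 2 * N := by
    have e1 : X0 * 2 ≤ Y * Y := by
      apply mul_le_mul _ _ (by positivity) (by linarith)
      · linarith
      · refine le_trans ?_ hYb
        calc (2 : ℝ) ≤ 2 ^ 155 * 1 := by norm_num
          _ ≤ 2 ^ 155 * x ^ 20 := by gcongr
    linarith
  have hQN : (Q : ℝ) ≤ N := hYQ.trans hYN
  have hνN : 1000 ≤ ν * N := by
    calc (1000 : ℝ) ≤ 2 ^ 20 * A := by linarith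
      _ = ν * (2 ^ 20 * x) := by rw [← hνx]; ring
      _ ≤ ν * N := by gcongr
  have hνN1 : ν * N ≤ N := by
    calc ν * N ≤ 1 * N := by gcongr
      _ = N := one_mul _
  -- `N J`
  have hNJ : (N : ℝ) ≤ N * J := le_mul_of_one_le_right hNR.le (by linarith)
  have hNJ0 : (0 : ℝ) < N * J := by positivity
  have hNνJ : 64 * A * N ≤ ν * (N * J) := by
    calc 64 * A * N = ν * (N * (64 * x)) := by rw [← hνx]; ring
      _ ≤ ν * (N * J) := by gcongr
  have h64N : 64 * (N : ℝ) ≤ ν * (N * J) := by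
    refine le_trans ?_ hNνJ
    have : 64 * 1 * (N : ℝ) ≤ 64 * A * N := by gcongr
    linarith
  have hνNJ : ν * (N * J) ≤ 1 / 2 * (N * J) := by gcongr
  -- `R`
  obtain ⟨R, hR3, hRa, hRb⟩ := par_RW (1 / 2) N q (by norm_num) (by norm_num) (by omega) hq1
  -- `H`
  have hPκ1 : 1 ≤ (E : ℝ) ^ (1 - ν) := Real.one_le_rpow (by linarith) (by linarith)
  set H : ℕ := ⌊(E : ℝ) ^ (1 - ν)⌋₊ with hH
  have hH1 : 1 ≤ H := by
    rw [hH, Nat.one_le_floor_iff]
    exact hPκ1
  have hHle : (H : ℝ) ≤ (E : ℝ) ^ (1 - ν) := Nat.floor_le (by positivity)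
  have hH1R : (1 : ℝ) ≤ H := by exact_mod_cast hH1
  have hHlog : Real.log H ≤ (1 - ν) * Real.log E := by
    have h3 := Real.log_le_log (by linarith) hHle
    rwa [Real.log_rpow hE0R] at h3
  have hHE : H < E := by
    have h3 : (E : ℝ) ^ (1 - ν) < (E : ℝ) ^ (1 : ℝ) :=
      Real.rpow_lt_rpow_of_exponent_lt (by linarith) (by linarith)
    rw [Real.rpow_one] at h3
    exact_mod_cast hHle.trans_lt h3
  -- integer parameters
  set N2 : ℕ := ⌈ν / 32 * (N * J)⌉₊ with hN2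
  have hN2a : ν / 32 * (N * J) ≤ N2 := Nat.le_ceil _
  have hN2b : (N2 : ℝ) < ν / 32 * (N * J) + 1 := Nat.ceil_lt_add_one (by positivity)
  have hN2pos : 0 < N2 := by
    have : (0 : ℝ) < N2 := lt_of_lt_of_le (by positivity) hN2a
    exact_mod_cast this
  have hN2R : (0 : ℝ) < N2 := by exact_mod_cast hN2pos
  set Lmax : ℕ := N * J + 2 * N2 + N + 1 with hLmax
  have hLmR : (Lmax : ℝ) = N * J + 2 * N2 + N + 1 := by rw [hLmax]; push_cast; ring
  have e32 : ν / 32 * ((N : ℝ) * J) = ν * (N * J) / 32 := by ring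
  rw [e32] at hN2a hN2b
  have hLb : (Lmax : ℝ) ≤ N * J + 5 / 64 * (ν * (N * J)) + 3 := by
    rw [hLmR]
    linarith
  have hLb2 : (Lmax : ℝ) ≤ 2 * (N * J) := by linarith
  -- the sum of the logarithms
  have hSp : ∀ r ∈ (Z1 * Z2).primeFactors, r.Prime := fun r hr => Nat.prime_of_mem_primeFactors hr
  have hlogS : ∑ r ∈ (Z1 * Z2).primeFactors, Real.log (r : ℝ) ≤ Real.log T := by
    have h5 : ∑ r ∈ (Z1 * Z2).primeFactors, Real.log (r : ℝ) =
        Real.log (∏ r ∈ (Z1 * Z2).primeFactors, (r : ℝ)) := by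
      rw [Real.log_prod]
      intro r hr
      have := (hSp r hr).pos
      positivity
    rw [h5]
    refine Real.log_le_log ?_ hT
    exact Finset.prod_pos fun r hr => by
      have := (hSp r hr).pos
      positivity
  have hLsP : Real.log T ≤ Q * (ν * Real.log E) / 200 := by linarith
  have hq2N : 2 * q ≤ N := by
    have : (2 : ℝ) * q ≤ N := by
      refine le_trans ?_ hNx
      linarith
    exact_mod_cast this
  refine thmSexpW E N J Z1 Z2 s hE h1 h2 hcop hs hne hdvd (1 - ν) A (Real.log T) (by linarith)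
    (by linarith) hA0.le hN5 (by omega) q (10 * J - 1) (3 * N / q) Q H (N / (2 * q ^ 2 + 1)) R N2
    Lmax hQ0 hHE hHlog hR3 (Nat.div_le_self _ _) ?_
    (par_letW X0 hX0 N q R (by omega) hq2N hXN hRa) ?_ ?_ ?_ hN2pos le_rfl hlogS ?_ hZ1 hZ2 ?_
  · -- the pigeonhole condition
    refine par_countE ν x (1 / 2) Y N E Q n q (2 * q ^ 2 + 1) R hν1 hE hx0.le (by positivity)
      ?_ hqx (by norm_num) ?_ (by omega) hRb hQ0 hYa hcon
    · push_cast
      have : (1 : ℝ) ≤ (q : ℝ) ^ 2 := one_le_pow₀ hq1R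
      linarith
    · have : 1 ≤ x ^ 2 := one_le_pow₀ (by linarith)
      norm_num
      linarith
  · -- `8 n ≤ (D + 1) N`
    have e1 : 10 * J - 1 + 1 = 10 * J := by omega
    rw [e1]
    have : (8 : ℝ) * (N * J + 2 * N2) ≤ 10 * J * N := by
      have e2 : 10 * (J : ℝ) * N = 10 * (N * J) := by ring
      rw [e2]
      linarith
    exact_mod_cast this
  · -- `8 (D + 1) ≤ N`
    have e1 : 10 * J - 1 + 1 = 10 * J := by omega
    rw [e1]
    have : (8 : ℝ) * (10 * J) ≤ N := by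
      refine le_trans ?_ hNx
      linarith
    exact_mod_cast this
  · -- `(D + 2) h + G ≤ N`
    have e1 : 10 * J - 1 + 2 = 10 * J + 1 := by omega
    rw [e1]
    have e2 : ((3 * N / q : ℕ) : ℝ) ≤ 3 * N / (128 * J) := by
      refine Nat.cast_div_le.trans ?_
      rw [hqR]
      push_cast
      exact le_rfl
    have e3 : ((N / (2 * q ^ 2 + 1) : ℕ) : ℝ) ≤ N / 2 := by
      refine Nat.cast_div_le.trans ?_
      apply div_le_div_of_nonneg_left hNR.le (by norm_num)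
      push_cast
      have : (1 : ℝ) ≤ (q : ℝ) ^ 2 := one_le_pow₀ hq1R
      linarith
    have e4 : (10 * (J : ℝ) + 1) * (3 * N / (128 * J)) ≤ N / 2 := by
      have e7 : 10 * (J : ℝ) + 1 ≤ 11 * J := by linarith
      calc (10 * (J : ℝ) + 1) * (3 * N / (128 * J)) ≤ 11 * J * (3 * N / (128 * J)) := by gcongr
        _ = 33 / 128 * N := by field_simp; ring
        _ ≤ N / 2 := by linarith
    have e5 : (((10 * J + 1) * (3 * N / q) + N / (2 * q ^ 2 + 1) : ℕ) : ℝ) ≤ N := by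
      push_cast
      have e6 : (10 * (J : ℝ) + 1) * ((3 * N / q : ℕ) : ℝ) ≤
          (10 * (J : ℝ) + 1) * (3 * N / (128 * J)) := by
        apply mul_le_mul_of_nonneg_left _ (by positivity)
        exact_mod_cast e2
      linarith
    exact_mod_cast e5
  · -- box condition for `omega ≠ 1`
    have h3 : (Q : ℝ) * (ν * Real.log E) ≤ Q * (1 * Real.log E) := by gcongr
    linarith
  · -- the final inequality
    refine par_finW A ν (Real.log T) N J q N2 Lmax Q E hA hν0 hν2 (by omega) hJc hJd rfl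
      hN2a hN2b.le rfl hQ0 (by exact_mod_cast hQN) hE hTQ (le_trans ?_ hP)
    have h0 : 0 ≤ 1 + Real.log (A / ν) := by
      have := Real.log_nonneg (show (1 : ℝ) ≤ A / ν by linarith)
      linarith
    apply mul_le_mul_of_nonneg_right _ h0
    apply div_le_div_of_nonneg_right _ hν0.le
    apply mul_le_mul_of_nonneg_right _ hA0.le
    linarith

end Pool.Agent.Lib.AbcZW
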