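import Mathlib
import Pool.Agent.Lib.AbcZW.DefsW
import Pool.Agent.Lib.AbcZW.ThmW
import Pool.Agent.Lib.AbcZW.RidoutW
import Pool.Agent.Lib.AbcZW.AsyW

/-!
# All abc-triples: the final statements
-/

namespace Pool.Agent.Lib.AbcZW

open Finset

theorem rad_pos (n : ℕ) : 0 < rad n :=
  Finset.prod_pos fun _ hp => (Nat.prime_of_mem_primeFactors hp).pos

/-- The bound for all exponents, explicit. -/
theorem allEpsW : ∃ C : ℝ, 1 ≤ C ∧ AllEpsW C := by
  obtain ⟨C0, h0, hS⟩ := thmW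
  exact allEpsW_of C0 h0 hS

/-- The bound for all divisors of `a - s b`, explicit. -/
theorem ridoutW : ∃ C : ℝ, 1 ≤ C ∧ RidoutW C := by
  obtain ⟨C0, h0, hS⟩ := thmW
  exact ridoutW_of C0 h0 hS

/-- The plain form. -/
theorem plainW (ε : ℝ) (hε : 0 < ε) : ∃ K : ℝ, 0 < K ∧ ∀ a b c : ℕ, AbcTriple a b c →
    Real.log c < K * (rad (a * b * c) : ℝ) ^ ε := by
  obtain ⟨C, hC, h⟩ := allEpsW
  have hm0 : 0 < min ε 1 := lt_min hε one_pos
  refine ⟨Real.exp (Real.exp (C / min ε 1 * (1 + Real.log (1 / min ε 1)))) + 1,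
    by positivity, ?_⟩
  intro a b c habc
  have h1 := h (min ε 1) hm0 (min_le_right _ _) a b c habc
  have hP1 : (1 : ℝ) ≤ (rad (a * b * c) : ℝ) := by
    exact_mod_cast rad_pos (a * b * c)
  have h2 : (rad (a * b * c) : ℝ) ^ min ε 1 ≤ (rad (a * b * c) : ℝ) ^ ε :=
    Real.rpow_le_rpow_of_exponent_le hP1 (min_le_left _ _)
  have h3 : 0 < (rad (a * b * c) : ℝ) ^ ε := Real.rpow_pos_of_pos (by linarith) _
  have h4 := Real.exp_pos (Real.exp (C / min ε 1 * (1 + Real.log (1 / min ε 1))))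
  calc Real.log c ≤ _ := h1
    _ ≤ Real.exp (Real.exp (C / min ε 1 * (1 + Real.log (1 / min ε 1)))) *
        (rad (a * b * c) : ℝ) ^ ε := mul_le_mul_of_nonneg_left h2 h4.le
    _ < _ := by
        rw [add_mul, one_mul]
        linarith

/-- **Theorem W**: every abc-triple, `r = rad (abc)`:
`log c ≤ exp (C log r log log log r / log log r)`. -/
theorem subexpW : ∃ C r0 : ℝ, 0 < C ∧ ∀ a b c : ℕ, AbcTriple a b c →
    r0 ≤ (rad (a * b * c) : ℝ) →
    Real.log c ≤ Real.exp (C * Real.log (rad (a * b * c)) *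
      Real.log (Real.log (Real.log (rad (a * b * c)))) /
      Real.log (Real.log (rad (a * b * c)))) := by
  obtain ⟨C, hC, hE⟩ := allEpsW
  obtain ⟨C', r0, hC', h⟩ := asyW C hC
  exact ⟨C', r0, hC', fun a b c habc hr => h _ _ hr fun ε h1 h2 => hE ε h1 h2 a b c habc⟩

end Pool.Agent.Lib.AbcZW
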